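import Mathlib

/-!
# Dominated convergence with a convergent family of dominating functions
-/

open Filter Topology MeasureTheory

namespace Pool.Agent.H840.AS

theorem gdct {α ι E : Type*} [MeasurableSpace α] {μ : Measure α} [NormedAddCommGroup E]
    [NormedSpace ℝ E] {l : Filter ι} [l.IsCountablyGenerated]
    {F : ι → α → E} {f : α → E} {G : ι → α → ℝ} {g : α → ℝ}
    (hFm : ∀ᶠ n in l, AEStronglyMeasurable (F n) μ) (hGi : ∀ᶠ n in l, Integrable (G n) μ)
    (hgi : Integrable g μ) (hb : ∀ᶠ n in l, ∀ᵐ x ∂μ, ‖F n x‖ ≤ G n x)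
    (hbg : ∀ᵐ x ∂μ, ‖f x‖ ≤ g x)
    (hF : ∀ᵐ x ∂μ, Tendsto (fun n => F n x) l (𝓝 (f x)))
    (hG : ∀ᵐ x ∂μ, Tendsto (fun n => G n x) l (𝓝 (g x)))
    (hI : Tendsto (fun n => ∫ x, G n x ∂μ) l (𝓝 (∫ x, g x ∂μ))) :
    Tendsto (fun n => ∫ x, F n x ∂μ) l (𝓝 (∫ x, f x ∂μ)) := by
  set m : ι → α → ℝ := fun n x => min (G n x) (g x) with hm
  set T : ι → α → E := fun n x => (m n x / G n x) • F n x with hT
  have h1 : Tendsto (fun n => ∫ x, m n x ∂μ) l (𝓝 (∫ x, g x ∂μ)) := by
    refine tendsto_integral_filter_of_dominated_convergence (fun x => |g x|) ?_ ?_ hgi.abs ?_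
    · filter_upwards [hGi] with n hn
      exact (hn.aestronglyMeasurable.inf hgi.aestronglyMeasurable)
    · filter_upwards [hb] with n hn
      filter_upwards [hn, hbg] with x hx hx2
      have h0 : 0 ≤ G n x := (norm_nonneg _).trans hx
      have h0' : 0 ≤ g x := (norm_nonneg _).trans hx2
      rw [Real.norm_eq_abs, abs_of_nonneg (le_min h0 h0'), abs_of_nonneg h0']
      exact min_le_right _ _
    · filter_upwards [hG] with x hx
      have := hx.min (tendsto_const_nhds (x := g x))
      simpa [hm] using this
  have h2 : Tendsto (fun n => ∫ x, T n x ∂μ) l (𝓝 (∫ x, f x ∂μ)) := by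
    refine tendsto_integral_filter_of_dominated_convergence (fun x => g x) ?_ ?_ hgi ?_
    · filter_upwards [hGi, hFm] with n hn hn2
      exact (((hn.aestronglyMeasurable.inf hgi.aestronglyMeasurable).div₀
        hn.aestronglyMeasurable)).smul hn2
    · filter_upwards [hb] with n hn
      filter_upwards [hn, hbg] with x hx hx2
      have h0 : 0 ≤ G n x := (norm_nonneg _).trans hx
      have h0' : 0 ≤ g x := (norm_nonneg _).trans hx2
      have hm0 : 0 ≤ m n x := le_min h0 h0'
      simp only [hT, norm_smul, Real.norm_eq_abs]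
      rw [abs_of_nonneg (div_nonneg hm0 h0)]
      rcases h0.eq_or_lt with h | h
      · rw [← h]; simpa using h0'
      · calc m n x / G n x * ‖F n x‖ ≤ m n x / G n x * G n x := by gcongr
          _ = m n x := by field_simp
          _ ≤ g x := min_le_right _ _
    · -- pointwise convergence
      have hall : ∀ᵐ x ∂μ, ∀ᶠ n in l, ‖F n x‖ ≤ G n x → ‖T n x‖ ≤ m n x := by
        filter_upwards [hbg] with x hx2
        filter_upwards with n
        intro hx
        have h0 : 0 ≤ G n x := (norm_nonneg _).trans hx
        have h0' : 0 ≤ g x := (norm_nonneg _).trans hx2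
        have hm0 : 0 ≤ m n x := le_min h0 h0'
        simp only [hT, norm_smul, Real.norm_eq_abs]
        rw [abs_of_nonneg (div_nonneg hm0 h0)]
        rcases h0.eq_or_lt with h | h
        · rw [← h]; simp [hm0]
        · calc m n x / G n x * ‖F n x‖ ≤ m n x / G n x * G n x := by gcongr
            _ = m n x := by field_simp
      filter_upwards [hF, hG, hbg] with x hx hxG hx2
      have h0' : 0 ≤ g x := (norm_nonneg _).trans hx2
      rcases h0'.eq_or_lt with h | h
      · -- g x = 0
        have hf0 : f x = 0 := by
          rw [← h] at hx2; exact norm_le_zero_iff.1 hx2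
        rw [hf0]
        rw [hf0] at hx
        refine squeeze_zero_norm (a := fun n => ‖F n x‖) ?_ ?_
        · intro n
          simp only [hT, norm_smul, Real.norm_eq_abs, hm, ← h]
          rcases lt_trichotomy (G n x) 0 with h' | h' | h'
          · rw [min_eq_left h'.le, div_self h'.ne]; simp
          · rw [h']; simp
          · rw [min_eq_right h'.le]; simp
        · exact (tendsto_zero_iff_norm_tendsto_zero.1 hx)
      · have hr : Tendsto (fun n => m n x / G n x) l (𝓝 (g x / g x)) := by
          refine Tendsto.div ?_ hxG h.ne'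
          have := hxG.min (tendsto_const_nhds (x := g x))
          simpa [hm] using this
        rw [div_self h.ne'] at hr
        have := hr.smul hx
        simpa [hT] using this
  have h3 : Tendsto (fun n => (∫ x, F n x ∂μ) - ∫ x, T n x ∂μ) l (𝓝 0) := by
    have h4 : Tendsto (fun n => (∫ x, G n x ∂μ) - ∫ x, m n x ∂μ) l (𝓝 0) := by
      have := hI.sub h1
      simpa using this
    refine squeeze_zero_norm' ?_ h4
    filter_upwards [hGi, hFm, hb] with n hGn hFn hbn
    have hFi : Integrable (F n) μ := hGn.mono' hFn hbn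
    have hmi : Integrable (m n) μ := hGn.inf hgi
    have hTm : AEStronglyMeasurable (T n) μ := (((hGn.aestronglyMeasurable.inf
      hgi.aestronglyMeasurable).div₀ hGn.aestronglyMeasurable)).smul hFn
    have hTi : Integrable (T n) μ := by
      refine hGn.mono' hTm ?_
      filter_upwards [hbn, hbg] with x hx hx2
      have h0 : 0 ≤ G n x := (norm_nonneg _).trans hx
      have h0' : 0 ≤ g x := (norm_nonneg _).trans hx2
      have hm0 : 0 ≤ m n x := le_min h0 h0'
      simp only [hT, norm_smul, Real.norm_eq_abs]
      rw [abs_of_nonneg (div_nonneg hm0 h0)]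
      rcases h0.eq_or_lt with h | h
      · rw [← h]; simp
      · calc m n x / G n x * ‖F n x‖ ≤ m n x / G n x * G n x := by gcongr
          _ = m n x := by field_simp
          _ ≤ G n x := min_le_left _ _
    rw [← integral_sub hFi hTi, ← integral_sub hGn hmi]
    refine (norm_integral_le_integral_norm _).trans ?_
    refine integral_mono_ae (hFi.sub hTi).norm (hGn.sub hmi) ?_
    filter_upwards [hbn, hbg] with x hx hx2
    have h0 : 0 ≤ G n x := (norm_nonneg _).trans hx
    have h0' : 0 ≤ g x := (norm_nonneg _).trans hx2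
    have hm0 : 0 ≤ m n x := le_min h0 h0'
    have hmG : m n x ≤ G n x := min_le_left _ _
    simp only [hT]
    rcases h0.eq_or_lt with h | h
    · have hF0 : F n x = 0 := by
        rw [← h] at hx; exact norm_le_zero_iff.1 hx
      simp only [hF0, smul_zero, sub_zero, norm_zero]; linarith
    · have : F n x - (m n x / G n x) • F n x = (1 - m n x / G n x) • F n x := by
        rw [sub_smul, one_smul]
      rw [this, norm_smul, Real.norm_eq_abs]
      have h5 : m n x / G n x ≤ 1 := (div_le_one h).2 hmG
      rw [abs_of_nonneg (by linarith)]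
      calc (1 - m n x / G n x) * ‖F n x‖ ≤ (1 - m n x / G n x) * G n x := by
            apply mul_le_mul_of_nonneg_left hx (by linarith)
        _ = G n x - m n x := by field_simp
  have h6 := h3.add h2
  simpa using h6

end Pool.Agent.H840.AS
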