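import Pool.Agent.H840.AS.Per
set_option autoImplicit false

/-!
# Statements of the independent parts
-/

open Complex Filter Topology MeasureTheory Set Metric

open scoped ComplexConjugate

namespace Pool.Agent.H840.AS

/-- GRP.  An assignment `Λ ↦ S Λ` of a real subspace to every subgroup of `ℂ ^ 2`, functorial for
linear maps `g` with `g Λ' ⊆ Λ`, which near `τ₀ = i Y` contains elements near `R` and near `P`,
is everything Hermitian for every `τ`.

Paper proof.  Write `S τ = S (Lat τ)`.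
(a) For `U ∈ GL₂(ℚ)` and `τ' = U τ Uᵀ`: with `N` an integer such that `N U⁻¹` and `N Uᵀ` are
integral, `g = N U⁻¹` maps `Lat τ'` to `Lat τ`, so `U⁻¹ Z U⁻ᵀ ∈ S τ` for `Z ∈ S τ'` (scale by
`N ^ 2`).  (b) For `B` rational and symmetric `g = N` maps `Lat (τ + B)` to `Lat τ`, so
`S (τ + B) ≤ S τ`.  (c) `g = τ` maps `Lat (-τ⁻¹)` to `Lat τ` so `τ Z τᴴ ∈ S τ` for `Z ∈ S (-τ⁻¹)`.
(d) Let `τ = X + i Y'` with `Y'` positive definite and let `U` be a real invertible matrix with
`U Y' Uᵀ = Y`.  Choose rational `U_n → U`, and rational symmetric `B_n → -U X Uᵀ`.  Then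
`U_n τ U_nᵀ + B_n → i Y`, so for `Z₀ ∈ {R, P}` there are `Z_n ∈ S (U_n τ U_nᵀ + B_n)` with
`Z_n → Z₀`, and `U_n⁻¹ Z_n U_n⁻ᵀ ∈ S τ` converges to `U⁻¹ Z₀ U⁻ᵀ`.  As `S τ` is closed,
`U⁻¹ Z₀ U⁻ᵀ ∈ S τ`.  (e) Let `T` be real invertible with `T Tᵀ = Y` and `V` with `V Vᵀ = Y'`.
For every orthogonal `O` the matrix `U = T O V⁻¹` is allowed, `U⁻¹ Z₀ U⁻ᵀ = V Oᵀ (T⁻¹ Z₀ T⁻ᵀ) O Vᵀ`.
The real span of `Oᵀ K O` for `O ∈ O(2)` and `K ∈ {T⁻¹ R T⁻ᵀ, T⁻¹ P T⁻ᵀ}` is all real symmetric
matrices (rotation by 90 degrees and sum: the trace part, as the second `K` is positive definite;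
the difference of the first `K` (with negative determinant, hence not scalar) and its rotation by
90 degrees is traceless and not zero; a rotation by 45 degrees sends `!![a, b; b, -a]` to
`± !![b, -a; -a, -b]`).  So all real symmetric matrices are in `S τ`, for all `τ`.
(f) By (c) with `-τ⁻¹` (its imaginary part is positive definite) all `τ s τᴴ` with `s` real
symmetric are in `S τ`.  With `s = !![1, 0; 0, 0]` the imaginary part of `τ s τᴴ` is
`(Y'₀₀ X₀₁ - Y'₁₀ X₀₀) J` up to sign, `J = !![0, 1; -1, 0]`.  Replacing `τ` by `τ + !![0, 1; 1, 0]`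
(and (b)) we can assume that this is not zero, so `i J ∈ S τ`.  Real symmetric matrices and `i J`
span the Hermitian matrices. -/
def S_GRP : Prop :=
  ∀ S : AddSubgroup (Fin 2 → ℂ) → Submodule ℝ (Matrix (Fin 2) (Fin 2) ℂ),
    (∀ (Λ' Λ : AddSubgroup (Fin 2 → ℂ)) (g : Matrix (Fin 2) (Fin 2) ℂ),
      (∀ v ∈ Λ', g.mulVec v ∈ Λ) → ∀ Z ∈ S Λ', g * Z * g.conjTranspose ∈ S Λ) →
    ∀ Y R P : Matrix (Fin 2) (Fin 2) ℝ, Y.PosDef → R.IsSymm → R.det < 0 → P.PosDef →
    (∀ V ∈ 𝓝 (toC R), ∀ᶠ τ in 𝓝 (Complex.I • toC Y), τ.IsSymm → ∃ Z ∈ S (Lat τ), Z ∈ V) →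
    (∀ V ∈ 𝓝 (toC P), ∀ᶠ τ in 𝓝 (Complex.I • toC Y), τ.IsSymm → ∃ Z ∈ S (Lat τ), Z ∈ V) →
    ∀ τ : Matrix (Fin 2) (Fin 2) ℂ, τ.IsSymm → (τ.map Complex.im).PosDef →
      ∀ Z : Matrix (Fin 2) (Fin 2) ℂ, Z.IsHermitian → Z ∈ S (Lat τ)

/-- CNT.  The integrals `Rm` are absolutely convergent and depend continuously on `e`.

Paper proof.  For `x` different from the `e k` the logarithm is `log |c| + ∑ n k log |x - e k|`.
As `∑ n k = 0` this is `log |c| + ∑ n k (log |x - e k| - log (1 + |x|))`, so for `e` near `a` (in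
particular the `e k` stay bounded by some `R` and `|e k - e l| ≥ δ > 0`), the absolute value of
the integrand is at most `C ∑_k κ (|x - e k|)` with `κ u = u ^ (-5/4) (1 + u) ^ (-7/4)` (or any
similar function which is integrable over the plane, singularity of exponent `< 2` at `0` and
decay of exponent `> 2` at infinity; here the integrand is `O(|log| x - e k | | / |x - e k|)` near
`e k` and `O(|x| ^ (2 - 5))` at infinity because the logarithm is bounded there).
The function `κ (|x - e k|)` is integrable with integral independent of `e k` (translation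
invariance), so the generalised dominated convergence theorem (`gdct` in
`Pool.Agent.H840.AS.Gdct`, already proved: dominating functions `G_e → G_a` pointwise a.e. with
`∫ G_e → ∫ G_a`) gives the continuity.  `Pool/Agent/H840/KO/Int.lean` contains
`integrableOn_ball` and `integrableOn_compl_ball`. -/
def S_CNT : Prop :=
  ∀ (a : Fin 5 → ℂ) (n : Fin 5 → ℤ) (c : ℂ) (p q : ℕ), Function.Injective a →
    ∑ k, n k = 0 → c ≠ 0 → p ≤ 1 → q ≤ 1 →
    (Integrable fun x : ℂ => ((2 * Real.log ‖c * ∏ k, (x - a k) ^ n k‖ / ‖∏ k, (x - a k)‖ : ℝ) : ℂ) *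
      (x ^ p * conj x ^ q)) ∧
    ContinuousAt (fun e : Fin 5 → ℂ => ∫ x : ℂ,
      ((2 * Real.log ‖c * ∏ k, (x - e k) ^ n k‖ / ‖∏ k, (x - e k)‖ : ℝ) : ℂ) *
      (x ^ p * conj x ^ q)) a

/-- SGN.  Values of the integrals at `e0 = (-2, -1, 0, 1, 2)`.

Paper proof.  (R) `f = (x - 1) / (x + 1)` up to the value at finitely many points.  `log |f|` is
odd and `|∏ (x - e k)|` is even under `x ↦ -x`, so the entries `(0,0)` and `(1,1)` are `0`.  Under
`x ↦ conj x` both are invariant, so the entries `(0,1)` and `(1,0)` are real, and they are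
conjugate to each other.  The `(1,0)` entry has real part `∫ 2 log |f| Re x / |∏ (x - e k)|`, where
`Re x * log |(x - 1) / (x + 1)| ≤ 0` always, `< 0` for almost all `x`; with the integrability from
`S_CNT` the integral is `< 0`.  (P) `log |f| = 1`; the off-diagonal entries vanish by `x ↦ -x`, the
diagonal entries are integrals of the positive functions `2 / |∏|` and `2 |x| ^ 2 / |∏|`. -/
def S_SGN : Prop :=
  S_CNT →
    (∃ r : ℝ, r < 0 ∧ Rm e0 ![0, -1, 0, 1, 0] 1 = toC !![0, r; r, 0]) ∧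
    (∃ p₁ p₂ : ℝ, 0 < p₁ ∧ 0 < p₂ ∧ Rm e0 0 (Complex.exp 1) = toC !![p₁, 0; 0, p₂])

/-- The differential forms in the infinitesimal Torelli theorem. -/
noncomputable def hT (e n : Fin 5 → ℂ) (m : Fin 2 → ℂ) (p : ℕ) (x : ℂ) : ℂ :=
  x ^ p * (∑ k, n k / (2 * (x - e k))) * (rt e x)⁻¹ - (m 0 + m 1 * x) * (rt e x)⁻¹

/-- TOR.  Infinitesimal Torelli.  `Ln h x = ∫ I h (x + t I) dt` over the line through `x`.

Paper proof.  Let `h_p = hT e n (m p) p` on `Dn e` (the plane without the downward half lines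
starting in the `e k`) and `h'_p` the same with `rt'` instead of `rt`, on the plane without the
upward half lines (`-x ∈ Dn (-e)`).  `|h_p| ≤ C ∑_k |x - e k| ^ (-3/2)` on `Dn e`, so
`Φ_p = Up h_p` (`Up.lean`, `up_hasDerivAt`) is defined, `Φ_p' = h_p` on `Dn e`, similarly
`Φ'_p = Down h'_p` (`Strip.lean`).  On the strip `Str e j` we have `h_p = sg j * h'_p` and
`Φ_p - sg j * Φ'_p` is constant, equal to `- Ln h_p` at every point of the strip
(proofs as `Pair.const`, `Pair.Ln_eq` in `Strip.lean`, which only need holomorphy, decay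
`|x| ^ (-3/2)` at infinity and continuity on the lines).  It is `0` for `j = 1, ..., 4` by
hypothesis and for `j = 0, 5` by letting the line tend to infinity (as `Pair.Ln_tendsto`).
So `E_p = rt Φ_p` on `Dn e`, `= rt' Φ'_p` on `-x ∈ Dn (-e)` is well defined and holomorphic on
`ℂ ∖ {e k}` (`rt'_Str`).  Near `e k` it is `O(|x - e k| ^ (-1/4))`: for `Im (x - e k) ≥ 0` use `Up`
with `|x + t I - e k| ≥ max (|x - e k|, t)`, for `Im (x - e k) ≤ 0` use `Down`.  So `E_p` extends to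
an entire function.  For `|x| → ∞` the functions `Φ_p` (for `Im x ≥ 0`) and `Φ'_p` (for
`Im x ≤ 0`) are bounded so `E_p = O(|x| ^ (5/2))`.  From `E_p = rt Φ_p` we get
`h_p rt = E_p' - E_p ∑ 1 / (2 (x - e k))`; multiply with `x - e k` and let `x → e k`:
`E_p (e k) = - n k (e k) ^ p`.  So `D = E_1 - x E_0` is entire, vanishes at all `e k`, and
`D = O(|x| ^ (7/2))`, so `D / ∏ (x - e k)` is entire and tends to `0`, hence `D = 0`,
`Φ_1 = x Φ_0` on `Dn e`.  Differentiate: `h_1 = x h_0 + Φ_0`, so `Φ_0 = h_1 - x h_0 = q (rt)⁻¹` with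
`q(x) = -m 1 0 + (m 0 0 - m 1 1) x + m 0 1 x ^ 2` (the terms with `1 / (x - e k)` cancel).  So
`E_0 = q` and `q (e k) = E_0 (e k) = - n k`.  As `Φ_1 = x Φ_0` is bounded for `x = i t`,
`t → ∞`, and `x Φ_0 = x q / rt`, we get `m 0 1 = 0`. -/
def S_TOR : Prop :=
  ∀ e : Fin 5 → ℂ, Near e → ∀ (n : Fin 5 → ℂ) (m : Matrix (Fin 2) (Fin 2) ℂ),
    (∀ p : Fin 2, ∀ j : ℕ, 1 ≤ j → j ≤ 4 → Ln (hT e n (m p) p) (ln j) = 0) →
    ∃ α β : ℂ, ∀ k, n k = -(α + β * e k)

/-- DER.  The periods are strictly differentiable functions of `e`.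

Paper proof.  `Cc e p j = - ∫ I w e p (a + t I) dt` with `a = ln j` fixed (`j - 5/2`, real).
For `e` near a point with `Near e` the real parts of `a + t I - e k` are bounded away from `0`, so
the integrand is a holomorphic function of `e` (`hasDerivAt_sq`), with derivative
`n ↦ I x ^ p (∑ n k / (2 (x - e k))) (rt e x)⁻¹`, `x = a + t I`; this derivative is continuous in
`e` and bounded by `C (1 + |t|) ^ (-5/2)` locally uniformly.  Use
`hasFDerivAt_integral_of_dominated_of_fderiv_le` at every `e` with `Near e` (an open set,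
`isOpen_Near`), continuity of the derivative by dominated convergence and
`hasStrictFDerivAt_of_hasFDerivAt_of_continuousAt`. -/
def S_DER : Prop :=
  ∀ e : Fin 5 → ℂ, Near e → ∀ p j : ℕ, p ≤ 1 → j ≤ 5 →
    ∃ D : (Fin 5 → ℂ) →L[ℂ] ℂ, HasStrictFDerivAt (fun e => Cc e p j) D e ∧
      ∀ n : Fin 5 → ℂ, D n = -Ln (hT e n 0 p) (ln j)

end Pool.Agent.H840.AS
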