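import Pool.Agent.H840.AS.Sym
set_option autoImplicit false

/-!
# Values at `e0 = (-2, -1, 0, 1, 2)`
-/

open Complex Filter Topology MeasureTheory Set Metric

namespace Pool.Agent.H840.AS

theorem up_cont_real {e : Fin 5 → ℂ} (he : Near e) {h : ℂ → ℂ} (hg : Good e h) {a b : ℝ}
    (hab : a < b) {k l : Fin 5} (ha : e k = a) (hb : e l = b)
    (hI : ∀ x ∈ Ioo a b, (x : ℂ) ∈ Dn e) : ContinuousOn (fun x : ℝ => Up h x) (Icc a b) := by
  have h1 : ∀ x ∈ Ioo a b, ContinuousAt (fun x : ℝ => Up h x) x := by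
    intro x hx
    exact (hg.hasDerivAt he.sep (hI x hx)).comp_ofReal.continuousAt
  have h2 : ∀ (c : ℝ) (m : Fin 5), e m = c →
      ContinuousWithinAt (fun x : ℝ => Up h x) (Ioo a b) c := by
    intro c m hm
    have h3 := hg.tendsto_up he.rsep m
    rw [hm] at h3
    refine h3.comp (tendsto_nhdsWithin_iff.2 ⟨?_, ?_⟩)
    · exact (continuous_ofReal.tendsto c).mono_left nhdsWithin_le_nhds
    · filter_upwards [self_mem_nhdsWithin] with x hx
      exact hI x hx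
  have h3 : Icc a b = Ioo a b ∪ ({a} ∪ {b}) := by
    ext x
    simp only [mem_Icc, mem_union, mem_Ioo, mem_singleton_iff]
    constructor
    · rintro ⟨h, h'⟩
      rcases h.eq_or_lt with h4 | h4
      · right; left; exact h4.symm
      · rcases h'.eq_or_lt with h5 | h5
        · right; right; exact h5
        · left; exact ⟨h4, h5⟩
    · rintro (⟨h, h'⟩ | rfl | rfl)
      · exact ⟨h.le, h'.le⟩
      · exact ⟨le_rfl, hab.le⟩
      · exact ⟨hab.le, le_rfl⟩
  intro x hx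
  rw [h3] at hx ⊢
  rcases hx with hx | hx | hx
  · exact (h1 x hx).continuousWithinAt
  · rw [mem_singleton_iff] at hx
    subst hx
    refine (h2 x k ha).union (ContinuousWithinAt.union continuousWithinAt_singleton ?_)
    apply continuousWithinAt_of_notMem_closure
    rw [closure_singleton, mem_singleton_iff]
    exact hab.ne
  · rw [mem_singleton_iff] at hx
    subst hx
    refine (h2 x l hb).union (ContinuousWithinAt.union ?_ continuousWithinAt_singleton)
    apply continuousWithinAt_of_notMem_closure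
    rw [closure_singleton, mem_singleton_iff]
    exact hab.ne'

/-- If the derivative is `z` times a positive function then the difference of the values is `z`
times a positive number. -/
theorem diff_pos {u : ℝ → ℂ} {a b : ℝ} (hab : a < b) (hu : ContinuousOn u (Icc a b)) {z : ℂ}
    (hz : z ≠ 0) {r : ℝ → ℝ} (hr : ∀ x ∈ Ioo a b, 0 < r x)
    (hd : ∀ x ∈ Ioo a b, HasDerivAt u (z * r x) x) : ∃ α : ℝ, 0 < α ∧ u b - u a = z * α := by
  set v : ℝ → ℂ := fun x => z⁻¹ * u x with hv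
  have hvc : ContinuousOn v (Icc a b) := continuousOn_const.mul hu
  have hvd : ∀ x ∈ Ioo a b, HasDerivAt v (r x : ℂ) x := by
    intro x hx
    have := (hd x hx).const_mul z⁻¹
    rw [← mul_assoc, inv_mul_cancel₀ hz, one_mul] at this
    exact this
  have hre : ∀ x ∈ Ioo a b, HasDerivAt (fun x => (v x).re) (r x) x := by
    intro x hx
    have : HasDerivAt (fun x => (v x).re) (Complex.reCLM (r x : ℂ)) x :=
      Complex.reCLM.hasFDerivAt.comp_hasDerivAt x (hvd x hx)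
    simpa using this
  have him : ∀ x ∈ Ioo a b, HasDerivAt (fun x => (v x).im) 0 x := by
    intro x hx
    have : HasDerivAt (fun x => (v x).im) (Complex.imCLM (r x : ℂ)) x :=
      Complex.imCLM.hasFDerivAt.comp_hasDerivAt x (hvd x hx)
    simpa using this
  have h1 : StrictMonoOn (fun x => (v x).re) (Icc a b) := by
    refine strictMonoOn_of_deriv_pos (convex_Icc a b) (continuous_re.comp_continuousOn hvc) ?_
    rw [interior_Icc]
    intro x hx
    rw [(hre x hx).deriv]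
    exact hr x hx
  have h2 : (v b).im = (v a).im := by
    have h3 : ContinuousOn (fun x => (v x).im) (Icc a b) := continuous_im.comp_continuousOn hvc
    obtain ⟨c, hc, h4⟩ := exists_hasDerivAt_eq_slope (fun x => (v x).im) (fun _ => 0) hab h3 him
    have h5 : (v b).im - (v a).im = 0 := by
      have h6 : b - a ≠ 0 := by linarith
      field_simp at h4
      linarith
    linarith
  refine ⟨(v b).re - (v a).re, ?_, ?_⟩
  · have := h1 (left_mem_Icc.2 hab.le) (right_mem_Icc.2 hab.le) hab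
    simp only at this
    linarith
  · have h3 : v b - v a = (((v b).re - (v a).re : ℝ) : ℂ) := by
      apply Complex.ext
      · simp
      · simp [h2]
    rw [← h3, hv]
    simp only
    rw [← mul_sub, ← mul_assoc, mul_inv_cancel₀ hz, one_mul]

theorem Down_e0 (p : ℕ) (x : ℂ) : Down (w' e0 p) x = -((-1) ^ p * I) * Up (w e0 p) (-x) := by
  have h1 : rt (-e0) = rt e0 := by
    ext y
    unfold rt
    simp only [Fin.prod_univ_five, Pi.neg_apply]
    simp [e0]
    ring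
  have h2 : (fun y => w' e0 p (-y)) = fun y => ((-1) ^ p * I) * w e0 p y := by
    ext y
    rw [w'_neg]
    unfold w
    rw [h1]
  unfold Down
  rw [h2]
  unfold Up
  have h3 : ∀ t : ℝ, I * ((-1) ^ p * I * w e0 p (-x + t * I)) =
      ((-1) ^ p * I) * (I * w e0 p (-x + t * I)) := fun t => by ring
  simp only [h3, integral_const_mul]
  ring

/-- The symmetry relation. -/
theorem Cc_sym {p : ℕ} (hp : p ≤ 1) (k l : Fin 5) (hkl : (k:ℕ) + l = 4) :
    Cc e0 p k - Cc e0 p (k + 1) = sg k * ((-1) ^ p * I) * (Cc e0 p l + Cc e0 p (l + 1)) := by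
  have h1 := two_down near_e0 hp k
  have h2 := two_up near_e0 hp l
  rw [Down_e0] at h1
  have h3 : -e0 k = e0 l := by
    have : l = 4 - k := by
      apply Fin.ext
      omega
    subst this
    fin_cases k <;> simp [e0]
  rw [h3] at h1
  linear_combination h1 + sg k * ((-1) ^ p * I) * h2

theorem rt_e0_eq (x : ℝ) : rt e0 x = sq ((x + 2 : ℝ) : ℂ) * sq ((x + 1 : ℝ) : ℂ) * sq (x : ℂ) *
    sq ((x - 1 : ℝ) : ℂ) * sq ((x - 2 : ℝ) : ℂ) := by
  unfold rt
  simp [Fin.prod_univ_five, e0]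

theorem mem_Dn_real {x : ℝ} (h : x ∉ ({-2, -1, 0, 1, 2} : Set ℝ)) : (x : ℂ) ∈ Dn e0 := by
  simp only [mem_insert_iff, mem_singleton_iff, not_or] at h
  obtain ⟨h1, h2, h3, h4, h5⟩ := h
  intro k
  left
  rw [sub_re, ofReal_re, sub_ne_zero]
  fin_cases k <;> simp [e0] <;> assumption

/-- The values at the intervals `(-2, -1)` and `(-1, 0)`. -/
theorem int_one (p : ℕ) (hp : p ≤ 1) : ∃ α : ℝ, 0 < α ∧ Cc e0 p 2 = 2 * ((-1) ^ p * α) := by
  have hg := good_w near_e0.sep hp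
  have hI : ∀ x ∈ Ioo (-2:ℝ) (-1), (x : ℂ) ∈ Dn e0 := by
    intro x hx
    apply mem_Dn_real
    simp only [mem_insert_iff, mem_singleton_iff, not_or]
    refine ⟨?_, ?_, ?_, ?_, ?_⟩ <;> rintro rfl <;> norm_num at hx
  have hc := up_cont_real near_e0 hg (a := -2) (b := -1) (by norm_num) (k := 0) (l := 1)
    (by simp [e0]) (by simp [e0]) hI
  obtain ⟨α, hα, h⟩ := diff_pos (by norm_num) hc (z := (-1) ^ p) (by simp)
    (r := fun x => |x| ^ p * (Real.sqrt (x + 2) * Real.sqrt (-(x + 1)) * Real.sqrt (-x) *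
      Real.sqrt (-(x - 1)) * Real.sqrt (-(x - 2)))⁻¹) (by
      intro x hx
      have e1 : 0 < Real.sqrt (x + 2) := Real.sqrt_pos.2 (by linarith [hx.1])
      have e2 : 0 < Real.sqrt (-(x + 1)) := Real.sqrt_pos.2 (by linarith [hx.2])
      have e3 : 0 < Real.sqrt (-x) := Real.sqrt_pos.2 (by linarith [hx.2])
      have e4 : 0 < Real.sqrt (-(x - 1)) := Real.sqrt_pos.2 (by linarith [hx.2])
      have e5 : 0 < Real.sqrt (-(x - 2)) := Real.sqrt_pos.2 (by linarith [hx.2])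
      have e6 : 0 < |x| := abs_pos.2 (by linarith [hx.2])
      positivity) (by
      intro x hx
      have h1 := (hg.hasDerivAt near_e0.sep (hI x hx)).comp_ofReal
      convert h1 using 1
      unfold w
      rw [rt_e0_eq, sq_ofReal (by linarith [hx.1]), sq_ofReal_neg (by linarith [hx.2]),
        sq_ofReal_neg (by linarith [hx.2]), sq_ofReal_neg (by linarith [hx.2]),
        sq_ofReal_neg (by linarith [hx.2]), abs_of_neg (by linarith [hx.2])]
      push_cast
      have e7 : (Real.sqrt (x + 2) : ℂ) * (I * (Real.sqrt (-(x + 1)) : ℂ)) *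
          (I * (Real.sqrt (-x) : ℂ)) * (I * (Real.sqrt (-(x - 1)) : ℂ)) *
          (I * (Real.sqrt (-(x - 2)) : ℂ)) =
          (Real.sqrt (x + 2) : ℂ) * (Real.sqrt (-(x + 1)) : ℂ) *
          (Real.sqrt (-x) : ℂ) * (Real.sqrt (-(x - 1)) : ℂ) * (Real.sqrt (-(x - 2)) : ℂ) := by
        linear_combination ((Real.sqrt (x + 2) : ℂ) * (Real.sqrt (-(x + 1)) : ℂ) *
          (Real.sqrt (-x) : ℂ) * (Real.sqrt (-(x - 1)) : ℂ) * (Real.sqrt (-(x - 2)) : ℂ)) *
          I_pow_four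
      rw [e7, ← mul_assoc, ← mul_pow]
      ring)
  refine ⟨α, hα, ?_⟩
  have h1 := two_up near_e0 hp 0
  have h2 := two_up near_e0 hp 1
  have h3 : ((-2 : ℝ) : ℂ) = e0 0 := by simp [e0]
  have h4 : ((-1 : ℝ) : ℂ) = e0 1 := by simp [e0]
  rw [h3, h4] at h
  have h5 := Cc_zero near_e0 hp
  simp only [Fin.val_zero, Fin.val_one, zero_add, Nat.reduceAdd] at h1 h2
  linear_combination h1 - h2 + 2 * h + h5

theorem int_two (p : ℕ) (hp : p ≤ 1) : ∃ β : ℝ, 0 < β ∧
    Cc e0 p 1 - Cc e0 p 3 = -2 * I * ((-1) ^ p * β) := by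
  have hg := good_w near_e0.sep hp
  have hI : ∀ x ∈ Ioo (-1:ℝ) 0, (x : ℂ) ∈ Dn e0 := by
    intro x hx
    apply mem_Dn_real
    simp only [mem_insert_iff, mem_singleton_iff, not_or]
    refine ⟨?_, ?_, ?_, ?_, ?_⟩ <;> rintro rfl <;> norm_num at hx
  have hc := up_cont_real near_e0 hg (a := -1) (b := 0) (by norm_num) (k := 1) (l := 2)
    (by simp [e0]) (by simp [e0]) hI
  obtain ⟨β, hβ, h⟩ := diff_pos (by norm_num) hc (z := (-1) ^ p * I) (by simp)
    (r := fun x => |x| ^ p * (Real.sqrt (x + 2) * Real.sqrt (x + 1) * Real.sqrt (-x) *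
      Real.sqrt (-(x - 1)) * Real.sqrt (-(x - 2)))⁻¹) (by
      intro x hx
      have e1 : 0 < Real.sqrt (x + 2) := Real.sqrt_pos.2 (by linarith [hx.1])
      have e2 : 0 < Real.sqrt (x + 1) := Real.sqrt_pos.2 (by linarith [hx.1])
      have e3 : 0 < Real.sqrt (-x) := Real.sqrt_pos.2 (by linarith [hx.2])
      have e4 : 0 < Real.sqrt (-(x - 1)) := Real.sqrt_pos.2 (by linarith [hx.2])
      have e5 : 0 < Real.sqrt (-(x - 2)) := Real.sqrt_pos.2 (by linarith [hx.2])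
      have e6 : 0 < |x| := abs_pos.2 (by linarith [hx.2])
      positivity) (by
      intro x hx
      have h1 := (hg.hasDerivAt near_e0.sep (hI x hx)).comp_ofReal
      convert h1 using 1
      unfold w
      rw [rt_e0_eq, sq_ofReal (by linarith [hx.1]), sq_ofReal (by linarith [hx.1]),
        sq_ofReal_neg (by linarith [hx.2]), sq_ofReal_neg (by linarith [hx.2]),
        sq_ofReal_neg (by linarith [hx.2]), abs_of_neg (by linarith [hx.2])]
      push_cast
      have e7 : (Real.sqrt (x + 2) : ℂ) * (Real.sqrt (x + 1) : ℂ) *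
          (I * (Real.sqrt (-x) : ℂ)) * (I * (Real.sqrt (-(x - 1)) : ℂ)) *
          (I * (Real.sqrt (-(x - 2)) : ℂ)) =
          -I * ((Real.sqrt (x + 2) : ℂ) * (Real.sqrt (x + 1) : ℂ) *
          (Real.sqrt (-x) : ℂ) * (Real.sqrt (-(x - 1)) : ℂ) * (Real.sqrt (-(x - 2)) : ℂ)) := by
        linear_combination ((Real.sqrt (x + 2) : ℂ) * (Real.sqrt (x + 1) : ℂ) *
          (Real.sqrt (-x) : ℂ) * (Real.sqrt (-(x - 1)) : ℂ) * (Real.sqrt (-(x - 2)) : ℂ)) * I *
          I_sq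
      rw [e7, mul_inv (-I), inv_neg, inv_I, neg_neg]
      have e8 : (-1 : ℂ) ^ p * I * ((-(x:ℂ)) ^ p) = I * ((-1) * (-(x:ℂ))) ^ p := by
        rw [mul_pow]; ring
      rw [← mul_assoc, e8]
      ring)
  refine ⟨β, hβ, ?_⟩
  have h1 := two_up near_e0 hp 1
  have h2 := two_up near_e0 hp 2
  have h3 : ((0 : ℝ) : ℂ) = e0 2 := by simp [e0]
  have h4 : ((-1 : ℝ) : ℂ) = e0 1 := by simp [e0]
  rw [h3, h4] at h
  simp only [Fin.val_one, Fin.val_two, Nat.reduceAdd] at h1 h2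
  linear_combination h2 - h1 - 2 * h

/-- All periods at `e0`. -/
theorem Cc_e0 : ∃ a₀ a₁ b₀ b₁ : ℝ, 0 < a₀ ∧ 0 < a₁ ∧ 0 < b₀ ∧ 0 < b₁ ∧
    Cc e0 0 2 = 2 * a₀ ∧ Cc e0 1 2 = -2 * a₁ ∧
    Cc e0 0 3 = 2 * I * a₀ ∧ Cc e0 1 3 = 2 * I * a₁ ∧
    Cc e0 0 1 = 2 * I * (a₀ - b₀) ∧ Cc e0 1 1 = 2 * I * (a₁ + b₁) ∧
    Cc e0 0 4 = 2 * (a₀ - b₀) ∧ Cc e0 1 4 = -2 * (a₁ + b₁) := by
  obtain ⟨a₀, ha₀, h1⟩ := int_one 0 (by norm_num)
  obtain ⟨a₁, ha₁, h2⟩ := int_one 1 (by norm_num)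
  obtain ⟨b₀, hb₀, h3⟩ := int_two 0 (by norm_num)
  obtain ⟨b₁, hb₁, h4⟩ := int_two 1 (by norm_num)
  have s0 := Cc_sym (p := 0) (by norm_num) 2 2 (by norm_num)
  have s1 := Cc_sym (p := 1) (by norm_num) 2 2 (by norm_num)
  have t0 := Cc_sym (p := 0) (by norm_num) 0 4 (by norm_num)
  have t1 := Cc_sym (p := 1) (by norm_num) 0 4 (by norm_num)
  have c0 := Cc_zero near_e0 (p := 0) (by norm_num)
  have c0' := Cc_zero near_e0 (p := 1) (by norm_num)
  have c5 := Cc_five near_e0 (p := 0) (by norm_num)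
  have c5' := Cc_five near_e0 (p := 1) (by norm_num)
  simp only [Fin.val_zero, Fin.val_two, zero_add, Nat.reduceAdd, sg,
    show ((4 : Fin 5) : ℕ) = 4 from rfl] at s0 s1 t0 t1
  norm_num at s0 s1 t0 t1 h1 h2 h3 h4
  rw [c0, c5] at t0
  rw [c0', c5'] at t1
  have hI : I * I = -1 := I_mul_I
  have e03 : Cc e0 0 3 = 2 * I * a₀ := by
    linear_combination (-(1 + I) / 2) * s0 + I * h1 + (Cc e0 0 2 + Cc e0 0 3) / 2 * hI
  have e13 : Cc e0 1 3 = 2 * I * a₁ := by
    linear_combination (-(1 - I) / 2) * s1 - I * h2 + (Cc e0 1 2 + Cc e0 1 3) / 2 * hI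
  have e01 : Cc e0 0 1 = 2 * I * (a₀ - b₀) := by linear_combination h3 + e03
  have e11 : Cc e0 1 1 = 2 * I * (a₁ + b₁) := by linear_combination h4 + e13
  refine ⟨a₀, a₁, b₀, b₁, ha₀, ha₁, hb₀, hb₁, h1, ?_, e03, e13, e01, e11, ?_, ?_⟩
  · linear_combination h2
  · linear_combination (-I) * t0 - I * e01 + (Cc e0 0 4 - 2 * (a₀ - b₀)) * hI
  · linear_combination I * t1 + I * e11 + (Cc e0 1 4 + 2 * (a₁ + b₁)) * hI

theorem posDef_two {a b d : ℝ} (ha : 0 < a) (hd : 0 < a * d - b * b) :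
    (!![a, b; b, d] : Matrix (Fin 2) (Fin 2) ℝ).PosDef := by
  refine Matrix.PosDef.of_dotProduct_mulVec_pos ?_ ?_
  · ext i j
    fin_cases i <;> fin_cases j <;> simp [Matrix.conjTranspose]
  · intro x hx
    have h1 : star x ⬝ᵥ (!![a, b; b, d] : Matrix (Fin 2) (Fin 2) ℝ).mulVec x =
        a * x 0 ^ 2 + 2 * b * x 0 * x 1 + d * x 1 ^ 2 := by
      simp [dotProduct, Matrix.mulVec, Fin.sum_univ_two]
      ring
    rw [h1]
    have h2 : 0 < a * (a * x 0 ^ 2 + 2 * b * x 0 * x 1 + d * x 1 ^ 2) := by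
      have h3 : a * (a * x 0 ^ 2 + 2 * b * x 0 * x 1 + d * x 1 ^ 2) =
          (a * x 0 + b * x 1) ^ 2 + (a * d - b * b) * x 1 ^ 2 := by ring
      rw [h3]
      by_cases h4 : x 1 = 0
      · have h5 : x 0 ≠ 0 := by
          intro h5
          apply hx
          ext i
          fin_cases i
          · exact h5
          · exact h4
        rw [h4]
        simp only [mul_zero, add_zero, ne_eq, OfNat.ofNat_ne_zero, not_false_eq_true, zero_pow]
        positivity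
      · positivity
    exact (mul_pos_iff_of_pos_left ha).1 h2

/-- The data at `e0`. -/
theorem data_e0 : (Am e0).det ≠ 0 ∧ ∃ Y m : Matrix (Fin 2) (Fin 2) ℝ, Y.PosDef ∧
    IsUnit m.det ∧ Tm e0 = I • toC Y ∧ (2 : ℂ) • (Am e0)⁻¹ = -I • toC m := by
  obtain ⟨a₀, a₁, b₀, b₁, ha₀, ha₁, hb₀, hb₁, h02, h12, h03, h13, h01, h11, h04, h14⟩ := Cc_e0
  have hI : I * I = -1 := I_mul_I
  set δ : ℝ := b₀ * a₁ + a₀ * b₁ with hδ
  have hδ0 : 0 < δ := by positivity
  have hdet : (Am e0).det = 4 * δ := by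
    rw [det_Am, h03, h13, h01, h11, hδ]
    push_cast
    linear_combination (-4 * (b₀ * a₁ + a₀ * b₁ : ℂ)) * hI
  have hne : (Am e0).det ≠ 0 := by
    rw [hdet]
    have : (δ : ℂ) ≠ 0 := by exact_mod_cast hδ0.ne'
    simpa using this
  have hsym := Tm_symm near_e0
  have hT : Tm e0 = I • toC !![2 * a₀ * a₁ / δ, (a₁ * (a₀ - b₀) + a₀ * (a₁ + b₁)) / δ;
      (b₀ * a₁ - a₀ * b₁) / δ, (b₀ * (a₁ + b₁) - b₁ * (a₀ - b₀)) / δ] := by
    have hδc : (δ : ℂ) ≠ 0 := by exact_mod_cast hδ0.ne'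
    rw [Tm_eq, hdet, h02, h12, h03, h13, h01, h11, h04, h14]
    ext i j
    fin_cases i <;> fin_cases j <;> simp [toC] <;> field_simp <;> ring_nf
  have hY : (a₁ * (a₀ - b₀) + a₀ * (a₁ + b₁)) / δ = (b₀ * a₁ - a₀ * b₁) / δ := by
    have h1 := hsym.apply 0 1
    rw [hT] at h1
    simp [toC] at h1
    have h2 : (((a₁ * (a₀ - b₀) + a₀ * (a₁ + b₁)) / δ : ℝ) : ℂ) =
        (((b₀ * a₁ - a₀ * b₁) / δ : ℝ) : ℂ) := by
      push_cast
      first | exact h1 | exact h1.symm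
    exact_mod_cast h2
  refine ⟨hne, !![2 * a₀ * a₁ / δ, (b₀ * a₁ - a₀ * b₁) / δ;
      (b₀ * a₁ - a₀ * b₁) / δ, (b₀ * (a₁ + b₁) - b₁ * (a₀ - b₀)) / δ],
      !![-a₁ / δ, a₀ / δ; b₁ / δ, b₀ / δ], ?_, ?_, ?_, ?_⟩
  · apply posDef_two
    · positivity
    · have h1 : 2 * a₀ * a₁ / δ * ((b₀ * (a₁ + b₁) - b₁ * (a₀ - b₀)) / δ) -
          (b₀ * a₁ - a₀ * b₁) / δ * ((b₀ * a₁ - a₀ * b₁) / δ) = 1 := by
        have h2 : (a₁ * (a₀ - b₀) + a₀ * (a₁ + b₁)) = (b₀ * a₁ - a₀ * b₁) := by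
          field_simp at hY
          linarith
        field_simp
        have h3 : a₀ * a₁ = b₀ * a₁ - a₀ * b₁ := by linarith
        rw [hδ]
        linear_combination (2 * (b₀ * (a₁ + b₁) - b₁ * (a₀ - b₀)) - 4 * b₀ * b₁) * h3
      rw [h1]; norm_num
  · rw [Matrix.det_fin_two_of, isUnit_iff_ne_zero]
    have : -a₁ / δ * (b₀ / δ) - a₀ / δ * (b₁ / δ) = -(1 / δ) := by
      field_simp
      rw [hδ]; ring
    rw [this]
    simp [hδ0.ne']
  · rw [hT, hY]
  · have hδc : (δ : ℂ) ≠ 0 := by exact_mod_cast hδ0.ne'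
    rw [inv_Am, hdet, h03, h13, h01, h11]
    ext i j
    fin_cases i <;> fin_cases j <;> simp [toC] <;> field_simp <;> ring_nf

end Pool.Agent.H840.AS
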