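import Pool.Agent.H840.AS.Stm

set_option autoImplicit false

/-!
# The periods are strictly differentiable (`S_DER`)
-/

open Complex Filter Topology MeasureTheory Set Metric

namespace Pool.Agent.H840.AS.Der

open Pool.Agent.H840.AS

theorem re_low {e : Fin 5 → ℂ} (h : Near e) (j : ℕ) (t : ℝ) (k : Fin 5) :
    1 / 4 ≤ |(ln j + t * I - e k).re| := by
  have h1 := abs_lt.1 (h.re k)
  have h2 : (ln j + t * I - e k).re = (j : ℝ) - 5 / 2 - (e k).re := by
    unfold ln
    rw [sub_re, add_re, ofReal_re, re_ofReal_mul, I_re, mul_zero, add_zero]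
  rw [h2]
  rcases Nat.lt_or_ge (k : ℕ) j with h3 | h3
  · have h4 : ((k : ℕ) : ℝ) + 1 ≤ (j : ℝ) := by exact_mod_cast h3
    rw [le_abs]
    left
    linarith [h1.1, h1.2]
  · have h4 : (j : ℝ) ≤ ((k : ℕ) : ℝ) := by exact_mod_cast h3
    rw [le_abs]
    right
    linarith [h1.1, h1.2]

theorem low1 {e : Fin 5 → ℂ} (h : Near e) (j : ℕ) (t : ℝ) (k : Fin 5) :
    1 / 4 ≤ ‖ln j + t * I - e k‖ := (re_low h j t k).trans (abs_re_le_norm _)

theorem low2 {e : Fin 5 → ℂ} (h : Near e) (j : ℕ) (t : ℝ) (k : Fin 5) :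
    |t / 2| ≤ ‖ln j + t * I - e k‖ := by
  have h1 := low1 h j t k
  have h2 : (ln j + t * I - e k).im = t - (e k).im := by
    unfold ln
    rw [sub_im, add_im, ofReal_im, im_ofReal_mul, I_im, mul_one, zero_add]
  have h3 := abs_im_le_norm (ln j + t * I - e k)
  rw [h2] at h3
  have h4 : |(e k).im| < 1 / 4 := by
    have h5 : (e k - (((k:ℕ) - 2 : ℝ) : ℂ)).im = (e k).im := by
      rw [sub_im, ofReal_im, sub_zero]
    rw [← h5]
    exact (abs_im_le_norm _).trans_lt (h k)
  have h6 : |t| ≤ |t - (e k).im| + |(e k).im| := by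
    calc |t| = |(t - (e k).im) + (e k).im| := by congr 1; ring
      _ ≤ _ := abs_add_le _ _
  rw [abs_div, abs_of_pos (by norm_num : (0:ℝ) < 2)]
  rcases le_total |t| (1 / 2) with h7 | h7
  · linarith
  · linarith

theorem mem_Dn {e : Fin 5 → ℂ} (h : Near e) (j : ℕ) (t : ℝ) : ln j + t * I ∈ Dn e := by
  intro k
  left
  intro h1
  have := re_low h j t k
  rw [h1, abs_zero] at this
  norm_num at this

/-- the dominating function -/
noncomputable def bb (t : ℝ) : ℝ := 1280 * kap |t / 2|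

theorem bb_int : Integrable bb := by
  unfold bb
  refine Integrable.const_mul ?_ _
  exact integrable_kap_abs.comp_div (by norm_num : (2:ℝ) ≠ 0)

theorem norm_w_le {e : Fin 5 → ℂ} (h : Near e) {p : ℕ} (hp : p ≤ 1) (j : ℕ) {t : ℝ} (ht : t ≠ 0) :
    ‖w e p (ln j + t * I)‖ ≤ bb t := by
  set x := ln j + t * I with hx
  have h1 : ‖w e p x‖ ≤ (1 + ‖x‖) * ∏ k, (Real.sqrt ‖x - e k‖)⁻¹ := by
    unfold w
    rw [norm_mul, norm_inv, norm_rt, ← Finset.prod_inv_distrib, norm_pow]
    have h1 : ‖x‖ ^ p ≤ 1 + ‖x‖ := by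
      interval_cases p
      · simp
      · simp
    have h2 : 0 ≤ ∏ k, (Real.sqrt ‖x - e k‖)⁻¹ :=
      Finset.prod_nonneg fun k _ => by positivity
    exact mul_le_mul_of_nonneg_right h1 h2
  have h2 : Bnd e x ≤ 5 * kap |t / 2| := by
    unfold Bnd
    have h3 : ∀ k : Fin 5, kap ‖x - e k‖ ≤ kap |t / 2| := fun k =>
      kap_anti (abs_pos.2 (div_ne_zero ht (by norm_num))) (low2 h j t k)
    calc ∑ k : Fin 5, kap ‖x - e k‖ ≤ ∑ k : Fin 5, kap |t / 2| := Finset.sum_le_sum fun k _ => h3 k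
      _ = 5 * kap |t / 2| := by simp
  refine h1.trans ((near_bound h.sep x).trans ?_)
  unfold bb
  linarith

/-- the derivative of the integrand -/
noncomputable def GG (e : Fin 5 → ℂ) (p : ℕ) (x : ℂ) : (Fin 5 → ℂ) →L[ℂ] ℂ :=
  (I * w e p x) • ∑ k, (1 / (2 * (x - e k))) • (ContinuousLinearMap.proj k : (Fin 5 → ℂ) →L[ℂ] ℂ)

theorem sum_apply' (c : Fin 5 → ℂ) (n : Fin 5 → ℂ) :
    (∑ k, c k • (ContinuousLinearMap.proj k : (Fin 5 → ℂ) →L[ℂ] ℂ)) n = ∑ k, c k * n k := by
  simp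

theorem GG_apply (e n : Fin 5 → ℂ) (p : ℕ) (x : ℂ) : GG e p x n = I * hT e n 0 p x := by
  unfold GG hT w
  rw [smul_apply, sum_apply']
  simp only [smul_eq_mul, Pi.zero_apply, zero_mul, add_zero, sub_zero]
  have h1 : ∑ k, 1 / (2 * (x - e k)) * n k = ∑ k, n k / (2 * (x - e k)) :=
    Finset.sum_congr rfl fun k _ => by ring
  rw [h1]
  ring

theorem GG_norm {e : Fin 5 → ℂ} {x : ℂ} (hx : ∀ k, 1 / 4 ≤ ‖x - e k‖) (p : ℕ) :
    ‖GG e p x‖ ≤ ‖w e p x‖ * 10 := by
  unfold GG
  rw [norm_smul, norm_mul, norm_I, one_mul]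
  refine mul_le_mul_of_nonneg_left ?_ (norm_nonneg _)
  refine ContinuousLinearMap.opNorm_le_bound _ (by norm_num) fun n => ?_
  rw [sum_apply']
  refine (norm_sum_le _ _).trans ?_
  calc ∑ k, ‖1 / (2 * (x - e k)) * n k‖ ≤ ∑ k : Fin 5, 2 * ‖n‖ := by
        refine Finset.sum_le_sum fun k _ => ?_
        rw [norm_mul, norm_div, norm_one, norm_mul, Complex.norm_ofNat]
        have h1 := hx k
        have h2 : 1 / (2 * ‖x - e k‖) ≤ 2 := by
          rw [div_le_iff₀ (by linarith)]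
          linarith
        exact mul_le_mul h2 (norm_le_pi_norm n k) (norm_nonneg _) (by norm_num)
    _ = 10 * ‖n‖ := by simp; ring

theorem w_fderiv {e : Fin 5 → ℂ} {x : ℂ} (hx : x ∈ Dn e) (p : ℕ) :
    HasFDerivAt (fun e => I * w e p x) (GG e p x) e := by
  have h1 : ∀ k : Fin 5, HasFDerivAt (fun e : Fin 5 → ℂ => (H840.AS.sq (x - e k))⁻¹)
      ((1 / (2 * (x - e k)) * (H840.AS.sq (x - e k))⁻¹) •
        (ContinuousLinearMap.proj k : (Fin 5 → ℂ) →L[ℂ] ℂ)) e := by
    intro k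
    have h2 : HasDerivAt (fun z => H840.AS.sq (x - z)) (1 / (2 * H840.AS.sq (x - e k)) * (-1)) (e k) :=
      (hasDerivAt_sq (hx k)).comp (e k) ((hasDerivAt_id' _).const_sub x)
    have hne := sq_ne_zero (Dn_ne hx k)
    have h3 := h2.inv hne
    have h4 : HasFDerivAt (fun e : Fin 5 → ℂ => e k)
        (ContinuousLinearMap.proj k : (Fin 5 → ℂ) →L[ℂ] ℂ) e :=
      (ContinuousLinearMap.proj k : (Fin 5 → ℂ) →L[ℂ] ℂ).hasFDerivAt
    have h5 := h3.comp_hasFDerivAt e h4
    have h6 : 1 / (2 * (x - e k)) * (H840.AS.sq (x - e k))⁻¹ =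
        -(1 / (2 * H840.AS.sq (x - e k)) * (-1)) / H840.AS.sq (x - e k) ^ 2 := by
      have h7 : x - e k = H840.AS.sq (x - e k) ^ 2 := (sq_sq _).symm
      have h8 : 1 / (2 * (x - e k)) = 1 / (2 * H840.AS.sq (x - e k) ^ 2) := by rw [← h7]
      rw [h8]
      field_simp
    rw [h6]
    exact h5
  have h2 := HasFDerivAt.finsetProd (u := Finset.univ)
    (g := fun (k : Fin 5) (e : Fin 5 → ℂ) => (H840.AS.sq (x - e k))⁻¹)
    (g' := fun k => (1 / (2 * (x - e k)) * (H840.AS.sq (x - e k))⁻¹) •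
        (ContinuousLinearMap.proj k : (Fin 5 → ℂ) →L[ℂ] ℂ)) (x := e) fun k _ => h1 k
  have h3 := (h2.const_mul (x ^ p)).const_mul I
  have h4 : (fun e : Fin 5 → ℂ => I * w e p x) = fun e => I * (x ^ p * ∏ k, (H840.AS.sq (x - e k))⁻¹) := by
    funext e
    unfold w rt
    rw [Finset.prod_inv_distrib]
  rw [h4]
  refine h3.congr_fderiv ?_
  unfold GG w rt
  rw [smul_smul, Finset.smul_sum, Finset.smul_sum]
  refine Finset.sum_congr rfl fun k _ => ?_
  rw [smul_smul, smul_smul, smul_smul]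
  congr 1
  rw [← Finset.prod_inv_distrib, ← Finset.mul_prod_erase Finset.univ _ (Finset.mem_univ k)]
  ring

theorem cont_w (e : Fin 5 → ℂ) (h : Near e) (p j : ℕ) :
    Continuous fun t : ℝ => I * w e p (ln j + t * I) := by
  refine continuous_const.mul ?_
  unfold w
  refine Continuous.mul (by fun_prop) ?_
  refine Continuous.inv₀ ?_ fun t => rt_ne (Dn_ne (mem_Dn h j t))
  refine (differentiableOn_rt e).continuousOn.comp_continuous (by fun_prop) fun t => mem_Dn h j t

theorem cont_GG (e : Fin 5 → ℂ) (h : Near e) (p j : ℕ) :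
    Continuous fun t : ℝ => GG e p (ln j + t * I) := by
  unfold GG
  refine (cont_w e h p j).smul ?_
  refine continuous_finsetSum _ fun k _ => ?_
  have h1 : Continuous fun t : ℝ => (1 : ℂ) / (2 * (ln j + t * I - e k)) := by
    refine continuous_const.div (by fun_prop) fun t => ?_
    exact mul_ne_zero two_ne_zero (Dn_ne (mem_Dn h j t) k)
  exact h1.smul continuous_const

theorem contAt_GG {e : Fin 5 → ℂ} {x : ℂ} (hx : x ∈ Dn e) (p : ℕ) :
    ContinuousAt (fun e => GG e p x) e := by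
  unfold GG
  refine (w_fderiv hx p).continuousAt.smul ?_
  refine tendsto_finsetSum _ fun k _ => ?_
  refine Tendsto.smul ?_ tendsto_const_nhds
  have h1 : ContinuousAt (fun e : Fin 5 → ℂ => 1 / (2 * (x - e k))) e := by
    refine continuousAt_const.div
      (continuous_const.mul (continuous_const.sub (continuous_apply k))).continuousAt ?_
    exact mul_ne_zero two_ne_zero (Dn_ne hx k)
  exact h1

theorem der_at {e : Fin 5 → ℂ} (h : Near e) {p : ℕ} (hp : p ≤ 1) (j : ℕ) :
    HasFDerivAt (fun e => ∫ t : ℝ, I * w e p (ln j + t * I))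
      (∫ t : ℝ, GG e p (ln j + t * I)) e := by
  have hne : ∀ᵐ t : ℝ, t ≠ 0 := by
    have : {t : ℝ | ¬ (t ≠ 0)} = {0} := by
      ext t; simp
    rw [ae_iff, this]
    exact measure_singleton _
  have hU : {e : Fin 5 → ℂ | Near e} ∈ 𝓝 e := isOpen_Near.mem_nhds h
  refine hasFDerivAt_integral_of_dominated_of_fderiv_le (𝕜 := ℂ) (s := {e : Fin 5 → ℂ | Near e})
    (F := fun e (t : ℝ) => I * w e p (ln j + t * I)) (F' := fun e (t : ℝ) => GG e p (ln j + t * I))
    (bound := fun t => bb t * 10) hU ?_ ?_ ?_ ?_ ?_ ?_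
  · filter_upwards [hU] with e' he'
    exact (cont_w e' he' p j).aestronglyMeasurable
  · refine bb_int.mono' (cont_w e h p j).aestronglyMeasurable ?_
    filter_upwards [hne] with t ht
    rw [norm_mul, norm_I, one_mul]
    exact norm_w_le h hp j ht
  · exact (cont_GG e h p j).aestronglyMeasurable
  · filter_upwards [hne] with t ht e' he'
    refine (GG_norm (low1 he' j t) p).trans ?_
    exact mul_le_mul_of_nonneg_right (norm_w_le he' hp j ht) (by norm_num)
  · exact bb_int.mul_const _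
  · refine Eventually.of_forall fun t e' he' => ?_
    exact w_fderiv (mem_Dn he' j t) p

theorem cont_int {e : Fin 5 → ℂ} (h : Near e) {p : ℕ} (hp : p ≤ 1) (j : ℕ) :
    ContinuousAt (fun e => ∫ t : ℝ, GG e p (ln j + t * I)) e := by
  have hne : ∀ᵐ t : ℝ, t ≠ 0 := by
    have : {t : ℝ | ¬ (t ≠ 0)} = {0} := by
      ext t; simp
    rw [ae_iff, this]
    exact measure_singleton _
  have hU : {e : Fin 5 → ℂ | Near e} ∈ 𝓝 e := isOpen_Near.mem_nhds h
  refine continuousAt_of_dominated (bound := fun t => bb t * 10) ?_ ?_ (bb_int.mul_const _) ?_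
  · filter_upwards [hU] with e' he'
    exact (cont_GG e' he' p j).aestronglyMeasurable
  · filter_upwards [hU] with e' he'
    filter_upwards [hne] with t ht
    refine (GG_norm (low1 he' j t) p).trans ?_
    exact mul_le_mul_of_nonneg_right (norm_w_le he' hp j ht) (by norm_num)
  · exact Eventually.of_forall fun t => contAt_GG (mem_Dn h j t) p

theorem GG_int {e : Fin 5 → ℂ} (h : Near e) {p : ℕ} (hp : p ≤ 1) (j : ℕ) :
    Integrable fun t : ℝ => GG e p (ln j + t * I) := by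
  have hne : ∀ᵐ t : ℝ, t ≠ 0 := by
    have : {t : ℝ | ¬ (t ≠ 0)} = {0} := by
      ext t; simp
    rw [ae_iff, this]
    exact measure_singleton _
  refine (bb_int.mul_const 10).mono' (cont_GG e h p j).aestronglyMeasurable ?_
  filter_upwards [hne] with t ht
  refine (GG_norm (low1 h j t) p).trans ?_
  exact mul_le_mul_of_nonneg_right (norm_w_le h hp j ht) (by norm_num)

/-- **DER** -/
theorem der : Pool.Agent.H840.AS.S_DER := by
  intro e h p j hp _
  refine ⟨-∫ t : ℝ, GG e p (ln j + t * I), ?_, ?_⟩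
  · have h1 : HasStrictFDerivAt (fun e => ∫ t : ℝ, I * w e p (ln j + t * I))
        (∫ t : ℝ, GG e p (ln j + t * I)) e := by
      refine hasStrictFDerivAt_of_hasFDerivAt_of_continuousAt
        (f' := fun e => ∫ t : ℝ, GG e p (ln j + t * I)) ?_ (cont_int h hp j)
      filter_upwards [isOpen_Near.mem_nhds h] with e' he'
      exact der_at he' hp j
    exact h1.neg
  · intro n
    rw [neg_apply, ContinuousLinearMap.integral_apply (GG_int h hp j)]
    unfold Ln
    simp only [GG_apply]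

end Pool.Agent.H840.AS.Der
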