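import Pool.Agent.H840.AS.StmPol

set_option autoImplicit false

/-!
# Polarised lattices contain principally polarised ones: proof of `S_POL`
-/

open Complex

open scoped Matrix ComplexOrder

namespace Pool.Agent.H840.AS.Pol

open Pool.Agent.H840.AS

variable (H : Matrix (Fin 2) (Fin 2) ℂ)

/-- the alternating form -/
noncomputable def E : (Fin 2 → ℂ) →ₗ[ℝ] (Fin 2 → ℂ) →ₗ[ℝ] ℝ :=
  LinearMap.mk₂ ℝ (fun u v => (star u ⬝ᵥ H.mulVec v).im)
    (by
      intro u u' v
      rw [star_add, add_dotProduct, Complex.add_im])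
    (by
      intro c u v
      have h : star (c • u) = (c : ℂ) • star u := by
        ext i
        simp
      rw [h, smul_dotProduct, smul_eq_mul, Complex.im_ofReal_mul, smul_eq_mul])
    (by
      intro u v v'
      rw [Matrix.mulVec_add, dotProduct_add, Complex.add_im])
    (by
      intro c u v
      have h : c • v = (c : ℂ) • v := by
        ext i
        simp
      rw [h, Matrix.mulVec_smul, dotProduct_smul, smul_eq_mul, Complex.im_ofReal_mul,
        smul_eq_mul])

theorem E_apply (u v : Fin 2 → ℂ) : E H u v = (star u ⬝ᵥ H.mulVec v).im := rfl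

variable {H}

theorem herm (hH : H.PosDef) (u v : Fin 2 → ℂ) :
    star u ⬝ᵥ H.mulVec v = star (star v ⬝ᵥ H.mulVec u) := by
  rw [← Matrix.star_dotProduct (H.mulVec u) v, Matrix.star_mulVec, hH.isHermitian.eq,
    Matrix.dotProduct_mulVec]

theorem E_swap (hH : H.PosDef) (u v : Fin 2 → ℂ) : E H v u = - E H u v := by
  rw [E_apply, E_apply, herm hH u v, Complex.star_def, Complex.conj_im, neg_neg]

theorem E_self (hH : H.PosDef) (u : Fin 2 → ℂ) : E H u u = 0 := by
  have := E_swap hH u u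
  linarith

theorem pos (hH : H.PosDef) {u : Fin 2 → ℂ} (hu : u ≠ 0) : 0 < (star u ⬝ᵥ H.mulVec u).re :=
  (Complex.pos_iff.1 ((Matrix.posDef_iff_dotProduct_mulVec.1 hH).2 hu)).1

theorem E_I (hH : H.PosDef) {u : Fin 2 → ℂ} (hu : u ≠ 0) : 0 < E H u (I • u) := by
  rw [E_apply, Matrix.mulVec_smul, dotProduct_smul, smul_eq_mul, Complex.I_mul_im]
  exact pos hH hu

theorem nd (hH : H.PosDef) {Λ : AddSubgroup (Fin 2 → ℂ)}
    (hs : Submodule.span ℝ (Λ : Set (Fin 2 → ℂ)) = ⊤) {u : Fin 2 → ℂ} (hu : u ≠ 0) :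
    ∃ v ∈ Λ, E H u v ≠ 0 := by
  by_contra hcon
  push Not at hcon
  have h1 : Submodule.span ℝ (Λ : Set (Fin 2 → ℂ)) ≤ LinearMap.ker (E H u) := by
    rw [Submodule.span_le]
    intro v hv
    exact hcon v hv
  have h2 : I • u ∈ LinearMap.ker (E H u) := h1 (by rw [hs]; trivial)
  have h3 := E_I hH hu
  rw [LinearMap.mem_ker] at h2
  rw [h2] at h3
  exact lt_irrefl _ h3

theorem finrank4 : Module.finrank ℝ (Fin 2 → ℂ) = 4 := by
  rw [Module.finrank_pi_fintype]
  simp [Complex.finrank_real_complex]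

/-- the symplectic basis -/
theorem exists_basis (hH : H.PosDef) {Λ : AddSubgroup (Fin 2 → ℂ)}
    (hs : Submodule.span ℝ (Λ : Set (Fin 2 → ℂ)) = ⊤)
    (hi : ∀ u ∈ Λ, ∀ v ∈ Λ, ∃ k : ℤ, (star u ⬝ᵥ H.mulVec v).im = k) :
    ∃ (l m : Fin 2 → (Fin 2 → ℂ)) (d : ℝ), 0 < d ∧ (∀ i, l i ∈ Λ) ∧ (∀ i, m i ∈ Λ) ∧
      (∀ i j, E H (l i) (l j) = 0) ∧ (∀ i j, E H (m i) (m j) = 0) ∧
      ∀ i j, E H (l i) (m j) = if i = j then d else 0 := by
  have hiE : ∀ u ∈ Λ, ∀ v ∈ Λ, ∀ w ∈ Λ, E H u v • w ∈ Λ := by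
    intro u hu v hv w hw
    obtain ⟨k, hk⟩ := hi u hu v hv
    rw [E_apply, hk, Int.cast_smul_eq_zsmul]
    exact Λ.zsmul_mem hw k
  -- the first pair
  have h1 : ∃ l ∈ Λ, l ≠ 0 := by
    by_contra hcon
    push Not at hcon
    have h : Submodule.span ℝ (Λ : Set (Fin 2 → ℂ)) ≤ ⊥ := by
      rw [Submodule.span_le]
      intro v hv
      rw [hcon v hv]
      exact Submodule.zero_mem _
    rw [hs, top_le_iff] at h
    have h2 : (1 : Fin 2 → ℂ) ∈ (⊥ : Submodule ℝ (Fin 2 → ℂ)) := by rw [h]; trivial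
    rw [Submodule.mem_bot] at h2
    exact one_ne_zero h2
  obtain ⟨l1, hl1, hl10⟩ := h1
  obtain ⟨m1, hm1, hd1⟩ := nd hH hs hl10
  set d1 := E H l1 m1 with hd1def
  have sw := E_swap hH
  have se := E_self hH
  -- the projection
  let p : (Fin 2 → ℂ) →ₗ[ℝ] (Fin 2 → ℂ) :=
    d1 • LinearMap.id - ((E H).flip m1).smulRight l1 + ((E H).flip l1).smulRight m1
  have hp : ∀ v, p v = d1 • v - E H v m1 • l1 + E H v l1 • m1 := fun v => rfl
  have hpΛ : ∀ v ∈ Λ, p v ∈ Λ := by
    intro v hv
    rw [hp]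
    exact Λ.add_mem (Λ.sub_mem (hiE _ hl1 _ hm1 _ hv) (hiE _ hv _ hm1 _ hl1))
      (hiE _ hv _ hl1 _ hm1)
  have hpm : ∀ v, E H (p v) m1 = 0 := by
    intro v
    rw [hp]
    simp only [map_add, map_sub, map_smul, LinearMap.add_apply, LinearMap.sub_apply,
      LinearMap.smul_apply, smul_eq_mul, se, ← hd1def]
    ring
  have hpl : ∀ v, E H (p v) l1 = 0 := by
    intro v
    rw [hp]
    simp only [map_add, map_sub, map_smul, LinearMap.add_apply, LinearMap.sub_apply,
      LinearMap.smul_apply, smul_eq_mul, se, sw l1 m1, ← hd1def]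
    ring
  have h2 : ∃ v ∈ Λ, p v ≠ 0 := by
    by_contra hcon
    push Not at hcon
    have h : Submodule.span ℝ (Λ : Set (Fin 2 → ℂ)) ≤ LinearMap.ker p := by
      rw [Submodule.span_le]
      intro v hv
      exact hcon v hv
    rw [hs] at h
    have h3 : (⊤ : Submodule ℝ (Fin 2 → ℂ)) ≤ Submodule.span ℝ ({l1, m1} : Finset (Fin 2 → ℂ)) := by
      intro v _
      have h4 : p v = 0 := h (show v ∈ ⊤ from trivial)
      rw [hp] at h4
      have h5 : v = (d1⁻¹ * E H v m1) • l1 + (-(d1⁻¹ * E H v l1)) • m1 := by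
        have h6 : d1 • v = E H v m1 • l1 - E H v l1 • m1 := by
          rw [sub_add_eq_add_sub, sub_eq_zero] at h4
          exact eq_sub_of_add_eq h4
        have h7 : v = d1⁻¹ • (d1 • v) := by rw [smul_smul, inv_mul_cancel₀ hd1, one_smul]
        have h8 : d1⁻¹ • (d1 • v) = d1⁻¹ • (E H v m1 • l1 - E H v l1 • m1) := by rw [h6]
        refine h7.trans (h8.trans ?_)
        rw [smul_sub, smul_smul, smul_smul, neg_smul, sub_eq_add_neg]
      rw [h5]
      refine Submodule.add_mem _ (Submodule.smul_mem _ _ (Submodule.subset_span (by simp)))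
        (Submodule.smul_mem _ _ (Submodule.subset_span (by simp)))
    have h4 := finrank_span_finset_le_card (R := ℝ) ({l1, m1} : Finset (Fin 2 → ℂ))
    have h5 : Submodule.span ℝ ((({l1, m1} : Finset (Fin 2 → ℂ))) : Set (Fin 2 → ℂ)) = ⊤ :=
      top_le_iff.1 h3
    have h6 : Module.finrank ℝ (⊤ : Submodule ℝ (Fin 2 → ℂ)) ≤ 2 := by
      rw [← h5]
      exact h4.trans Finset.card_le_two
    rw [finrank_top, finrank4] at h6
    omega
  obtain ⟨v0, hv0, hpv0⟩ := h2
  set l2 := p v0 with hl2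
  have hl2Λ : l2 ∈ Λ := hpΛ v0 hv0
  obtain ⟨w, hw, hEw⟩ := nd hH hs hpv0
  set m2 := p w with hm2
  have hm2Λ : m2 ∈ Λ := hpΛ w hw
  set d2 := E H l2 m2 with hd2def
  have e1 : E H l2 m1 = 0 := hpm v0
  have e2 : E H l2 l1 = 0 := hpl v0
  have e3 : E H m2 m1 = 0 := hpm w
  have e4 : E H m2 l1 = 0 := hpl w
  have hd2 : d2 ≠ 0 := by
    rw [hd2def, hm2, hp, map_add, map_sub, map_smul, map_smul, map_smul, e1, e2]
    simp only [smul_eq_mul, mul_zero, sub_zero, add_zero]
    exact mul_ne_zero hd1 hEw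
  -- the sign
  obtain ⟨s, hs1, hs2⟩ : ∃ s : ℤ, (0 : ℝ) < s * (d1 * d2) ∧ True := by
    rcases lt_or_gt_of_ne (mul_ne_zero hd1 hd2) with h | h
    · exact ⟨-1, by push_cast; linarith, trivial⟩
    · exact ⟨1, by push_cast; linarith, trivial⟩
  refine ⟨![d2 • l1, d1 • l2], ![(s : ℝ) • m1, (s : ℝ) • m2], s * (d1 * d2), hs1, ?_, ?_, ?_, ?_, ?_⟩
  · intro i
    fin_cases i
    · exact hiE _ hl2Λ _ hm2Λ _ hl1
    · exact hiE _ hl1 _ hm1 _ hl2Λ
  · intro i
    fin_cases i
    · change (s : ℝ) • m1 ∈ Λ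
      rw [Int.cast_smul_eq_zsmul]
      exact Λ.zsmul_mem hm1 s
    · change (s : ℝ) • m2 ∈ Λ
      rw [Int.cast_smul_eq_zsmul]
      exact Λ.zsmul_mem hm2Λ s
  · have e5 : E H l1 l2 = 0 := by rw [sw l2 l1, e2, neg_zero]
    intro i j
    fin_cases i <;> fin_cases j <;>
      simp [map_smul, se, e2, e5]
  · have e5 : E H m1 m2 = 0 := by rw [sw m2 m1, e3, neg_zero]
    intro i j
    fin_cases i <;> fin_cases j <;>
      simp [map_smul, se, e3, e5]
  · have e5 : E H l1 m2 = 0 := by rw [sw m2 l1, e4, neg_zero]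
    intro i j
    fin_cases i <;> fin_cases j
    · simp only [Fin.zero_eta, Matrix.cons_val_zero, map_smul, LinearMap.smul_apply, smul_eq_mul,
        if_true, ← hd1def]
      ring
    · simp [map_smul, e5]
    · simp [map_smul, e1]
    · simp only [Fin.mk_one, Matrix.cons_val_one, map_smul, LinearMap.smul_apply, smul_eq_mul,
        if_true, ← hd2def, Matrix.cons_val_fin_one]

/-- imaginary part of `τᴴ G τ`, `G` real -/
theorem im_sandwich (G : Matrix (Fin 2) (Fin 2) ℝ) (τ : Matrix (Fin 2) (Fin 2) ℂ) :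
    (τᴴ * G.map ofReal * τ).map Complex.im =
      (τ.map Complex.re)ᵀ * G * τ.map Complex.im - (τ.map Complex.im)ᵀ * G * τ.map Complex.re := by
  ext i j
  simp only [Matrix.map_apply, Matrix.mul_apply, Fin.sum_univ_two, Matrix.conjTranspose_apply,
    Matrix.sub_apply, Matrix.transpose_apply, Complex.add_im, Complex.mul_im, Complex.add_re,
    Complex.mul_re, Complex.star_def, Complex.conj_re, Complex.conj_im, Complex.ofReal_re,
    Complex.ofReal_im]
  ring

theorem im_real_mul (G : Matrix (Fin 2) (Fin 2) ℝ) (τ : Matrix (Fin 2) (Fin 2) ℂ) :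
    (G.map ofReal * τ).map Complex.im = G * τ.map Complex.im := by
  ext i j
  simp only [Matrix.map_apply, Matrix.mul_apply, Fin.sum_univ_two, Complex.add_im, Complex.mul_im,
    Complex.ofReal_re, Complex.ofReal_im]
  ring

theorem h_POL : S_POL := by
  intro Λ H hH hs hi
  obtain ⟨l, m, d, hd, hl, hm, hll, hmm, hlm⟩ := exists_basis hH hs hi
  set g : Matrix (Fin 2) (Fin 2) ℂ := Matrix.of fun i j => l j i with hg
  set mm : Matrix (Fin 2) (Fin 2) ℂ := Matrix.of fun i j => m j i with hmm'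
  have hent : ∀ (a b : Fin 2 → (Fin 2 → ℂ)) (i j : Fin 2),
      ((Matrix.of fun i j => a j i : Matrix (Fin 2) (Fin 2) ℂ)ᴴ * H *
        (Matrix.of fun i j => b j i : Matrix (Fin 2) (Fin 2) ℂ)) i j =
        star (a i) ⬝ᵥ H.mulVec (b j) := by
    intro a b i j
    rw [Matrix.mul_assoc, Matrix.mul_apply]
    rfl
  let G : Matrix (Fin 2) (Fin 2) ℝ := Matrix.of fun i j => (star (l i) ⬝ᵥ H.mulVec (l j)).re
  have hG : gᴴ * H * g = G.map ofReal := by
    ext i j
    rw [hg, hent]
    apply Complex.ext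
    · rfl
    · exact hll i j
  have hGp : G.PosDef := by
    rw [Matrix.posDef_iff_dotProduct_mulVec]
    constructor
    · ext i j
      change star ((star (l j) ⬝ᵥ H.mulVec (l i)).re) = (star (l i) ⬝ᵥ H.mulVec (l j)).re
      rw [herm hH (l i) (l j), Complex.star_def, Complex.conj_re, star_trivial]
    · intro r hr
      have h1 : g.mulVec (fun i => (r i : ℂ)) ≠ 0 := by
        intro h0
        apply hr
        have h2 : r 0 • l 0 + r 1 • l 1 = 0 := by
          ext i
          have h3 := congrFun h0 i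
          rw [Matrix.mulVec, dotProduct, Fin.sum_univ_two] at h3
          simp only [Pi.add_apply, Pi.smul_apply, Complex.real_smul]
          rw [mul_comm, mul_comm (r 1 : ℂ)]
          exact h3
        have h3 : ∀ j, r j = 0 := by
          intro j
          have h4 := congrArg (fun v => E H v (m j)) h2
          simp only [map_add, map_smul, LinearMap.add_apply, LinearMap.smul_apply, smul_eq_mul,
            hlm, map_zero, LinearMap.zero_apply] at h4
          fin_cases j
          · simp at h4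
            exact h4.resolve_right hd.ne'
          · simp at h4
            exact h4.resolve_right hd.ne'
        funext j
        exact h3 j
      have h2 := pos hH h1
      have h3 : (star (g.mulVec (fun i => (r i : ℂ))) ⬝ᵥ H.mulVec (g.mulVec (fun i => (r i : ℂ)))) =
          ((star r ⬝ᵥ G.mulVec r : ℝ) : ℂ) := by
        rw [Matrix.star_mulVec, Matrix.mulVec_mulVec, ← Matrix.dotProduct_mulVec,
          Matrix.mulVec_mulVec, ← Matrix.mul_assoc, hG]
        simp only [dotProduct, Matrix.mulVec, Fin.sum_univ_two, Matrix.map_apply, Pi.star_apply,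
          star_trivial, Complex.star_def, Complex.conj_ofReal]
        push_cast
        ring
      rw [h3, Complex.ofReal_re] at h2
      exact h2
  have hdet : g.det ≠ 0 := by
    intro h0
    have h1 := congrArg Matrix.det hG
    rw [Matrix.det_mul, h0, mul_zero] at h1
    have h2 : (G.map ofReal).det = ((G.det : ℝ) : ℂ) := (RingHom.map_det Complex.ofRealHom G).symm
    rw [h2] at h1
    have h3 := hGp.det_pos
    have h4 : G.det = 0 := by exact_mod_cast h1.symm
    rw [h4] at h3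
    exact lt_irrefl _ h3
  have hunit : IsUnit g.det := isUnit_iff_ne_zero.2 hdet
  set τ := g⁻¹ * mm with hτ
  have hgτ : g * τ = mm := by rw [hτ, Matrix.mul_nonsing_inv_cancel_left _ _ hunit]
  set X := τ.map Complex.re with hX
  set Y := τ.map Complex.im with hY
  have h1 : G * Y = d • (1 : Matrix (Fin 2) (Fin 2) ℝ) := by
    rw [hY, ← im_real_mul, ← hG, Matrix.mul_assoc, hgτ]
    ext i j
    rw [Matrix.map_apply, hg, hmm', hent]
    have := hlm i j
    rw [E_apply] at this
    rw [this, Matrix.smul_apply, Matrix.one_apply, smul_eq_mul]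
    split_ifs <;> simp
  have hGs : Gᵀ = G := by
    have := hGp.isHermitian.eq
    rwa [Matrix.conjTranspose_eq_transpose_of_trivial] at this
  have h2 : Yᵀ * G = d • (1 : Matrix (Fin 2) (Fin 2) ℝ) := by
    have := congrArg Matrix.transpose h1
    rwa [Matrix.transpose_mul, hGs, Matrix.transpose_smul, Matrix.transpose_one] at this
  have h3 : (τᴴ * G.map ofReal * τ).map Complex.im = 0 := by
    have hc : mmᴴ = τᴴ * gᴴ := by rw [← Matrix.conjTranspose_mul, hgτ]
    have h4 : τᴴ * (gᴴ * H * g) * τ = mmᴴ * H * mm := by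
      calc τᴴ * (gᴴ * H * g) * τ = (τᴴ * gᴴ) * H * (g * τ) := by simp only [Matrix.mul_assoc]
        _ = mmᴴ * H * mm := by rw [hgτ, hc]
    rw [← hG, h4]
    ext i j
    rw [Matrix.map_apply, hmm', hent]
    exact hmm i j
  rw [im_sandwich, ← hX, ← hY, Matrix.mul_assoc, h1, h2] at h3
  have hXs : Xᵀ = X := by
    have h4 : d • Xᵀ = d • X := by
      have h5 := sub_eq_zero.1 h3
      simpa using h5
    exact smul_right_injective _ hd.ne' h4
  have hGu : IsUnit G.det := hGp.det_pos.ne'.isUnit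
  have hYe : Y = d • G⁻¹ := by
    have := congrArg (fun A => G⁻¹ * A) h1
    simp only [Matrix.nonsing_inv_mul_cancel_left _ _ hGu] at this
    rw [this]
    simp
  have hYp : Y.PosDef := by
    rw [hYe]
    exact hGp.inv.smul hd
  have hYs : Yᵀ = Y := by
    have := hYp.isHermitian.eq
    rwa [Matrix.conjTranspose_eq_transpose_of_trivial] at this
  refine ⟨τ, g, ?_, hYp, hdet, ?_⟩
  · ext i j
    apply Complex.ext
    · exact congrFun (congrFun hXs i) j
    · exact congrFun (congrFun hYs i) j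
  · rintro v ⟨a, b, hab⟩
    have hv : g.mulVec v = g.mulVec (fun i => (a i : ℂ)) + mm.mulVec (fun i => (b i : ℂ)) := by
      have h4 : v = (fun i => (a i : ℂ)) + τ.mulVec (fun i => (b i : ℂ)) := by
        funext i
        exact hab i
      rw [h4, Matrix.mulVec_add, Matrix.mulVec_mulVec, hgτ]
    have h5 : g.mulVec (fun i => (a i : ℂ)) = a 0 • l 0 + a 1 • l 1 := by
      ext i
      rw [Matrix.mulVec, dotProduct, Fin.sum_univ_two]
      simp only [Pi.add_apply, zsmul_eq_mul]
      rw [mul_comm, mul_comm (g i 1)]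
      rfl
    have h6 : mm.mulVec (fun i => (b i : ℂ)) = b 0 • m 0 + b 1 • m 1 := by
      ext i
      rw [Matrix.mulVec, dotProduct, Fin.sum_univ_two]
      simp only [Pi.add_apply, zsmul_eq_mul]
      rw [mul_comm, mul_comm (mm i 1)]
      rfl
    rw [hv, h5, h6]
    exact Λ.add_mem (Λ.add_mem (Λ.zsmul_mem (hl 0) _) (Λ.zsmul_mem (hl 1) _))
      (Λ.add_mem (Λ.zsmul_mem (hm 0) _) (Λ.zsmul_mem (hm 1) _))

end Pool.Agent.H840.AS.Pol
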