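import Pool.Agent.H840.AS.Stm
set_option autoImplicit false

/-!
# SGN: values of the integrals at `e0 = (-2, -1, 0, 1, 2)`
-/

open Complex Filter Topology MeasureTheory Set Metric

open scoped ComplexConjugate

namespace Pool.Agent.H840.AS.Sgn

open Pool.Agent.H840.AS

/-- the real factor -/
noncomputable def LL (n : Fin 5 → ℤ) (c : ℂ) (x : ℂ) : ℝ :=
  2 * Real.log ‖c * ∏ k, (x - e0 k) ^ n k‖ / ‖∏ k, (x - e0 k)‖

theorem e0_eq (i : Fin 5) : e0 i = ((i : ℕ) : ℂ) - 2 := by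
  fin_cases i <;> simp [e0] <;> norm_num

theorem e0_inj : Function.Injective e0 := by
  intro i j h
  rw [e0_eq, e0_eq, sub_left_inj] at h
  exact Fin.ext (Nat.cast_injective h)

theorem prod_neg (x : ℂ) : ∏ k, (-x - e0 k) = -∏ k, (x - e0 k) := by
  rw [Fin.prod_univ_five, Fin.prod_univ_five]
  simp only [e0_eq]
  simp only [Fin.isValue, Fin.val_zero, Fin.val_one, Fin.val_two]
  have h3 : (((3 : Fin 5) : ℕ) : ℂ) = 3 := by norm_num
  have h4 : (((4 : Fin 5) : ℕ) : ℂ) = 4 := by norm_num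
  rw [h3, h4]
  push_cast
  ring

theorem prod_conj (x : ℂ) : ∏ k, (conj x - e0 k) = conj (∏ k, (x - e0 k)) := by
  rw [map_prod]
  refine Finset.prod_congr rfl fun k _ => ?_
  rw [map_sub, e0_eq, map_sub, Complex.conj_natCast]
  congr 2
  exact (Complex.conj_ofNat 2).symm

theorem norm_prod_neg (x : ℂ) : ‖∏ k, (-x - e0 k)‖ = ‖∏ k, (x - e0 k)‖ := by
  rw [prod_neg, norm_neg]

theorem norm_prod_conj (x : ℂ) : ‖∏ k, (conj x - e0 k)‖ = ‖∏ k, (x - e0 k)‖ := by
  rw [prod_conj, Complex.norm_conj]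

/-- the exponents in the first part -/
def nR : Fin 5 → ℤ := ![0, -1, 0, 1, 0]

theorem prodR (x : ℂ) : ∏ k, (x - e0 k) ^ nR k = (x - 1) / (x + 1) := by
  rw [Fin.prod_univ_five]
  simp [nR, e0]
  rw [div_eq_inv_mul]

theorem prodR' (x : ℂ) : ‖1 * ∏ k, (x - e0 k) ^ nR k‖ = ‖x - 1‖ / ‖x + 1‖ := by
  rw [one_mul, prodR, norm_div]

theorem LR_neg (x : ℂ) : LL nR 1 (-x) = -LL nR 1 x := by
  unfold LL
  rw [prodR', prodR', norm_prod_neg]
  have h1 : ‖-x - 1‖ = ‖x + 1‖ := by rw [← norm_neg]; congr 1; ring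
  have h2 : ‖-x + 1‖ = ‖x - 1‖ := by rw [← norm_neg]; congr 1; ring
  rw [h1, h2, ← inv_div ‖x - 1‖ ‖x + 1‖, Real.log_inv]
  ring

theorem LR_conj (x : ℂ) : LL nR 1 (conj x) = LL nR 1 x := by
  unfold LL
  rw [prodR', prodR', norm_prod_conj]
  have h1 : ‖conj x - 1‖ = ‖x - 1‖ := by
    rw [← Complex.norm_conj, map_sub, Complex.conj_conj, map_one]
  have h2 : ‖conj x + 1‖ = ‖x + 1‖ := by
    rw [← Complex.norm_conj, map_add, Complex.conj_conj, map_one]
  rw [h1, h2]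

theorem norm_lt {x : ℂ} (hx : 0 < x.re) : ‖x - 1‖ < ‖x + 1‖ := by
  rw [← sq_lt_sq₀ (norm_nonneg _) (norm_nonneg _), ← Complex.normSq_eq_norm_sq,
    ← Complex.normSq_eq_norm_sq, Complex.normSq_apply, Complex.normSq_apply]
  simp
  nlinarith

theorem LR_pos {x : ℂ} (hx : 0 < x.re) : LL nR 1 x ≤ 0 := by
  unfold LL
  rw [prodR']
  have h := norm_lt hx
  have h1 : Real.log (‖x - 1‖ / ‖x + 1‖) ≤ 0 := by
    apply Real.log_nonpos (by positivity)
    rw [div_le_one (lt_of_le_of_lt (norm_nonneg _) h)]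
    exact h.le
  exact div_nonpos_of_nonpos_of_nonneg (by linarith) (norm_nonneg _)

theorem LR_pos' {x : ℂ} (hx : 2 < x.re) : LL nR 1 x < 0 := by
  unfold LL
  rw [prodR']
  have h := norm_lt (x := x) (by linarith)
  have h0 : 0 < ‖x - 1‖ := by
    rw [norm_pos_iff, sub_ne_zero]
    rintro rfl
    norm_num at hx
  have h1 : Real.log (‖x - 1‖ / ‖x + 1‖) < 0 := by
    apply Real.log_neg (div_pos h0 (h0.trans h))
    rw [div_lt_one (h0.trans h)]
    exact h
  refine div_neg_of_neg_of_pos (by linarith) ?_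
  rw [norm_pos_iff, Finset.prod_ne_zero_iff]
  intro k _ hk
  rw [sub_eq_zero] at hk
  rw [hk, e0_eq] at hx
  have := k.2
  simp at hx
  have h5 : ((k : ℕ) : ℝ) ≤ 4 := by exact_mod_cast (by omega : (k : ℕ) ≤ 4)
  linarith

theorem LR_re (x : ℂ) : LL nR 1 x * x.re ≤ 0 := by
  rcases lt_trichotomy x.re 0 with h | h | h
  · have h1 : LL nR 1 (-x) ≤ 0 := LR_pos (by simpa using h)
    rw [LR_neg] at h1
    nlinarith
  · rw [h, mul_zero]
  · have h1 := LR_pos h
    nlinarith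

theorem odd_int (f : ℂ → ℂ) (h : ∀ x, f (-x) = -f x) : ∫ x, f x = 0 := by
  have h1 := integral_neg_eq_self f (volume : Measure ℂ)
  simp only [h] at h1
  rw [integral_neg] at h1
  have h2 : (2 : ℂ) * ∫ x, f x = 0 := by linear_combination -h1
  exact (mul_eq_zero.1 h2).resolve_left two_ne_zero

theorem conj_int (f : ℂ → ℂ) : ∫ x, f (conj x) = ∫ x, f x :=
  (Complex.conjLIE.measurePreserving).integral_comp
    (Complex.conjLIE.toHomeomorph.measurableEmbedding) f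

theorem partR (h : S_CNT) :
    ∃ r : ℝ, r < 0 ∧ Rm e0 ![0, -1, 0, 1, 0] 1 = toC !![0, r; r, 0] := by
  have hint := (h e0 nR 1 1 0 e0_inj (by decide) one_ne_zero le_rfl zero_le_one).1
  have e1 : (fun x : ℂ => ((2 * Real.log ‖1 * ∏ k, (x - e0 k) ^ nR k‖ / ‖∏ k, (x - e0 k)‖ : ℝ) : ℂ) *
      (x ^ 1 * conj x ^ 0)) = fun x => (LL nR 1 x : ℂ) * x := by
    funext x
    rw [pow_one, pow_zero, mul_one]
    rfl
  rw [e1] at hint
  have hre : Integrable (fun x : ℂ => LL nR 1 x * x.re) := by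
    have := hint.re
    refine this.congr (Eventually.of_forall fun x => ?_)
    show (((LL nR 1 x : ℂ) * x)).re = _
    rw [Complex.re_ofReal_mul]
  have hr : ∫ x : ℂ, LL nR 1 x * x.re < 0 := by
    have h1 : 0 < ∫ x : ℂ, -(LL nR 1 x * x.re) := by
      rw [integral_pos_iff_support_of_nonneg (fun x => neg_nonneg.2 (LR_re x)) hre.neg]
      refine lt_of_lt_of_le (Metric.measure_ball_pos volume (10 : ℂ) one_pos) (measure_mono ?_)
      intro x hx
      rw [Metric.mem_ball, dist_eq_norm] at hx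
      have h2 := (Complex.abs_re_le_norm (x - 10)).trans_lt hx
      rw [Complex.sub_re] at h2
      have h3 : 2 < x.re := by
        have := (abs_lt.1 h2).1
        norm_num at this
        linarith
      rw [Function.mem_support]
      have h4 := LR_pos' h3
      have : 0 < -(LL nR 1 x * x.re) := by nlinarith
      exact this.ne'
    rw [integral_neg] at h1
    linarith
  refine ⟨∫ x : ℂ, LL nR 1 x * x.re, hr, ?_⟩
  have s10 : ∫ x : ℂ, (LL nR 1 x : ℂ) * x = ((∫ x : ℂ, LL nR 1 x * x.re : ℝ) : ℂ) := by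
    have h1 : conj (∫ x : ℂ, (LL nR 1 x : ℂ) * x) = ∫ x : ℂ, (LL nR 1 x : ℂ) * x := by
      rw [← integral_conj, ← conj_int]
      refine integral_congr_ae (Eventually.of_forall fun x => ?_)
      simp [LR_conj]
    obtain ⟨s, hs⟩ := Complex.conj_eq_iff_real.1 h1
    have h2 : (∫ x : ℂ, (LL nR 1 x : ℂ) * x).re = ∫ x : ℂ, LL nR 1 x * x.re := by
      have := integral_re hint
      rw [show (∫ x : ℂ, (LL nR 1 x : ℂ) * x).re = RCLike.re (∫ x : ℂ, (LL nR 1 x : ℂ) * x) from rfl,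
        ← this]
      refine integral_congr_ae (Eventually.of_forall fun x => ?_)
      show (((LL nR 1 x : ℂ) * x)).re = _
      rw [Complex.re_ofReal_mul]
    rw [← h2, hs, Complex.ofReal_re]
  have s01 : ∫ x : ℂ, (LL nR 1 x : ℂ) * conj x = ((∫ x : ℂ, LL nR 1 x * x.re : ℝ) : ℂ) := by
    rw [← s10, ← conj_int]
    refine integral_congr_ae (Eventually.of_forall fun x => ?_)
    simp [LR_conj]
  ext p q
  fin_cases p <;> fin_cases q
  · show ∫ x : ℂ, (LL nR 1 x : ℂ) * (x ^ 0 * conj x ^ 0) = ((0 : ℝ) : ℂ)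
    rw [Complex.ofReal_zero]
    refine odd_int _ fun x => ?_
    rw [LR_neg]
    push_cast
    ring
  · show ∫ x : ℂ, (LL nR 1 x : ℂ) * (x ^ 0 * conj x ^ 1) = _
    refine Eq.trans (b := ∫ x : ℂ, (LL nR 1 x : ℂ) * conj x)
      (integral_congr_ae (Eventually.of_forall fun x => ?_)) s01
    simp
  · show ∫ x : ℂ, (LL nR 1 x : ℂ) * (x ^ 1 * conj x ^ 0) = _
    refine Eq.trans (b := ∫ x : ℂ, (LL nR 1 x : ℂ) * x)
      (integral_congr_ae (Eventually.of_forall fun x => ?_)) s10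
    simp
  · show ∫ x : ℂ, (LL nR 1 x : ℂ) * (x ^ 1 * conj x ^ 1) = ((0 : ℝ) : ℂ)
    rw [Complex.ofReal_zero]
    refine odd_int _ fun x => ?_
    rw [LR_neg, map_neg]
    push_cast
    ring

theorem LP (x : ℂ) : LL 0 (Complex.exp 1) x = 2 / ‖∏ k, (x - e0 k)‖ := by
  unfold LL
  simp [Complex.norm_exp]

theorem LP_neg (x : ℂ) : LL 0 (Complex.exp 1) (-x) = LL 0 (Complex.exp 1) x := by
  rw [LP, LP, norm_prod_neg]

theorem partP (h : S_CNT) :
    ∃ p₁ p₂ : ℝ, 0 < p₁ ∧ 0 < p₂ ∧ Rm e0 0 (Complex.exp 1) = toC !![p₁, 0; 0, p₂] := by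
  have h1 := (h e0 0 (Complex.exp 1) 0 0 e0_inj (by simp) (Complex.exp_ne_zero _) zero_le_one
    zero_le_one).1
  have h2 := (h e0 0 (Complex.exp 1) 1 1 e0_inj (by simp) (Complex.exp_ne_zero _) le_rfl
    le_rfl).1
  have e1 : (fun x : ℂ => ((2 * Real.log ‖Complex.exp 1 * ∏ k, (x - e0 k) ^ (0 : Fin 5 → ℤ) k‖ /
      ‖∏ k, (x - e0 k)‖ : ℝ) : ℂ) * (x ^ 0 * conj x ^ 0)) =
      fun x => ((2 / ‖∏ k, (x - e0 k)‖ : ℝ) : ℂ) := by
    funext x
    rw [← LP, pow_zero, pow_zero, mul_one, mul_one]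
    rfl
  have e2 : (fun x : ℂ => ((2 * Real.log ‖Complex.exp 1 * ∏ k, (x - e0 k) ^ (0 : Fin 5 → ℤ) k‖ /
      ‖∏ k, (x - e0 k)‖ : ℝ) : ℂ) * (x ^ 1 * conj x ^ 1)) =
      fun x => ((2 / ‖∏ k, (x - e0 k)‖ * ‖x‖ ^ 2 : ℝ) : ℂ) := by
    funext x
    rw [← LP, pow_one, pow_one, Complex.mul_conj, Complex.normSq_eq_norm_sq, ← Complex.ofReal_mul]
    rfl
  rw [e1] at h1
  rw [e2] at h2
  have g1 : Integrable (fun x : ℂ => 2 / ‖∏ k, (x - e0 k)‖) := by
    have := h1.re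
    exact this.congr (Eventually.of_forall fun x => Complex.ofReal_re _)
  have g2 : Integrable (fun x : ℂ => 2 / ‖∏ k, (x - e0 k)‖ * ‖x‖ ^ 2) := by
    have := h2.re
    exact this.congr (Eventually.of_forall fun x => Complex.ofReal_re _)
  have hpos : ∀ x : ℂ, x ∈ Metric.ball (10 : ℂ) 1 → 0 < 2 / ‖∏ k, (x - e0 k)‖ ∧ 0 < ‖x‖ := by
    intro x hx
    rw [Metric.mem_ball, dist_eq_norm] at hx
    have h2 := (Complex.abs_re_le_norm (x - 10)).trans_lt hx
    rw [Complex.sub_re] at h2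
    have h3 : 2 < x.re := by
      have := (abs_lt.1 h2).1
      norm_num at this
      linarith
    constructor
    · refine div_pos two_pos ?_
      rw [norm_pos_iff, Finset.prod_ne_zero_iff]
      intro k _ hk
      rw [sub_eq_zero] at hk
      rw [hk, e0_eq] at h3
      have := k.2
      simp at h3
      have h5 : ((k : ℕ) : ℝ) ≤ 4 := by exact_mod_cast (by omega : (k : ℕ) ≤ 4)
      linarith
    · rw [norm_pos_iff]
      rintro rfl
      norm_num at h3
  refine ⟨∫ x : ℂ, 2 / ‖∏ k, (x - e0 k)‖, ∫ x : ℂ, 2 / ‖∏ k, (x - e0 k)‖ * ‖x‖ ^ 2, ?_, ?_, ?_⟩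
  · rw [integral_pos_iff_support_of_nonneg (fun x => by positivity) g1]
    refine lt_of_lt_of_le (Metric.measure_ball_pos volume (10 : ℂ) one_pos) (measure_mono ?_)
    intro x hx
    exact (hpos x hx).1.ne'
  · rw [integral_pos_iff_support_of_nonneg (fun x => by positivity) g2]
    refine lt_of_lt_of_le (Metric.measure_ball_pos volume (10 : ℂ) one_pos) (measure_mono ?_)
    intro x hx
    obtain ⟨a, b⟩ := hpos x hx
    exact (mul_pos a (pow_pos b 2)).ne'
  · ext p q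
    fin_cases p <;> fin_cases q
    · show ∫ x : ℂ, (LL 0 (Complex.exp 1) x : ℂ) * (x ^ 0 * conj x ^ 0) = _
      refine Eq.trans (integral_congr_ae (Eventually.of_forall fun x => ?_))
        (integral_ofReal (f := fun x : ℂ => 2 / ‖∏ k, (x - e0 k)‖))
      simp only [LP, pow_zero, mul_one]
      rfl
    · show ∫ x : ℂ, (LL 0 (Complex.exp 1) x : ℂ) * (x ^ 0 * conj x ^ 1) = ((0 : ℝ) : ℂ)
      rw [Complex.ofReal_zero]
      refine odd_int _ fun x => ?_
      rw [LP_neg, map_neg]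
      ring
    · show ∫ x : ℂ, (LL 0 (Complex.exp 1) x : ℂ) * (x ^ 1 * conj x ^ 0) = ((0 : ℝ) : ℂ)
      rw [Complex.ofReal_zero]
      refine odd_int _ fun x => ?_
      rw [LP_neg, map_neg]
      ring
    · show ∫ x : ℂ, (LL 0 (Complex.exp 1) x : ℂ) * (x ^ 1 * conj x ^ 1) = _
      refine Eq.trans (integral_congr_ae (Eventually.of_forall fun x => ?_))
        (integral_ofReal (f := fun x : ℂ => 2 / ‖∏ k, (x - e0 k)‖ * ‖x‖ ^ 2))
      simp only [LP, pow_one]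
      rw [Complex.mul_conj, Complex.normSq_eq_norm_sq, ← Complex.ofReal_mul]
      rfl

theorem main : S_SGN := fun h => ⟨partR h, partP h⟩

end Pool.Agent.H840.AS.Sgn
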