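import Pool.Agent.H840.AS.Fin
import Pool.Agent.H840.AS.Pol
import Pool.Agent.H840.AS.Sgn
import Pool.Agent.H840.AS.Der
import Pool.Agent.H671.CNT
import Pool.Agent.H722.GRP.Main
import Pool.Agent.H988.TorD
set_option autoImplicit false

/-!
# The theorem for polarised tori of dimension two
-/

open scoped Matrix ComplexOrder

namespace Pool.Agent.H840.AS

theorem main_siegel (τ : Matrix (Fin 2) (Fin 2) ℂ) (h1 : τ.IsSymm)
    (h2 : (τ.map Complex.im).PosDef) (g : Matrix (Fin 2) (Fin 2) ℂ) (hg : g.det ≠ 0)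
    (Λ : AddSubgroup (Fin 2 → ℂ)) (hΛ : ∀ v ∈ Lat τ, g.mulVec v ∈ Λ) :
    closure (Submodule.span ℚ {r : Matrix (Fin 2) (Fin 2) ℂ | ∃ D : Chain Λ, D.reg = r} :
      Set (Matrix (Fin 2) (Fin 2) ℂ)) = {Z | Z.IsHermitian} :=
  main' Pool.Agent.H840.AS.Der.der Pool.Agent.H988.TOR.tor Pool.Agent.H671.CNT.main
    Pool.Agent.H722.GRP.s_GRP Pool.Agent.H840.AS.Sgn.main τ h1 h2 g hg Λ hΛ

theorem main_pol (Λ : AddSubgroup (Fin 2 → ℂ)) (H : Matrix (Fin 2) (Fin 2) ℂ)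
    (hH : H.PosDef) (hspan : Submodule.span ℝ (Λ : Set (Fin 2 → ℂ)) = ⊤)
    (hint : ∀ u ∈ Λ, ∀ v ∈ Λ, ∃ k : ℤ, (star u ⬝ᵥ H.mulVec v).im = k) :
    closure (Submodule.span ℚ {r : Matrix (Fin 2) (Fin 2) ℂ | ∃ D : Chain Λ, D.reg = r} :
      Set (Matrix (Fin 2) (Fin 2) ℂ)) = {Z | Z.IsHermitian} := by
  obtain ⟨τ, g, h1, h2, hg, h3⟩ := Pool.Agent.H840.AS.Pol.h_POL Λ H hH hspan hint
  exact main_siegel τ h1 h2 g hg Λ h3

end Pool.Agent.H840.AS
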