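import Pool.Agent.H840.AS.Up

/-!
# The bounding functions
-/

open Complex Filter Topology MeasureTheory Set Metric

namespace Pool.Agent.H840.AS

/-- `1 / (√u (1 + u))`. -/
noncomputable def kap (u : ℝ) : ℝ := (Real.sqrt u * (1 + u))⁻¹

theorem kap_nonneg {u : ℝ} (hu : 0 ≤ u) : 0 ≤ kap u := by unfold kap; positivity

theorem kap_anti {u v : ℝ} (hu : 0 < u) (huv : u ≤ v) : kap v ≤ kap u := by
  unfold kap
  have := Real.sqrt_pos.2 hu
  gcongr

theorem measurable_kap : Measurable kap := by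
  unfold kap
  exact ((Real.continuous_sqrt.measurable).mul (measurable_const.add measurable_id)).inv

theorem continuousAt_kap {u : ℝ} (hu : 0 < u) : ContinuousAt kap u := by
  unfold kap
  have := Real.sqrt_pos.2 hu
  refine ContinuousAt.inv₀ (by fun_prop) (by positivity)

theorem integrable_of_even {f : ℝ → ℝ} (hf : ∀ x, f (-x) = f x) (h : IntegrableOn f (Ioi 0)) :
    Integrable f := by
  rw [← integrableOn_univ, ← Iic_union_Ioi (a := (0:ℝ))]
  refine IntegrableOn.union ?_ h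
  rw [integrableOn_Iic_iff_integrableOn_Iio]
  have h1 := (Measure.measurePreserving_neg (volume : Measure ℝ)).integrableOn_comp_preimage
    (MeasurableEquiv.neg ℝ).measurableEmbedding (f := f) (s := Ioi 0)
  have h2 := h1.2 h
  have h3 : (fun x : ℝ => -x) ⁻¹' Ioi 0 = Iio 0 := by ext x; simp
  have h4 : (Neg.neg : ℝ → ℝ) ⁻¹' Ioi 0 = Iio 0 := h3
  rw [h4] at h2
  have h5 : f ∘ Neg.neg = f := by ext x; exact hf x
  rwa [h5] at h2

theorem integrable_kap_abs : Integrable fun t : ℝ => kap |t| := by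
  apply integrable_of_even
  · intro x; rw [abs_neg]
  have hm : Measurable fun t : ℝ => kap |t| := measurable_kap.comp measurable_id.abs
  rw [← Ioc_union_Ioi_eq_Ioi (zero_le_one (α := ℝ))]
  refine IntegrableOn.union ?_ ?_
  · have h1 : IntegrableOn (fun t : ℝ => t ^ (-(1/2) : ℝ)) (Ioc 0 1) := by
      have := (intervalIntegral.intervalIntegrable_rpow' (r := -(1/2)) (a := 0) (b := 1)
        (by norm_num)).1
      exact this
    refine h1.mono' hm.aestronglyMeasurable ?_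
    filter_upwards [self_mem_ae_restrict measurableSet_Ioc] with t ht
    have ht0 : 0 < t := ht.1
    rw [Real.norm_eq_abs, abs_of_nonneg (kap_nonneg (abs_nonneg _)), abs_of_pos ht0]
    unfold kap
    rw [Real.rpow_neg ht0.le, ← Real.sqrt_eq_rpow]
    have := Real.sqrt_pos.2 ht0
    gcongr
    nlinarith
  · have h1 : IntegrableOn (fun t : ℝ => t ^ (-(3/2) : ℝ)) (Ioi 1) :=
      integrableOn_Ioi_rpow_of_lt (by norm_num) (by norm_num)
    refine h1.mono' hm.aestronglyMeasurable ?_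
    filter_upwards [self_mem_ae_restrict measurableSet_Ioi] with t ht
    have ht0 : 0 < t := lt_trans zero_lt_one ht
    rw [Real.norm_eq_abs, abs_of_nonneg (kap_nonneg (abs_nonneg _)), abs_of_pos ht0]
    unfold kap
    rw [Real.rpow_neg ht0.le]
    have h2 : t ^ ((3/2) : ℝ) = Real.sqrt t * t := by
      rw [Real.sqrt_eq_rpow]
      nth_rewrite 3 [← Real.rpow_one t]
      rw [← Real.rpow_add ht0]; norm_num
    rw [h2]
    have := Real.sqrt_pos.2 ht0
    gcongr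
    linarith

/-- The sum of the `kap` of the distances from the `e k`. -/
noncomputable def Bnd (e : Fin 5 → ℂ) (x : ℂ) : ℝ := ∑ k, kap ‖x - e k‖

theorem Bnd_nonneg (e : Fin 5 → ℂ) (x : ℂ) : 0 ≤ Bnd e x :=
  Finset.sum_nonneg fun k _ => kap_nonneg (norm_nonneg _)

/-- The points `e k` are separated and bounded. -/
structure Sep (e : Fin 5 → ℂ) : Prop where
  sep : ∀ k l, k ≠ l → (1 / 2 : ℝ) ≤ ‖e k - e l‖
  bd : ∀ k, ‖e k‖ ≤ 3

theorem Sep.neg {e : Fin 5 → ℂ} (h : Sep e) : Sep (-e) where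
  sep k l hkl := by
    have := h.sep k l hkl
    rw [← norm_neg] at this
    simpa [sub_eq_add_neg, add_comm] using this
  bd k := by simpa using h.bd k

theorem near_bound {e : Fin 5 → ℂ} (h : Sep e) (x : ℂ) :
    (1 + ‖x‖) * ∏ k, (Real.sqrt ‖x - e k‖)⁻¹ ≤ 256 * Bnd e x := by
  obtain ⟨k0, -, hk0⟩ := Finset.exists_min_image Finset.univ (fun k => ‖x - e k‖)
    ⟨0, Finset.mem_univ _⟩
  set u := ‖x - e k0‖ with hu
  have hu0 : 0 ≤ u := norm_nonneg _
  have h1 : ∀ l, l ≠ k0 → (1 + u) / 8 ≤ ‖x - e l‖ := by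
    intro l hl
    have h2 : u ≤ ‖x - e l‖ := hk0 l (Finset.mem_univ _)
    have h3 := h.sep k0 l (Ne.symm hl)
    have h4 : ‖e k0 - e l‖ ≤ ‖x - e l‖ + ‖x - e k0‖ := by
      calc ‖e k0 - e l‖ = ‖(x - e l) - (x - e k0)‖ := by congr 1; ring
        _ ≤ _ := norm_sub_le _ _
    rcases le_total u 1 with h5 | h5 <;> linarith
  have h2 : ∏ l ∈ Finset.univ.erase k0, (Real.sqrt ‖x - e l‖)⁻¹ ≤ 64 * (1 + u)⁻¹ ^ 2 := by
    have h3 : ∀ l ∈ Finset.univ.erase k0, (Real.sqrt ‖x - e l‖)⁻¹ ≤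
        (Real.sqrt ((1 + u) / 8))⁻¹ := by
      intro l hl
      have h5 := h1 l (Finset.ne_of_mem_erase hl)
      have h6 : 0 < Real.sqrt ((1 + u) / 8) := Real.sqrt_pos.2 (by positivity)
      gcongr
    calc ∏ l ∈ Finset.univ.erase k0, (Real.sqrt ‖x - e l‖)⁻¹ ≤
        ∏ l ∈ Finset.univ.erase k0, (Real.sqrt ((1 + u) / 8))⁻¹ :=
          Finset.prod_le_prod (fun _ _ => by positivity) h3
      _ = (Real.sqrt ((1 + u) / 8))⁻¹ ^ 4 := by
          rw [Finset.prod_const, Finset.card_erase_of_mem (Finset.mem_univ _)]; simp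
      _ = 64 * (1 + u)⁻¹ ^ 2 := by
          rw [inv_pow, show (4:ℕ) = 2 * 2 by norm_num, pow_mul, Real.sq_sqrt (by positivity)]
          field_simp
          norm_num
  have h3 : 1 + ‖x‖ ≤ 4 * (1 + u) := by
    have h4 : ‖x‖ ≤ ‖x - e k0‖ + ‖e k0‖ := by
      calc ‖x‖ = ‖(x - e k0) + e k0‖ := by congr 1; ring
        _ ≤ _ := norm_add_le _ _
    have := h.bd k0
    linarith
  have h4 : kap u ≤ Bnd e x := by
    unfold Bnd
    exact Finset.single_le_sum (f := fun k => kap ‖x - e k‖)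
      (fun k _ => kap_nonneg (norm_nonneg _)) (Finset.mem_univ k0)
  rw [← Finset.mul_prod_erase Finset.univ _ (Finset.mem_univ k0)]
  calc (1 + ‖x‖) * ((Real.sqrt ‖x - e k0‖)⁻¹ *
        ∏ l ∈ Finset.univ.erase k0, (Real.sqrt ‖x - e l‖)⁻¹)
      ≤ 4 * (1 + u) * ((Real.sqrt u)⁻¹ * (64 * (1 + u)⁻¹ ^ 2)) := by
        gcongr
    _ = 256 * kap u := by
        unfold kap
        rw [mul_inv]
        field_simp
        norm_num
    _ ≤ 256 * Bnd e x := by gcongr

/-- Along vertical lines the bounding functions are bounded by integrable functions. -/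
noncomputable def Lb (e : Fin 5 → ℂ) (x : ℂ) (t : ℝ) : ℝ := ∑ k, kap |t + (x - e k).im|

theorem Bnd_le_Lb (e : Fin 5 → ℂ) (x : ℂ) : ∀ᵐ t : ℝ, Bnd e (x + t * I) ≤ Lb e x t := by
  have h1 : ∀ k : Fin 5, ∀ᵐ t : ℝ, t + (x - e k).im ≠ 0 := by
    intro k
    have : {t : ℝ | ¬ (t + (x - e k).im ≠ 0)} = {-(x - e k).im} := by
      ext t; simp only [ne_eq, not_not, mem_ofPred_eq, mem_singleton_iff]
      constructor <;> intro h <;> linarith
    rw [ae_iff, this]
    exact measure_singleton _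
  rw [← ae_all_iff] at h1
  filter_upwards [h1] with t ht
  unfold Bnd Lb
  refine Finset.sum_le_sum fun k _ => ?_
  apply kap_anti (abs_pos.2 (ht k))
  have : (x + t * I - e k).im = t + (x - e k).im := by
    simp; ring
  rw [← this]
  exact abs_im_le_norm _

theorem integrable_Lb (e : Fin 5 → ℂ) (x : ℂ) : Integrable (Lb e x) := by
  unfold Lb
  refine integrable_finsetSum _ fun k _ => ?_
  exact integrable_kap_abs.comp_add_right ((x - e k).im)

theorem integral_Lb (e : Fin 5 → ℂ) (x : ℂ) : ∫ t, Lb e x t = 5 * ∫ t : ℝ, kap |t| := by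
  unfold Lb
  rw [integral_finsetSum _ fun k _ => integrable_kap_abs.comp_add_right ((x - e k).im)]
  have : ∀ k : Fin 5, ∫ t : ℝ, kap |t + (x - e k).im| = ∫ t : ℝ, kap |t| := by
    intro k
    exact integral_add_right_eq_self (fun t : ℝ => kap |t|) _
  simp only [this]
  simp

theorem Bnd_le {e : Fin 5 → ℂ} (h : Sep e) : ∃ C R : ℝ, 0 ≤ C ∧ ∀ x, R ≤ ‖x‖ →
    Bnd e x ≤ C * ‖x‖ ^ (-(3/2) : ℝ) := by
  refine ⟨20, 6, by norm_num, ?_⟩
  intro x hx
  have hx0 : 0 < ‖x‖ := by linarith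
  have h1 : ∀ k, kap ‖x - e k‖ ≤ 4 * ‖x‖ ^ (-(3/2) : ℝ) := by
    intro k
    have h2 : ‖x‖ / 2 ≤ ‖x - e k‖ := by
      have h4 : ‖x‖ ≤ ‖x - e k‖ + ‖e k‖ := by
        calc ‖x‖ = ‖(x - e k) + e k‖ := by congr 1; ring
          _ ≤ _ := norm_add_le _ _
      have := h.bd k
      linarith
    refine (kap_anti (by positivity) h2).trans ?_
    unfold kap
    have h3 : ‖x‖ ^ (-(3/2) : ℝ) = (Real.sqrt ‖x‖ * ‖x‖)⁻¹ := by
      rw [Real.rpow_neg hx0.le]
      congr 1
      rw [Real.sqrt_eq_rpow]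
      nth_rewrite 3 [← Real.rpow_one ‖x‖]
      rw [← Real.rpow_add hx0]; norm_num
    rw [h3]
    have h5 : Real.sqrt ‖x‖ / 2 ≤ Real.sqrt (‖x‖ / 2) := by
      apply Real.le_sqrt_of_sq_le
      rw [div_pow, Real.sq_sqrt hx0.le]; linarith
    have h6 : 0 < Real.sqrt ‖x‖ := Real.sqrt_pos.2 hx0
    calc (Real.sqrt (‖x‖ / 2) * (1 + ‖x‖ / 2))⁻¹ ≤ (Real.sqrt ‖x‖ / 2 * (‖x‖ / 2))⁻¹ := by
          gcongr
          linarith
      _ = 4 * (Real.sqrt ‖x‖ * ‖x‖)⁻¹ := by field_simp; norm_num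
  unfold Bnd
  calc ∑ k, kap ‖x - e k‖ ≤ ∑ k : Fin 5, 4 * ‖x‖ ^ (-(3/2) : ℝ) :=
        Finset.sum_le_sum fun k _ => h1 k
    _ = 20 * ‖x‖ ^ (-(3/2) : ℝ) := by simp; ring

end Pool.Agent.H840.AS
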