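import Mathlib
set_option autoImplicit false

/-!
Holomorphic maps from curves of genus two to complex tori of dimension two, rational functions on
the curves whose divisor is mapped to zero, and the real regulator.
-/

open MeasureTheory Filter Topology

open scoped ComplexConjugate

namespace Pool.Agent.H840.AS

/-- The affine curve `y ^ 2 = (x - e 0) (x - e 1) (x - e 2) (x - e 3) (x - e 4)`. -/
def curve (e : Fin 5 → ℂ) : Set (ℂ × ℂ) := {p | p.2 ^ 2 = ∏ k, (p.1 - e k)}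

/-- A holomorphic map `φ` from the curve `y ^ 2 = ∏ (x - e k)` (`e k` different, genus two) to
`ℂ ^ 2 / Λ` with `φ ^* (d z_i) = (M i 0 + M i 1 x) dx / y`, and a rational function
`f = c ∏ (x - e k) ^ n k` on the curve, with divisor `∑ 2 n k (e k, 0)`, such that the image of
its divisor under `φ` is zero. -/
structure Chain (Λ : AddSubgroup (Fin 2 → ℂ)) where
  e : Fin 5 → ℂ
  inj : Function.Injective e
  M : Matrix (Fin 2) (Fin 2) ℂ
  φ : ℂ × ℂ → (Fin 2 → ℂ) ⧸ Λ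
  cont : ContinuousOn φ (curve e)
  hol : ∀ p ∈ curve e, p.2 ≠ 0 → ∃ (s : ℂ → ℂ) (L : ℂ → Fin 2 → ℂ), s p.1 = p.2 ∧
    ContinuousAt s p.1 ∧ ∀ᶠ x in 𝓝 p.1, s x ^ 2 = ∏ k, (x - e k) ∧
      φ (x, s x) = QuotientAddGroup.mk (L x) ∧ HasDerivAt L ((s x)⁻¹ • M.mulVec ![1, x]) x
  n : Fin 5 → ℤ
  sum_n : ∑ k, n k = 0
  c : ℂ
  c_ne : c ≠ 0
  bdry : ∀ q : (Fin 2 → ℂ) ⧸ Λ, ∑ᶠ (k) (_ : φ (e k, 0) = q), n k = 0

/-- The matrix of the integrals of `log |f| φ ^* (d z_i ∧ d conj z_k)` over the curve, divided by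
`-2 i`; the curve covers the `x`-plane twice and `|y| ^ 2 = |∏ (x - e k)|`. -/
noncomputable def Chain.reg {Λ : AddSubgroup (Fin 2 → ℂ)} (D : Chain Λ) :
    Matrix (Fin 2) (Fin 2) ℂ :=
  Matrix.of fun i k => ∫ x : ℂ,
    ((2 * Real.log ‖D.c * ∏ j, (x - D.e j) ^ D.n j‖ / ‖∏ j, (x - D.e j)‖ : ℝ) : ℂ) *
      (D.M.mulVec ![1, x] i * conj (D.M.mulVec ![1, x] k))

/-- The integrals of `2 log |f| x ^ p conj x ^ q / |(x - e 0) ... (x - e 4)|` over the plane for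
the rational function `f = c ∏ (x - e k) ^ n k`. -/
noncomputable def Rm (e : Fin 5 → ℂ) (n : Fin 5 → ℤ) (c : ℂ) : Matrix (Fin 2) (Fin 2) ℂ :=
  Matrix.of fun p q => ∫ x : ℂ,
    ((2 * Real.log ‖c * ∏ k, (x - e k) ^ n k‖ / ‖∏ k, (x - e k)‖ : ℝ) : ℂ) *
      (x ^ (p : ℕ) * conj x ^ (q : ℕ))

/-- The real span of the regulators. -/
noncomputable def Sp (Λ : AddSubgroup (Fin 2 → ℂ)) : Submodule ℝ (Matrix (Fin 2) (Fin 2) ℂ) :=
  Submodule.span ℝ {r | ∃ D : Chain Λ, D.reg = r}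

/-- The subgroup `ℤ ^ 2 + τ ℤ ^ 2`. -/
def Lat (τ : Matrix (Fin 2) (Fin 2) ℂ) : AddSubgroup (Fin 2 → ℂ) where
  carrier := {v | ∃ a b : Fin 2 → ℤ, ∀ i, v i = a i + ∑ j, τ i j * b j}
  zero_mem' := ⟨0, 0, fun i => by simp⟩
  add_mem' := by
    rintro u v ⟨a, b, h⟩ ⟨a', b', h'⟩
    refine ⟨a + a', b + b', fun i => ?_⟩
    simp only [Pi.add_apply, h i, h' i, Fin.sum_univ_two]
    push_cast; ring
  neg_mem' := by
    rintro u ⟨a, b, h⟩
    refine ⟨-a, -b, fun i => ?_⟩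
    simp only [Pi.neg_apply, h i, Fin.sum_univ_two]
    push_cast; ring

/-- The complex matrix given by a real matrix. -/
def toC (A : Matrix (Fin 2) (Fin 2) ℝ) : Matrix (Fin 2) (Fin 2) ℂ := A.map fun r => (r : ℂ)

/-- The base point of the family. -/
def e0 : Fin 5 → ℂ := ![-2, -1, 0, 1, 2]

end Pool.Agent.H840.AS
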