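import Pool.Agent.H840.AS.Loc
set_option autoImplicit false

/-!
# Assembly
-/

open Complex Filter Topology MeasureTheory Set Metric

namespace Pool.Agent.H840.AS

theorem continuousAt_Cc (hD : S_DER) {e : Fin 5 → ℂ} (he : Near e) (p j : ℕ) (hp : p ≤ 1)
    (hj : j ≤ 5) : ContinuousAt (fun e => Cc e p j) e := by
  obtain ⟨D, hD', -⟩ := hD e he p j hp hj
  exact hD'.continuousAt

theorem continuousAt_det (hD : S_DER) {e : Fin 5 → ℂ} (he : Near e) :
    ContinuousAt (fun e => (Am e).det) e := by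
  simp only [det_Am]
  have c01 := continuousAt_Cc hD he 0 1 (by norm_num) (by norm_num)
  have c03 := continuousAt_Cc hD he 0 3 (by norm_num) (by norm_num)
  have c11 := continuousAt_Cc hD he 1 1 (by norm_num) (by norm_num)
  have c13 := continuousAt_Cc hD he 1 3 (by norm_num) (by norm_num)
  exact ((c01.sub c03).mul c13).sub (c03.mul (c11.sub c13))

theorem continuousAt_Mt (hD : S_DER) {e : Fin 5 → ℂ} (he : Near e) (hd : (Am e).det ≠ 0) :
    ContinuousAt Mt e := by
  have c01 := continuousAt_Cc hD he 0 1 (by norm_num) (by norm_num)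
  have c03 := continuousAt_Cc hD he 0 3 (by norm_num) (by norm_num)
  have c11 := continuousAt_Cc hD he 1 1 (by norm_num) (by norm_num)
  have c13 := continuousAt_Cc hD he 1 3 (by norm_num) (by norm_num)
  have h1 := (continuousAt_det hD he).inv₀ hd
  have h2 : ∀ i k, (fun e => Mt e i k) = fun e => (2 : ℂ) * ((Am e).det⁻¹ *
    (!![Cc e 1 3, -Cc e 0 3; -(Cc e 1 1 - Cc e 1 3), Cc e 0 1 - Cc e 0 3] :
      Matrix (Fin 2) (Fin 2) ℂ) i k) := by
    intro i k
    ext e
    rw [Mt, inv_Am]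
    rfl
  refine continuousAt_pi.2 fun i => continuousAt_pi.2 fun k => ?_
  rw [h2]
  refine continuousAt_const.mul (h1.mul ?_)
  fin_cases i <;> fin_cases k
  · exact c13
  · exact c03.neg
  · exact (c11.sub c13).neg
  · exact c01.sub c03

theorem continuousAt_Rm (hC : S_CNT) {e : Fin 5 → ℂ} (he : Near e) {n : Fin 5 → ℤ}
    (hn : ∑ k, n k = 0) {c : ℂ} (hc : c ≠ 0) : ContinuousAt (fun e => Rm e n c) e := by
  refine continuousAt_pi.2 fun p => continuousAt_pi.2 fun q => ?_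
  have h1 := (hC e n c p q he.inj hn hc (p_le p) (p_le q)).2
  unfold Rm
  simp only [Matrix.of_apply]
  exact h1

theorem tendsto_conj {α : Type*} {l : Filter α} {F G : α → Matrix (Fin 2) (Fin 2) ℂ}
    {a b : Matrix (Fin 2) (Fin 2) ℂ} (hF : Tendsto F l (𝓝 a)) (hG : Tendsto G l (𝓝 b)) :
    Tendsto (fun x => F x * G x * (F x).conjTranspose) l (𝓝 (a * b * a.conjTranspose)) := by
  refine tendsto_pi_nhds.2 fun i => tendsto_pi_nhds.2 fun k => ?_
  have hF' : ∀ i k, Tendsto (fun x => F x i k) l (𝓝 (a i k)) := fun i k =>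
    tendsto_pi_nhds.1 (tendsto_pi_nhds.1 hF i) k
  have hG' : ∀ i k, Tendsto (fun x => G x i k) l (𝓝 (b i k)) := fun i k =>
    tendsto_pi_nhds.1 (tendsto_pi_nhds.1 hG i) k
  simp only [Matrix.mul_apply, Matrix.conjTranspose_apply]
  exact tendsto_finsetSum _ fun j _ => (tendsto_finsetSum _ fun m _ =>
    (hF' _ _).mul (hG' _ _)).mul (hF' _ _).star

theorem continuousAt_reg (hD : S_DER) (hC : S_CNT) {e : Fin 5 → ℂ} (he : Near e)
    (hd : (Am e).det ≠ 0) {n : Fin 5 → ℤ} (hn : ∑ k, n k = 0) {c : ℂ} (hc : c ≠ 0) :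
    Tendsto (fun e => Mt e * Rm e n c * (Mt e).conjTranspose) (𝓝 e)
      (𝓝 (Mt e * Rm e n c * (Mt e).conjTranspose)) :=
  tendsto_conj (continuousAt_Mt hD he hd) (continuousAt_Rm hC he hn hc)

theorem loc (hD : S_DER) (hT : S_TOR) (hC : S_CNT) {e : Fin 5 → ℂ} (he : Near e)
    (hd : (Am e).det ≠ 0) {n : Fin 5 → ℤ} (hn : ∑ k, n k = 0) {c : ℂ} (hc : c ≠ 0) :
    ∀ V ∈ 𝓝 (Mt e * Rm e n c * (Mt e).conjTranspose), ∀ᶠ τ in 𝓝 (Tm e), τ.IsSymm →
      ∃ Z ∈ Sp (Lat τ), Z ∈ V := by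
  intro V hV
  have h1 : ∀ᶠ e' in 𝓝 e, (Am e').det ≠ 0 := (continuousAt_det hD he).eventually_ne hd
  have h2 : ∀ᶠ e' in 𝓝 e, Near e' := isOpen_Near.mem_nhds he
  have h3 : ∀ᶠ e' in 𝓝 e, Mt e' * Rm e' n c * (Mt e').conjTranspose ∈ V :=
    (continuousAt_reg hD hC he hd hn hc) hV
  have h4 : Gm '' {e' | (Am e').det ≠ 0 ∧ Near e' ∧
      Mt e' * Rm e' n c * (Mt e').conjTranspose ∈ V} ∈ 𝓝 (Gm e) := by
    rw [← Gm_open hD hT he hd]
    exact image_mem_map (h1.and (h2.and h3))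
  have h5 : Continuous fun τ : Matrix (Fin 2) (Fin 2) ℂ => (![τ 0 0, τ 0 1, τ 1 1] : Fin 3 → ℂ) := by
    refine continuous_pi fun i => ?_
    fin_cases i
    · exact continuous_apply_apply 0 0
    · exact continuous_apply_apply 0 1
    · exact continuous_apply_apply 1 1
  have h6 := (h5.tendsto (Tm e)) h4
  filter_upwards [h6] with τ hτ hsym
  obtain ⟨e', ⟨hd', he', hV'⟩, hG⟩ := hτ
  have h7 : Tm e' = τ := by
    have g0 : Tm e' 0 0 = τ 0 0 := congrFun hG 0
    have g1 : Tm e' 0 1 = τ 0 1 := congrFun hG 1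
    have g2 : Tm e' 1 1 = τ 1 1 := congrFun hG 2
    have s1 := (Tm_symm he').apply 0 1
    have s2 := hsym.apply 0 1
    ext i k
    fin_cases i <;> fin_cases k
    · exact g0
    · exact g1
    · show Tm e' 1 0 = τ 1 0
      rw [s1, s2, g1]
    · exact g2
  rw [← h7]
  exact ⟨_, reg_chain he' hd' n hn c hc, hV'⟩

theorem toC_mul (A B : Matrix (Fin 2) (Fin 2) ℝ) : toC (A * B) = toC A * toC B := by
  unfold toC
  exact Matrix.map_mul (f := Complex.ofRealHom)

theorem toC_conjTranspose (A : Matrix (Fin 2) (Fin 2) ℝ) :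
    (toC A).conjTranspose = toC A.transpose := by
  ext i k
  simp [toC, Matrix.conjTranspose_apply]

theorem conj_toC (m X : Matrix (Fin 2) (Fin 2) ℝ) :
    (-I • toC m) * toC X * (-I • toC m).conjTranspose = toC (m * X * m.transpose) := by
  rw [Matrix.conjTranspose_smul, toC_conjTranspose, toC_mul, toC_mul, Matrix.smul_mul,
    Matrix.smul_mul, Matrix.mul_smul, smul_smul]
  simp

theorem hermitian_mem (hD : S_DER) (hT : S_TOR) (hC : S_CNT) (hG : S_GRP) (hS : S_SGN)
    {τ : Matrix (Fin 2) (Fin 2) ℂ} (h1 : τ.IsSymm) (h2 : (τ.map Complex.im).PosDef)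
    {Z : Matrix (Fin 2) (Fin 2) ℂ} (hZ : Z.IsHermitian) : Z ∈ Sp (Lat τ) := by
  obtain ⟨hd, Y, m, hY, hm, hTY, hM⟩ := data_e0
  obtain ⟨⟨r, hr, hR⟩, p₁, p₂, hp₁, hp₂, hP⟩ := hS hC
  have hMt : Mt e0 = -I • toC m := hM
  have hmne : m.det ≠ 0 := hm.ne_zero
  refine hG Sp Sp_push Y (m * !![0, r; r, 0] * m.transpose)
    (m * !![p₁, 0; 0, p₂] * m.transpose) hY ?_ ?_ ?_ ?_ ?_ τ h1 h2 Z hZ
  · unfold Matrix.IsSymm
    rw [Matrix.transpose_mul, Matrix.transpose_mul, Matrix.transpose_transpose, Matrix.mul_assoc]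
    congr 1
    congr 1
    ext i k
    fin_cases i <;> fin_cases k <;> simp
  · rw [Matrix.det_mul, Matrix.det_mul, Matrix.det_transpose, Matrix.det_fin_two_of]
    have h3 : m.det * (0 * 0 - r * r) * m.det = -(m.det ^ 2 * r ^ 2) := by ring
    rw [h3]
    have h4 : 0 < m.det ^ 2 := by positivity
    have h5 : 0 < r ^ 2 := by nlinarith
    have := mul_pos h4 h5
    linarith
  · have h3 : (!![p₁, 0; 0, p₂] : Matrix (Fin 2) (Fin 2) ℝ).PosDef :=
      posDef_two hp₁ (by simpa using mul_pos hp₁ hp₂)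
    have h4 := h3.mul_mul_conjTranspose_same (B := m)
      (Matrix.vecMul_injective_of_isUnit ((Matrix.isUnit_iff_isUnit_det _).2 hm))
    rwa [Matrix.conjTranspose_eq_transpose_of_trivial] at h4
  · have h3 := loc hD hT hC near_e0 hd (n := ![0, -1, 0, 1, 0]) (by decide) (c := 1) one_ne_zero
    rw [hMt, hR, conj_toC, hTY] at h3
    exact h3
  · have h3 := loc hD hT hC near_e0 hd (n := 0) (by simp) (c := Complex.exp 1)
      (Complex.exp_ne_zero 1)
    rw [hMt, hP, conj_toC, hTY] at h3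
    exact h3

/-- The closure of the rational span contains the real span. -/
theorem span_le_closure {s : Set (Matrix (Fin 2) (Fin 2) ℂ)} {Z : Matrix (Fin 2) (Fin 2) ℂ}
    (hZ : Z ∈ Submodule.span ℝ s) :
    Z ∈ closure (Submodule.span ℚ s : Set (Matrix (Fin 2) (Fin 2) ℂ)) := by
  have hadd : ∀ a ∈ closure (Submodule.span ℚ s : Set (Matrix (Fin 2) (Fin 2) ℂ)),
      ∀ b ∈ closure (Submodule.span ℚ s : Set (Matrix (Fin 2) (Fin 2) ℂ)),
      a + b ∈ closure (Submodule.span ℚ s : Set (Matrix (Fin 2) (Fin 2) ℂ)) := by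
    intro a ha b hb
    have := (Submodule.span ℚ s).toAddSubgroup.topologicalClosure.add_mem (x := a) (y := b) ha hb
    exact this
  have hq : ∀ (q : ℚ), ∀ a ∈ closure (Submodule.span ℚ s : Set (Matrix (Fin 2) (Fin 2) ℂ)),
      ((q : ℝ)) • a ∈ closure (Submodule.span ℚ s : Set (Matrix (Fin 2) (Fin 2) ℂ)) := by
    intro q a ha
    have hcont : Continuous fun x : Matrix (Fin 2) (Fin 2) ℂ => (q : ℝ) • x := by fun_prop
    have h1 := image_closure_subset_closure_image hcont ⟨a, ha, rfl⟩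
    refine closure_mono ?_ h1
    rintro _ ⟨x, hx, rfl⟩
    have h2 := (Submodule.span ℚ s).smul_mem q hx
    have h3 : (q : ℝ) • x = q • x := by
      ext i k
      simp [Matrix.smul_apply, Rat.smul_def]
    simp only
    rw [h3]
    exact h2
  refine Submodule.span_induction (p := fun Z _ => Z ∈ closure
    (Submodule.span ℚ s : Set (Matrix (Fin 2) (Fin 2) ℂ))) ?_ ?_ ?_ ?_ hZ
  · intro x hx
    exact subset_closure (Submodule.subset_span hx)
  · exact subset_closure (zero_mem _)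
  · intro a b _ _ ha hb
    exact hadd a ha b hb
  · intro r a _ ha
    have hclosed : IsClosed {t : ℝ | t • a ∈ closure
        (Submodule.span ℚ s : Set (Matrix (Fin 2) (Fin 2) ℂ))} := by
      have : Continuous fun t : ℝ => t • a := by fun_prop
      exact isClosed_closure.preimage this
    have hdense : Dense {t : ℝ | t • a ∈ closure
        (Submodule.span ℚ s : Set (Matrix (Fin 2) (Fin 2) ℂ))} := by
      refine Rat.denseRange_cast.mono ?_
      rintro _ ⟨q, rfl⟩
      exact hq q a ha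
    have := hdense.closure_eq
    rw [hclosed.closure_eq] at this
    have h5 : r ∈ {t : ℝ | t • a ∈ closure
        (Submodule.span ℚ s : Set (Matrix (Fin 2) (Fin 2) ℂ))} := by
      rw [this]; exact mem_univ r
    exact h5

/-- The main theorem. -/
theorem main' (hD : S_DER) (hT : S_TOR) (hC : S_CNT) (hG : S_GRP) (hS : S_SGN)
    (τ : Matrix (Fin 2) (Fin 2) ℂ) (h1 : τ.IsSymm) (h2 : (τ.map Complex.im).PosDef)
    (g : Matrix (Fin 2) (Fin 2) ℂ) (hg : g.det ≠ 0) (Λ : AddSubgroup (Fin 2 → ℂ))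
    (hΛ : ∀ v ∈ Lat τ, g.mulVec v ∈ Λ) :
    closure (Submodule.span ℚ {r : Matrix (Fin 2) (Fin 2) ℂ | ∃ D : Chain Λ, D.reg = r} :
      Set (Matrix (Fin 2) (Fin 2) ℂ)) = {Z | Z.IsHermitian} := by
  apply Set.Subset.antisymm
  · have hclosed : IsClosed {Z : Matrix (Fin 2) (Fin 2) ℂ | Z.IsHermitian} := by
      have : {Z : Matrix (Fin 2) (Fin 2) ℂ | Z.IsHermitian} = {Z | Z.conjTranspose = Z} := rfl
      rw [this]
      exact isClosed_eq continuous_id.matrix_conjTranspose continuous_id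
    refine closure_minimal ?_ hclosed
    intro Z hZ
    refine Submodule.span_induction (p := fun Z _ => Z.IsHermitian) ?_ ?_ ?_ ?_ hZ
    · rintro _ ⟨D, rfl⟩
      exact D.reg_hermitian
    · exact Matrix.isHermitian_zero
    · intro a b _ _ ha hb
      exact ha.add hb
    · intro q a _ ha
      unfold Matrix.IsHermitian at ha ⊢
      rw [Matrix.conjTranspose_smul, ha]
      simp
  · intro Z hZ
    apply span_le_closure
    have hu : IsUnit g.det := isUnit_iff_ne_zero.2 hg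
    have h3 : Z = g * (g⁻¹ * Z * g⁻¹.conjTranspose) * g.conjTranspose := by
      have h4 : g⁻¹.conjTranspose * g.conjTranspose = 1 := by
        rw [← Matrix.conjTranspose_mul, Matrix.mul_nonsing_inv _ hu, Matrix.conjTranspose_one]
      rw [Matrix.mul_assoc, Matrix.mul_assoc (g⁻¹ * Z), h4, Matrix.mul_one, ← Matrix.mul_assoc,
        Matrix.mul_nonsing_inv _ hu, Matrix.one_mul]
    rw [h3]
    apply Sp_push _ _ g hΛ
    exact hermitian_mem hD hT hC hG hS h1 h2
      (Matrix.isHermitian_mul_mul_conjTranspose _ hZ)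

end Pool.Agent.H840.AS
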