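import Pool.Agent.H840.AS.Reg
set_option autoImplicit false

/-!
# Push-forward of chains
-/

open Complex Filter Topology MeasureTheory Set

namespace Pool.Agent.H840.AS

/-- A matrix as an additive map. -/
noncomputable def mhom (g : Matrix (Fin 2) (Fin 2) ℂ) : (Fin 2 → ℂ) →+ (Fin 2 → ℂ) :=
  (Matrix.mulVecLin g).toAddMonoidHom

/-- The map between the tori. -/
noncomputable def tmap {Λ' Λ : AddSubgroup (Fin 2 → ℂ)} (g : Matrix (Fin 2) (Fin 2) ℂ)
    (hg : ∀ v ∈ Λ', g.mulVec v ∈ Λ) : (Fin 2 → ℂ) ⧸ Λ' →+ (Fin 2 → ℂ) ⧸ Λ :=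
  QuotientAddGroup.map Λ' Λ (mhom g) hg

theorem tmap_mk {Λ' Λ : AddSubgroup (Fin 2 → ℂ)} (g : Matrix (Fin 2) (Fin 2) ℂ)
    (hg : ∀ v ∈ Λ', g.mulVec v ∈ Λ) (v : Fin 2 → ℂ) :
    tmap g hg (QuotientAddGroup.mk v) = QuotientAddGroup.mk (g.mulVec v) := rfl

theorem tmap_cont {Λ' Λ : AddSubgroup (Fin 2 → ℂ)} (g : Matrix (Fin 2) (Fin 2) ℂ)
    (hg : ∀ v ∈ Λ', g.mulVec v ∈ Λ) : Continuous (tmap g hg) := by
  refine continuous_quot_lift _ ?_
  have h4 : Continuous fun v : Fin 2 → ℂ => g.mulVec v := by fun_prop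
  exact continuous_quot_mk.comp h4

theorem push_bdry {α β : Type*} {f : Fin 5 → α} {n : Fin 5 → ℤ} (h : α → β)
    (hf : ∀ q, ∑ᶠ (k) (_ : f k = q), n k = 0) (q : β) :
    ∑ᶠ (k) (_ : h (f k) = q), n k = 0 := by
  classical
  have h1 : ∀ q, ∑ k with f k = q, n k = 0 := by
    intro q
    rw [← hf q, finsum_eq_sum_of_fintype, Finset.sum_filter]
    refine Finset.sum_congr rfl fun k _ => ?_
    rw [finsum_eq_if]
  rw [finsum_eq_sum_of_fintype]
  have h2 : ∀ k, (∑ᶠ (_ : h (f k) = q), n k) = if h (f k) = q then n k else 0 := fun k => by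
    rw [finsum_eq_if]
  simp only [h2]
  rw [← Finset.sum_filter]
  have h3 : ∑ k with h (f k) = q, n k =
      ∑ a ∈ (Finset.univ.image f).filter (fun a => h a = q), ∑ k with f k = a, n k := by
    rw [← Finset.sum_biUnion]
    · refine Finset.sum_congr ?_ fun _ _ => rfl
      ext k
      simp only [Finset.mem_filter, Finset.mem_univ, true_and, Finset.mem_biUnion,
        Finset.mem_image]
      constructor
      · intro hk
        exact ⟨f k, ⟨⟨k, rfl⟩, hk⟩, rfl⟩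
      · rintro ⟨a, ⟨_, ha⟩, hk⟩
        rw [hk]; exact ha
    · intro a _ b _ hab
      rw [Function.onFun, Finset.disjoint_left]
      intro k hk hk'
      simp only [Finset.mem_filter, Finset.mem_univ, true_and] at hk hk'
      exact hab (hk.symm.trans hk')
  rw [h3]
  exact Finset.sum_eq_zero fun a _ => h1 a

/-- The push-forward of a chain. -/
noncomputable def Chain.push {Λ' Λ : AddSubgroup (Fin 2 → ℂ)} (D : Chain Λ')
    (g : Matrix (Fin 2) (Fin 2) ℂ) (hg : ∀ v ∈ Λ', g.mulVec v ∈ Λ) : Chain Λ where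
  e := D.e
  inj := D.inj
  M := g * D.M
  φ := fun p => tmap g hg (D.φ p)
  cont := (tmap_cont g hg).comp_continuousOn D.cont
  hol := by
    intro p hp hy
    obtain ⟨s, L, h1, h2, h3⟩ := D.hol p hp hy
    refine ⟨s, fun x => g.mulVec (L x), h1, h2, ?_⟩
    filter_upwards [h3] with x hx
    refine ⟨hx.1, ?_, ?_⟩
    · rw [hx.2.1, tmap_mk]
    · have h4 := hx.2.2
      rw [hasDerivAt_pi] at h4 ⊢
      intro i
      have h5 := ((h4 0).const_mul (g i 0)).add ((h4 1).const_mul (g i 1))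
      convert h5 using 1
      · ext y
        simp [Matrix.mulVec, dotProduct, Fin.sum_univ_two]
      · simp only [← Matrix.mulVec_mulVec, Pi.smul_apply, smul_eq_mul]
        simp only [Matrix.mulVec, dotProduct, Fin.sum_univ_two]
        ring
  n := D.n
  sum_n := D.sum_n
  c := D.c
  c_ne := D.c_ne
  bdry := push_bdry _ D.bdry

theorem reg_push {Λ' Λ : AddSubgroup (Fin 2 → ℂ)} (D : Chain Λ')
    (g : Matrix (Fin 2) (Fin 2) ℂ) (hg : ∀ v ∈ Λ', g.mulVec v ∈ Λ) :
    (D.push g hg).reg = g * D.reg * g.conjTranspose := by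
  rw [reg_eq, reg_eq]
  simp only [Chain.push, Matrix.conjTranspose_mul, Matrix.mul_assoc]

theorem Sp_push (Λ' Λ : AddSubgroup (Fin 2 → ℂ)) (g : Matrix (Fin 2) (Fin 2) ℂ)
    (hg : ∀ v ∈ Λ', g.mulVec v ∈ Λ) (Z : Matrix (Fin 2) (Fin 2) ℂ) (hZ : Z ∈ Sp Λ') :
    g * Z * g.conjTranspose ∈ Sp Λ := by
  refine Submodule.span_induction (p := fun Z _ => g * Z * g.conjTranspose ∈ Sp Λ)
    ?_ ?_ ?_ ?_ hZ
  · rintro _ ⟨D, rfl⟩
    rw [← reg_push D g hg]
    exact Submodule.subset_span ⟨_, rfl⟩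
  · simp
  · intro a b _ _ ha hb
    rw [Matrix.mul_add, Matrix.add_mul]
    exact add_mem ha hb
  · intro r a _ ha
    rw [Matrix.mul_smul, Matrix.smul_mul]
    exact Submodule.smul_mem _ r ha

open scoped ComplexConjugate in
/-- The regulators are Hermitian matrices. -/
theorem Rm_hermitian (e : Fin 5 → ℂ) (n : Fin 5 → ℤ) (c : ℂ) : (Rm e n c).IsHermitian := by
  ext p q
  rw [Matrix.conjTranspose_apply]
  simp only [Rm, Matrix.of_apply]
  rw [Complex.star_def, ← integral_conj]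
  congr 1
  ext x
  rw [map_mul, map_mul, Complex.conj_ofReal, map_pow, map_pow, Complex.conj_conj]
  ring

theorem Chain.reg_hermitian {Λ : AddSubgroup (Fin 2 → ℂ)} (D : Chain Λ) :
    D.reg.IsHermitian := by
  rw [reg_eq]
  exact Matrix.isHermitian_mul_mul_conjTranspose _ (Rm_hermitian _ _ _)

end Pool.Agent.H840.AS
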