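import Pool.Agent.H840.AS.Phi
import Pool.Agent.H840.AS.Push
import Pool.Agent.H840.AS.Stm
import Pool.Agent.H840.AS.Der
set_option autoImplicit false

/-!
# The period map is open at `e0`, and the regulators near `e0`
-/

open Complex Filter Topology MeasureTheory Set Metric

namespace Pool.Agent.H840.AS

theorem Ln_hT {e : Fin 5 → ℂ} (he : Near e) (n : Fin 5 → ℂ) (m : Fin 2 → ℂ) {p : ℕ} (hp : p ≤ 1)
    (j : ℕ) : Ln (hT e n m p) (ln j) =
      Ln (hT e n 0 p) (ln j) - (m 0 * Ln (w e 0) (ln j) + m 1 * Ln (w e 1) (ln j)) := by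
  have i0 : Integrable fun t : ℝ => I * w e 0 (ln j + t * I) :=
    (pair_w he.sep (p := 0) (by norm_num)).integrable (he.ln_mem j)
  have i1 : Integrable fun t : ℝ => I * w e 1 (ln j + t * I) :=
    (pair_w he.sep (p := 1) (by norm_num)).integrable (he.ln_mem j)
  have i2 : Integrable fun t : ℝ => I * hT e n 0 p (ln j + t * I) := by
    have h1 := (Pool.Agent.H840.AS.Der.GG_int he hp j).apply_continuousLinearMap n
    refine h1.congr (Eventually.of_forall fun t => ?_)
    exact Pool.Agent.H840.AS.Der.GG_apply e n p _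
  have i3 : Integrable fun t : ℝ => m 0 * (I * w e 0 (ln j + t * I)) +
      m 1 * (I * w e 1 (ln j + t * I)) := (i0.const_mul _).add (i1.const_mul _)
  unfold Ln
  rw [← integral_const_mul, ← integral_const_mul, ← integral_add (i0.const_mul _) (i1.const_mul _),
    ← integral_sub i2 i3]
  congr 1
  ext t
  simp only [hT, w, Pi.zero_apply, zero_mul, add_zero, sub_zero, pow_zero, pow_one,
    one_mul]
  ring

/-- The map `e ↦ (τ 0 0, τ 0 1, τ 1 1)`. -/
noncomputable def Gm (e : Fin 5 → ℂ) : Fin 3 → ℂ := ![Tm e 0 0, Tm e 0 1, Tm e 1 1]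

theorem exists_derivs (hD : S_DER) {e : Fin 5 → ℂ} (he : Near e) (hd : (Am e).det ≠ 0) :
    ∃ A' B' T' : Fin 2 → Fin 2 → (Fin 5 → ℂ) →L[ℂ] ℂ,
      (∀ i k, HasStrictFDerivAt (fun e => Am e i k) (A' i k) e) ∧
      (∀ i k, HasStrictFDerivAt (fun e => Bm e i k) (B' i k) e) ∧
      (∀ i k, HasStrictFDerivAt (fun e => Tm e i k) (T' i k) e) ∧
      ∀ (n : Fin 5 → ℂ) (i : Fin 2),
        A' i 0 n = -Ln (hT e n 0 i) (ln 1) - -Ln (hT e n 0 i) (ln 3) ∧
        A' i 1 n = -Ln (hT e n 0 i) (ln 3) ∧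
        B' i 0 n = -Ln (hT e n 0 i) (ln 2) ∧
        B' i 1 n = -Ln (hT e n 0 i) (ln 4) := by
  have h1 : ∀ (p : Fin 2) (j : ℕ), ∃ D : (Fin 5 → ℂ) →L[ℂ] ℂ, j ≤ 5 →
      HasStrictFDerivAt (fun e => Cc e p j) D e ∧ ∀ n : Fin 5 → ℂ, D n = -Ln (hT e n 0 p) (ln j) := by
    intro p j
    by_cases hj : j ≤ 5
    · obtain ⟨D, hD⟩ := hD e he p j (p_le p) hj
      exact ⟨D, fun _ => hD⟩
    · exact ⟨0, fun h => absurd h hj⟩
  choose D hD using h1
  have hA : ∀ i k, HasStrictFDerivAt (fun e => Am e i k)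
      ((![D i 1 - D i 3, D i 3] : Fin 2 → (Fin 5 → ℂ) →L[ℂ] ℂ) k) e := by
    intro i k
    have d1 := (hD i 1 (by norm_num)).1
    have d3 := (hD i 3 (by norm_num)).1
    fin_cases i <;> fin_cases k
    · exact d1.sub d3
    · exact d3
    · exact d1.sub d3
    · exact d3
  have hB : ∀ i k, HasStrictFDerivAt (fun e => Bm e i k)
      ((![D i 2, D i 4] : Fin 2 → (Fin 5 → ℂ) →L[ℂ] ℂ) k) e := by
    intro i k
    have d1 := (hD i 2 (by norm_num)).1
    have d3 := (hD i 4 (by norm_num)).1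
    fin_cases i <;> fin_cases k
    · exact d1
    · exact d3
    · exact d1
    · exact d3
  have hT : ∀ i k, ∃ T' : (Fin 5 → ℂ) →L[ℂ] ℂ, HasStrictFDerivAt (fun e => Tm e i k) T' e := by
    intro i k
    have c01 := (hD 0 1 (by norm_num)).1
    have c02 := (hD 0 2 (by norm_num)).1
    have c03 := (hD 0 3 (by norm_num)).1
    have c04 := (hD 0 4 (by norm_num)).1
    have c11 := (hD 1 1 (by norm_num)).1
    have c12 := (hD 1 2 (by norm_num)).1
    have c13 := (hD 1 3 (by norm_num)).1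
    have c14 := (hD 1 4 (by norm_num)).1
    simp only [Fin.val_zero, Fin.val_one] at c01 c02 c03 c04 c11 c12 c13 c14
    obtain ⟨E, hdet⟩ : ∃ E : (Fin 5 → ℂ) →L[ℂ] ℂ,
        HasStrictFDerivAt (fun e => (Am e).det) E e := by
      simp only [det_Am]
      exact ⟨_, ((c01.sub c03).mul c13).sub (c03.mul (c11.sub c13))⟩
    obtain ⟨E', hinv⟩ : ∃ E' : (Fin 5 → ℂ) →L[ℂ] ℂ,
        HasStrictFDerivAt (fun e => ((Am e).det)⁻¹) E' e :=
      ⟨_, (hasStrictFDerivAt_inv hd).comp e hdet⟩
    fin_cases i <;> fin_cases k <;> simp only [Tm_eq] <;>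
      simp [Matrix.smul_apply]
    · exact ⟨_, hinv.mul ((c13.mul c02).sub (c03.mul c12))⟩
    · exact ⟨_, hinv.mul ((c13.mul c04).sub (c03.mul c14))⟩
    · exact ⟨_, hinv.mul (((c13.sub c11).mul c02).add ((c01.sub c03).mul c12))⟩
    · exact ⟨_, hinv.mul (((c13.sub c11).mul c04).add ((c01.sub c03).mul c14))⟩
  choose T' hT' using hT
  refine ⟨_, _, T', hA, hB, hT', fun n i => ⟨?_, ?_, ?_, ?_⟩⟩
  · have := (hD i 1 (by norm_num)).2 n
    have h3 := (hD i 3 (by norm_num)).2 n
    simp only [Matrix.cons_val_zero, sub_apply]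
    rw [this, h3]
  · exact (hD i 3 (by norm_num)).2 n
  · exact (hD i 2 (by norm_num)).2 n
  · exact (hD i 4 (by norm_num)).2 n

theorem ker_dim {e : Fin 5 → ℂ} {K : Submodule ℂ (Fin 5 → ℂ)}
    (hK : ∀ n ∈ K, ∃ α β : ℂ, ∀ k, n k = -(α + β * e k)) : Module.finrank ℂ K ≤ 2 := by
  let ψ : (Fin 2 → ℂ) →ₗ[ℂ] (Fin 5 → ℂ) :=
    { toFun := fun v k => -(v 0 + v 1 * e k)
      map_add' := by intro u v; ext k; simp only [Pi.add_apply]; ring
      map_smul' := by
        intro c v; ext k
        simp only [Pi.smul_apply, smul_eq_mul, RingHom.id_apply]; ring }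
  have h1 : K ≤ LinearMap.range ψ := by
    intro n hn
    obtain ⟨α, β, h⟩ := hK n hn
    refine ⟨![α, β], ?_⟩
    ext k
    simp only [ψ, LinearMap.coe_mk, AddHom.coe_mk, h k]
    simp
  calc Module.finrank ℂ K ≤ Module.finrank ℂ (LinearMap.range ψ) :=
        Submodule.finrank_mono h1
    _ ≤ Module.finrank ℂ (Fin 2 → ℂ) := LinearMap.finrank_range_le ψ
    _ = 2 := by simp

theorem Gm_open (hD : S_DER) (hT : S_TOR) {e : Fin 5 → ℂ} (he : Near e) (hd : (Am e).det ≠ 0) :
    map Gm (𝓝 e) = 𝓝 (Gm e) := by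
  obtain ⟨A', B', T', hA, hB, hT', hval⟩ := exists_derivs hD he hd
  set L : (Fin 5 → ℂ) →L[ℂ] (Fin 3 → ℂ) :=
    ContinuousLinearMap.pi ![T' 0 0, T' 0 1, T' 1 1] with hL
  have hG : HasStrictFDerivAt Gm L e := by
    rw [hasStrictFDerivAt_pi']
    intro i
    fin_cases i
    · exact hT' 0 0
    · exact hT' 0 1
    · exact hT' 1 1
  -- near `e` the determinant is not zero
  have hcont : ∀ (p j : ℕ), p ≤ 1 → j ≤ 5 → ContinuousAt (fun e => Cc e p j) e := by
    intro p j hp hj
    obtain ⟨D, hD', -⟩ := hD e he p j hp hj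
    exact hD'.continuousAt
  have hdet : ∀ᶠ e' in 𝓝 e, (Am e').det ≠ 0 := by
    have h1 : ContinuousAt (fun e => (Am e).det) e := by
      simp only [det_Am]
      have c01 := hcont 0 1 (by norm_num) (by norm_num)
      have c03 := hcont 0 3 (by norm_num) (by norm_num)
      have c11 := hcont 1 1 (by norm_num) (by norm_num)
      have c13 := hcont 1 3 (by norm_num) (by norm_num)
      exact ((c01.sub c03).mul c13).sub (c03.mul (c11.sub c13))
    exact h1.eventually_ne hd
  have hnear : ∀ᶠ e' in 𝓝 e, Near e' := isOpen_Near.mem_nhds he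
  have hker : ∀ n ∈ LinearMap.ker L.toLinearMap, ∃ α β : ℂ, ∀ k, n k = -(α + β * e k) := by
    intro n hn
    have hn' : L n = 0 := hn
    have t00 : T' 0 0 n = 0 := congrFun hn' 0
    have t01 : T' 0 1 n = 0 := congrFun hn' 1
    have t11 : T' 1 1 n = 0 := congrFun hn' 2
    have t10 : T' 1 0 n = 0 := by
      have h1 : T' 1 0 = T' 0 1 := by
        refine (hT' 1 0).hasFDerivAt.unique ?_
        refine (hT' 0 1).hasFDerivAt.congr_of_eventuallyEq ?_
        filter_upwards [hnear] with e' he'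
        exact (Tm_symm he').apply 0 1
      rw [h1, t01]
    have htn : ∀ i k, T' i k n = 0 := by
      intro i k
      fin_cases i <;> fin_cases k
      · exact t00
      · exact t01
      · exact t10
      · exact t11
    -- differentiate `A T = B`
    have hrel : ∀ i k, B' i k n = Tm e 0 k * A' i 0 n + Tm e 1 k * A' i 1 n := by
      intro i k
      have h1 := ((hA i 0).mul (hT' 0 k)).add ((hA i 1).mul (hT' 1 k))
      have h2 : B' i k = (Am e i 0 • T' 0 k + Tm e 0 k • A' i 0 +
          (Am e i 1 • T' 1 k + Tm e 1 k • A' i 1)) := by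
        refine (hB i k).hasFDerivAt.unique (h1.hasFDerivAt.congr_of_eventuallyEq ?_)
        filter_upwards [hdet] with e' he'
        have := congrFun (congrFun (Am_mul_Tm he') i) k
        rw [Matrix.mul_apply, Fin.sum_univ_two] at this
        exact this.symm
      rw [h2]
      simp [htn]
    set m : Matrix (Fin 2) (Fin 2) ℂ := Matrix.of (fun i k => A' i k n) * (Am e)⁻¹ with hm
    have hmA : m * Am e = Matrix.of (fun i k => A' i k n) := by
      rw [hm, Matrix.mul_assoc, Matrix.nonsing_inv_mul _ (isUnit_iff_ne_zero.2 hd), Matrix.mul_one]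
    have hmB : m * Bm e = Matrix.of (fun i k => B' i k n) := by
      rw [← Am_mul_Tm hd, ← Matrix.mul_assoc, hmA]
      ext i k
      rw [Matrix.mul_apply, Fin.sum_univ_two]
      simp only [Matrix.of_apply]
      rw [hrel]; ring
    have hA' : ∀ i k, A' i k n = m i 0 * Am e 0 k + m i 1 * Am e 1 k := by
      intro i k
      have := congrFun (congrFun hmA i) k
      rw [Matrix.mul_apply, Fin.sum_univ_two] at this
      exact this.symm
    have hB' : ∀ i k, B' i k n = m i 0 * Bm e 0 k + m i 1 * Bm e 1 k := by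
      intro i k
      have := congrFun (congrFun hmB i) k
      rw [Matrix.mul_apply, Fin.sum_univ_two] at this
      exact this.symm
    apply hT e he n m
    intro p j hj1 hj4
    rw [Ln_hT he n (m p) (p_le p) j]
    obtain ⟨v1, v2, v3, v4⟩ := hval n p
    have a0 := hA' p 0
    have a1 := hA' p 1
    have b0 := hB' p 0
    have b1 := hB' p 1
    rw [v1] at a0
    rw [v2] at a1
    rw [v3] at b0
    rw [v4] at b1
    simp only [Am, Bm, Cc, Matrix.of_apply, Matrix.cons_val', Matrix.cons_val_zero,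
      Matrix.cons_val_one, Matrix.cons_val_fin_one] at a0 a1 b0 b1
    interval_cases j
    · linear_combination -a0 - a1
    · linear_combination -b0
    · linear_combination -a1
    · linear_combination -b1
  have hfin := ker_dim hker
  have hrank := LinearMap.finrank_range_add_finrank_ker L.toLinearMap
  have h5 : Module.finrank ℂ (Fin 5 → ℂ) = 5 := by simp
  have h3 : Module.finrank ℂ (Fin 3 → ℂ) = 3 := by simp
  have hle := Submodule.finrank_le (LinearMap.range L.toLinearMap)
  have htop : LinearMap.range L.toLinearMap = ⊤ := by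
    apply Submodule.eq_top_of_finrank_eq
    omega
  exact hG.map_nhds_eq_of_surj htop

end Pool.Agent.H840.AS
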