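import Pool.Agent.H840.AS.Strip
import Pool.Agent.H840.AS.Defs

/-!
# The square roots of `∏ (x - e k)` and the periods
-/

open Complex Filter Topology MeasureTheory Set Metric

namespace Pool.Agent.H840.AS

/-- The square root of `∏ (x - e k)` on the plane slit downwards. -/
noncomputable def rt (e : Fin 5 → ℂ) (x : ℂ) : ℂ := ∏ k, sq (x - e k)

/-- The square root of `∏ (x - e k)` on the plane slit upwards. -/
noncomputable def rt' (e : Fin 5 → ℂ) (x : ℂ) : ℂ := -I * rt (-e) (-x)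

theorem rt_sq (e : Fin 5 → ℂ) (x : ℂ) : rt e x ^ 2 = ∏ k, (x - e k) := by
  unfold rt
  rw [← Finset.prod_pow]
  exact Finset.prod_congr rfl fun k _ => sq_sq _

theorem rt'_sq (e : Fin 5 → ℂ) (x : ℂ) : rt' e x ^ 2 = ∏ k, (x - e k) := by
  unfold rt'
  rw [mul_pow, rt_sq]
  simp only [neg_sq, I_sq, Fin.prod_univ_five, Pi.neg_apply]
  ring

theorem rt_ne {e : Fin 5 → ℂ} {x : ℂ} (hx : ∀ k, x - e k ≠ 0) : rt e x ≠ 0 :=
  Finset.prod_ne_zero_iff.2 fun k _ => sq_ne_zero (hx k)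

theorem rt'_ne {e : Fin 5 → ℂ} {x : ℂ} (hx : ∀ k, x - e k ≠ 0) : rt' e x ≠ 0 := by
  have h : rt' e x ^ 2 ≠ 0 := by
    rw [rt'_sq]
    exact Finset.prod_ne_zero_iff.2 fun k _ => hx k
  exact fun h2 => h (by rw [h2]; simp)

theorem norm_rt (e : Fin 5 → ℂ) (x : ℂ) : ‖rt e x‖ = ∏ k, Real.sqrt ‖x - e k‖ := by
  unfold rt
  rw [norm_prod]
  exact Finset.prod_congr rfl fun k _ => norm_sq _

theorem norm_rt' (e : Fin 5 → ℂ) (x : ℂ) : ‖rt' e x‖ = ∏ k, Real.sqrt ‖x - e k‖ := by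
  unfold rt'
  rw [norm_mul, norm_rt]
  simp only [norm_neg, norm_I, one_mul, Pi.neg_apply]
  refine Finset.prod_congr rfl fun k _ => ?_
  rw [show -x - -e k = -(x - e k) by ring, norm_neg]

/-- The logarithmic derivative of `rt e`. -/
theorem hasDerivAt_rt {e : Fin 5 → ℂ} {x : ℂ} (hx : x ∈ Dn e) :
    HasDerivAt (rt e) (rt e x * ∑ k, 1 / (2 * (x - e k))) x := by
  have h1 : ∀ k : Fin 5, HasDerivAt (fun y => sq (y - e k)) (1 / (2 * sq (x - e k))) x := by
    intro k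
    have := (hasDerivAt_sq (hx k)).comp x ((hasDerivAt_id' x).sub_const (e k))
    rw [mul_one] at this
    exact this
  have h3 := HasDerivAt.fun_finsetProd (u := Finset.univ) (f := fun k y => sq (y - e k))
    (f' := fun k => 1 / (2 * sq (x - e k))) (x := x) fun k _ => h1 k
  have h2 : rt e x * ∑ k, 1 / (2 * (x - e k)) =
      ∑ k, (∏ j ∈ Finset.univ.erase k, sq (x - e j)) • (1 / (2 * sq (x - e k))) := ?_
  · rw [h2]; exact h3
  rw [Finset.mul_sum]
  refine Finset.sum_congr rfl fun k _ => ?_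
  unfold rt
  rw [← Finset.mul_prod_erase Finset.univ _ (Finset.mem_univ k), smul_eq_mul]
  have h4 := sq_ne_zero (Dn_ne hx k)
  have h5 : x - e k = sq (x - e k) * sq (x - e k) := (sq_mul_self _).symm
  have h6 : 1 / (2 * (x - e k)) = 1 / (2 * (sq (x - e k) * sq (x - e k))) := by rw [← h5]
  rw [h6]
  field_simp

theorem differentiableOn_rt (e : Fin 5 → ℂ) : DifferentiableOn ℂ (rt e) (Dn e) := fun _ hx =>
  (hasDerivAt_rt hx).differentiableAt.differentiableWithinAt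

/-- The sign on the strip `j`. -/
def sg (j : ℕ) : ℂ := (-1) ^ (j + 1)

theorem sg_sq (j : ℕ) : sg j * sg j = 1 := by
  unfold sg
  rw [← mul_pow]; simp

theorem sg_succ (j : ℕ) : sg (j + 1) = -sg j := by
  unfold sg
  rw [pow_succ]; ring

theorem rt'_Str {e : Fin 5 → ℂ} {j : ℕ} (hj : j ≤ 5) {x : ℂ} (hx : x ∈ Str e j) :
    rt' e x = sg j * rt e x := by
  have h1 : rt' e x = ∏ k, (-I * sq (-(x - e k))) := by
    unfold rt' rt
    rw [Finset.prod_mul_distrib]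
    simp only [Finset.prod_const, Finset.card_univ, Fintype.card_fin, Pi.neg_apply]
    have : (-I) ^ 5 = -I := by
      calc (-I) ^ 5 = -(I ^ 2 * I ^ 2 * I) := by ring
        _ = -I := by rw [I_sq]; ring
    rw [this]
    congr 1
    refine Finset.prod_congr rfl fun k _ => ?_
    rw [show -x - -e k = -(x - e k) by ring]
  have h2 : ∀ k : Fin 5, -I * sq (-(x - e k)) =
      (if (k:ℕ) < j then 1 else -1) * sq (x - e k) := by
    intro k
    split_ifs with h
    · rw [one_mul]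
      apply sq_neg_of_re_pos
      have := (hx k).1 h
      rw [sub_re]; linarith
    · rw [neg_one_mul]
      apply sq_neg_of_re_neg
      have := (hx k).2 (not_lt.1 h)
      rw [sub_re]; linarith
  rw [h1, Finset.prod_congr rfl fun k _ => h2 k, Finset.prod_mul_distrib]
  unfold rt sg
  congr 1
  interval_cases j <;> simp [Fin.prod_univ_five] <;> norm_num

/-- The differential forms. -/
noncomputable def w (e : Fin 5 → ℂ) (p : ℕ) (x : ℂ) : ℂ := x ^ p * (rt e x)⁻¹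

/-- The differential forms on the plane slit upwards. -/
noncomputable def w' (e : Fin 5 → ℂ) (p : ℕ) (x : ℂ) : ℂ := x ^ p * (rt' e x)⁻¹

theorem w_Str {e : Fin 5 → ℂ} {j : ℕ} (hj : j ≤ 5) (p : ℕ) {x : ℂ} (hx : x ∈ Str e j) :
    w e p x = sg j * w' e p x := by
  unfold w w'
  rw [rt'_Str hj hx, mul_inv]
  have h1 : (sg j)⁻¹ = sg j := by
    have := sg_sq j
    field_simp
    have h2 : sg j ≠ 0 := by intro h; rw [h] at this; simp at this
    rw [← this]; field_simp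
  rw [h1]
  linear_combination (-(x ^ p * (rt e x)⁻¹)) * sg_sq j

theorem w'_neg (e : Fin 5 → ℂ) (p : ℕ) (y : ℂ) :
    w' e p (-y) = ((-1) ^ p * I) * w (-e) p y := by
  unfold w' w rt'
  rw [neg_neg, mul_inv, inv_neg, inv_I, neg_neg]
  rw [neg_pow]
  ring

theorem good_w {e : Fin 5 → ℂ} (he : Sep e) {p : ℕ} (hp : p ≤ 1) : Good e (w e p) := by
  refine ⟨?_, 256, by norm_num, fun x hx => ?_⟩
  · unfold w
    refine DifferentiableOn.mul (by fun_prop) ?_
    exact (differentiableOn_rt e).inv fun x hx => rt_ne (Dn_ne hx)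
  · refine le_trans ?_ (near_bound he x)
    unfold w
    rw [norm_mul, norm_inv, norm_rt, ← Finset.prod_inv_distrib, norm_pow]
    have h1 : ‖x‖ ^ p ≤ 1 + ‖x‖ := by
      interval_cases p
      · simp
      · simp
    have h2 : 0 ≤ ∏ k, (Real.sqrt ‖x - e k‖)⁻¹ :=
      Finset.prod_nonneg fun k _ => by positivity
    exact mul_le_mul_of_nonneg_right h1 h2

theorem pair_w {e : Fin 5 → ℂ} (he : Sep e) {p : ℕ} (hp : p ≤ 1) : Pair e (w e p) (w' e p) := by
  refine ⟨good_w he hp, ?_⟩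
  have := (good_w he.neg hp).smul ((-1) ^ p * I)
  refine ⟨?_, ?_⟩
  · refine this.diff.congr fun y hy => ?_
    exact w'_neg e p y
  · obtain ⟨C, hC, h⟩ := this.bd
    refine ⟨C, hC, fun x hx => ?_⟩
    rw [w'_neg]; exact h x hx

/-- The points `e k` are close to `-2, -1, 0, 1, 2`. -/
def Near (e : Fin 5 → ℂ) : Prop := ∀ k : Fin 5, ‖e k - ((k:ℕ) - 2 : ℝ)‖ < 1 / 4

theorem Near.re {e : Fin 5 → ℂ} (h : Near e) (k : Fin 5) : |(e k).re - ((k:ℕ) - 2)| < 1 / 4 := by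
  refine lt_of_le_of_lt ?_ (h k)
  have : (e k - (((k:ℕ) - 2 : ℝ) : ℂ)).re = (e k).re - ((k:ℕ) - 2) := by
    rw [sub_re, ofReal_re]
  rw [← this]
  exact abs_re_le_norm _

theorem isOpen_Near : IsOpen {e : Fin 5 → ℂ | Near e} := by
  have : {e : Fin 5 → ℂ | Near e} =
      ⋂ k : Fin 5, {e : Fin 5 → ℂ | ‖e k - (((k:ℕ) - 2 : ℝ) : ℂ)‖ < 1 / 4} := by
    ext e; simp only [Near, mem_ofPred_eq, mem_iInter]
  rw [this]
  exact isOpen_iInter_of_finite fun k => isOpen_lt (by fun_prop) continuous_const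

theorem near_e0 : Near e0 := by
  intro k
  fin_cases k <;> simp [e0] <;> norm_num

theorem Near.gap {e : Fin 5 → ℂ} (h : Near e) {k l : Fin 5} (hkl : k < l) :
    (e k).re + 1 / 2 < (e l).re := by
  have h1 := abs_lt.1 (h.re k)
  have h2 := abs_lt.1 (h.re l)
  have h3 : ((k:ℕ):ℝ) + 1 ≤ ((l:ℕ):ℝ) := by exact_mod_cast hkl
  linarith [h1.1, h1.2, h2.1, h2.2]

theorem Near.rsep {e : Fin 5 → ℂ} (h : Near e) : RSep e := by
  intro k l hkl
  rcases lt_or_gt_of_ne hkl with h1 | h1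
  · have := h.gap h1; linarith
  · have := h.gap h1; linarith

theorem Near.inj {e : Fin 5 → ℂ} (h : Near e) : Function.Injective e := by
  intro k l hkl
  by_contra hne
  exact h.rsep k l hne (by rw [hkl])

theorem Near.sep {e : Fin 5 → ℂ} (h : Near e) : Sep e := by
  constructor
  · intro k l hkl
    refine le_trans ?_ (abs_re_le_norm _)
    rw [sub_re]
    rcases lt_or_gt_of_ne hkl with h1 | h1
    · have := h.gap h1
      rw [abs_of_neg (by linarith)]; linarith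
    · have := h.gap h1
      rw [abs_of_pos (by linarith)]; linarith
  · intro k
    have h1 := h k
    have h2 : ‖e k‖ ≤ ‖e k - (((k:ℕ) - 2 : ℝ) : ℂ)‖ + ‖(((k:ℕ) - 2 : ℝ) : ℂ)‖ := by
      calc ‖e k‖ = ‖(e k - (((k:ℕ) - 2 : ℝ) : ℂ)) + (((k:ℕ) - 2 : ℝ) : ℂ)‖ := by congr 1; ring
        _ ≤ _ := norm_add_le _ _
    have h3 : ‖(((k:ℕ) - 2 : ℝ) : ℂ)‖ ≤ 2 := by
      rw [Complex.norm_real, Real.norm_eq_abs, abs_le]
      have : ((k:ℕ):ℝ) ≤ 4 := by exact_mod_cast (by omega : (k:ℕ) ≤ 4)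
      have : (0:ℝ) ≤ ((k:ℕ):ℝ) := by positivity
      constructor <;> linarith
    linarith

/-- The base points of the vertical lines. -/
noncomputable def ln (j : ℕ) : ℂ := ((j - 5 / 2 : ℝ) : ℂ)

theorem Near.ln_mem {e : Fin 5 → ℂ} (h : Near e) (j : ℕ) : ln j ∈ Str e j := by
  intro k
  have h1 := abs_lt.1 (h.re k)
  unfold ln
  rw [ofReal_re]
  constructor
  · intro h2
    have : ((k:ℕ):ℝ) + 1 ≤ (j:ℝ) := by exact_mod_cast h2
    linarith [h1.1, h1.2]
  · intro h2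
    have : (j:ℝ) ≤ ((k:ℕ):ℝ) := by exact_mod_cast h2
    linarith [h1.1, h1.2]

/-- The periods. -/
noncomputable def Cc (e : Fin 5 → ℂ) (p j : ℕ) : ℂ := -Ln (w e p) (ln j)

/-- The matrix of the half periods `C 1 - C 3` and `C 3`. -/
noncomputable def Am (e : Fin 5 → ℂ) : Matrix (Fin 2) (Fin 2) ℂ :=
  !![Cc e 0 1 - Cc e 0 3, Cc e 0 3; Cc e 1 1 - Cc e 1 3, Cc e 1 3]

/-- The matrix of the half periods `C 2` and `C 4`. -/
noncomputable def Bm (e : Fin 5 → ℂ) : Matrix (Fin 2) (Fin 2) ℂ :=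
  !![Cc e 0 2, Cc e 0 4; Cc e 1 2, Cc e 1 4]

/-- The period matrix. -/
noncomputable def Tm (e : Fin 5 → ℂ) : Matrix (Fin 2) (Fin 2) ℂ := (Am e)⁻¹ * Bm e

end Pool.Agent.H840.AS
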