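import Pool.Agent.H671.CNT
set_option autoImplicit false

/-!
# The regulator as a matrix product
-/

open Complex Filter Topology MeasureTheory Set

open scoped ComplexConjugate

namespace Pool.Agent.H840.AS

theorem reg_eq {Λ : AddSubgroup (Fin 2 → ℂ)} (D : Chain Λ) :
    D.reg = D.M * Rm D.e D.n D.c * D.M.conjTranspose := by
  set K : ℂ → ℂ := fun x => ((2 * Real.log ‖D.c * ∏ j, (x - D.e j) ^ D.n j‖ /
    ‖∏ j, (x - D.e j)‖ : ℝ) : ℂ) with hK
  have hint : ∀ p q : ℕ, p ≤ 1 → q ≤ 1 → Integrable fun x : ℂ => K x * (x ^ p * conj x ^ q) :=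
    fun p q hp hq => (Pool.Agent.H671.CNT.main D.e D.n D.c p q D.inj D.sum_n D.c_ne hp hq).1
  have h00 := hint 0 0 (by norm_num) (by norm_num)
  have h01 := hint 0 1 (by norm_num) (by norm_num)
  have h10 := hint 1 0 (by norm_num) (by norm_num)
  have h11 := hint 1 1 (by norm_num) (by norm_num)
  ext i k
  have h1 : D.reg i k = ∫ x : ℂ, (((D.M i 0 * conj (D.M k 0)) * (K x * (x ^ 0 * conj x ^ 0)) +
      (D.M i 0 * conj (D.M k 1)) * (K x * (x ^ 0 * conj x ^ 1))) +
      (D.M i 1 * conj (D.M k 0)) * (K x * (x ^ 1 * conj x ^ 0))) +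
      (D.M i 1 * conj (D.M k 1)) * (K x * (x ^ 1 * conj x ^ 1)) := by
    simp only [Chain.reg, Matrix.of_apply]
    congr 1
    ext x
    simp only [hK, Matrix.mulVec, dotProduct, Fin.sum_univ_two, Matrix.cons_val_zero,
      Matrix.cons_val_one, map_add, map_mul, mul_one]
    ring
  have i0 : Integrable fun x : ℂ => (D.M i 0 * conj (D.M k 0)) * (K x * (x ^ 0 * conj x ^ 0)) +
      (D.M i 0 * conj (D.M k 1)) * (K x * (x ^ 0 * conj x ^ 1)) :=
    (h00.const_mul _).add (h01.const_mul _)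
  have i1 : Integrable fun x : ℂ => ((D.M i 0 * conj (D.M k 0)) * (K x * (x ^ 0 * conj x ^ 0)) +
      (D.M i 0 * conj (D.M k 1)) * (K x * (x ^ 0 * conj x ^ 1))) +
      (D.M i 1 * conj (D.M k 0)) * (K x * (x ^ 1 * conj x ^ 0)) :=
    i0.add (h10.const_mul _)
  rw [h1, integral_add i1 (h11.const_mul _), integral_add i0 (h10.const_mul _),
    integral_add (h00.const_mul _) (h01.const_mul _), integral_const_mul, integral_const_mul,
    integral_const_mul, integral_const_mul, Matrix.mul_apply, Fin.sum_univ_two, Matrix.mul_apply,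
    Matrix.mul_apply, Fin.sum_univ_two, Fin.sum_univ_two]
  simp only [Matrix.conjTranspose_apply, Rm, Matrix.of_apply, Fin.val_zero, Fin.val_one,
    Complex.star_def]
  ring

end Pool.Agent.H840.AS
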