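import Pool.Agent.H840.AS.EZ
import Pool.Agent.H840.AS.Reg
set_option autoImplicit false

/-!
# The map from the curve to the torus
-/

open Complex Filter Topology MeasureTheory Set Metric

namespace Pool.Agent.H840.AS

theorem exists_Str {e : Fin 5 → ℂ} (he : Near e) {x : ℂ} (h1 : x ∈ Dn e) (h2 : -x ∈ Dn (-e)) :
    ∃ j ≤ 5, x ∈ Str e j := by
  have hne : ∀ k, x.re ≠ (e k).re := by
    intro k hk
    rcases h1 k with h | h
    · exact h (by rw [sub_re, hk, sub_self])
    · rcases h2 k with h' | h'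
      · apply h'
        simp only [Pi.neg_apply, sub_neg_eq_add, add_re, neg_re]
        linarith
      · simp only [Pi.neg_apply, sub_neg_eq_add, add_im, neg_im] at h'
        rw [sub_im] at h
        linarith
  have hex : ∃ j : ℕ, ∀ k : Fin 5, j ≤ (k:ℕ) → x.re < (e k).re := ⟨5, fun k hk => by omega⟩
  classical
  refine ⟨Nat.find hex, Nat.find_min' hex (fun k hk => by omega), fun k => ⟨fun hk => ?_,
    fun hk => Nat.find_spec hex k hk⟩⟩
  have h3 : Nat.find hex - 1 < Nat.find hex := by omega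
  have h4 := Nat.find_min hex h3
  simp only [not_forall, not_lt] at h4
  obtain ⟨l, hl, hl2⟩ := h4
  have h5 : (l:ℕ) = Nat.find hex - 1 := by
    by_contra h6
    have h7 : Nat.find hex ≤ (l:ℕ) := by omega
    exact absurd (Nat.find_spec hex l h7) (not_lt.2 hl2)
  have h6 : (e k).re ≤ (e l).re := by
    rcases lt_or_ge k l with h7 | h7
    · have := he.gap h7; linarith
    · have : k = l := by
        apply Fin.ext
        have : (l:ℕ) ≤ k := h7
        omega
      rw [this]
  exact lt_of_le_of_ne (h6.trans hl2) (hne k).symm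

theorem cover {e : Fin 5 → ℂ} (he : Near e) (x : ℂ) :
    (∃ l, x = e l) ∨ x ∈ Dn e ∨ -x ∈ Dn (-e) := by
  by_cases h1 : x ∈ Dn e
  · exact Or.inr (Or.inl h1)
  by_cases h2 : -x ∈ Dn (-e)
  · exact Or.inr (Or.inr h2)
  left
  simp only [Dn, Dom, mem_ofPred_eq, not_forall, not_or, not_lt, ne_eq, not_not] at h1 h2
  obtain ⟨k, h3, h4⟩ := h1
  obtain ⟨l, h5, h6⟩ := h2
  simp only [Pi.neg_apply, sub_neg_eq_add, add_re, neg_re, add_im, neg_im, sub_re, sub_im] at h3 h4 h5 h6
  have hkl : k = l := by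
    by_contra hne
    exact he.rsep k l hne (by linarith)
  subst hkl
  exact ⟨k, Complex.ext (by linarith) (by linarith)⟩

/-- The vectors of periods. -/
noncomputable def vC (e : Fin 5 → ℂ) (j : ℕ) : Fin 2 → ℂ := fun p => Cc e p j

/-- The vector of primitives. -/
noncomputable def vU (e : Fin 5 → ℂ) (x : ℂ) : Fin 2 → ℂ := fun p => Up (w e p) x

/-- The vector of primitives on the plane slit upwards. -/
noncomputable def vD (e : Fin 5 → ℂ) (x : ℂ) : Fin 2 → ℂ := fun p => Down (w' e p) x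

theorem p_le (p : Fin 2) : (p:ℕ) ≤ 1 := by omega

theorem lat_vC {e : Fin 5 → ℂ} (he : Near e) (hd : (Am e).det ≠ 0) {j : ℕ} (hj : j ≤ 5) :
    (Am e)⁻¹.mulVec (vC e j) ∈ Lat (Tm e) := by
  have hinv : (Am e)⁻¹ * Am e = 1 := Matrix.nonsing_inv_mul _ (isUnit_iff_ne_zero.2 hd)
  have key : ∀ v : Fin 2 → ℂ, (Am e)⁻¹.mulVec ((Am e).mulVec v) = v := by
    intro v
    rw [Matrix.mulVec_mulVec, hinv, Matrix.one_mulVec]
  have key2 : ∀ v : Fin 2 → ℂ, (Am e)⁻¹.mulVec ((Bm e).mulVec v) = (Tm e).mulVec v := by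
    intro v
    rw [Matrix.mulVec_mulVec]; rfl
  interval_cases j
  · have : vC e 0 = 0 := by ext p; exact Cc_zero he (p_le p)
    rw [this, Matrix.mulVec_zero]
    exact zero_mem _
  · have : vC e 1 = (Am e).mulVec ![1, 1] := by
      ext p
      fin_cases p <;> simp [vC, Am, Matrix.mulVec, dotProduct, Fin.sum_univ_two]
    rw [this, key]
    refine ⟨![1, 1], 0, fun i => ?_⟩
    fin_cases i <;> simp
  · have : vC e 2 = (Bm e).mulVec ![1, 0] := by
      ext p
      fin_cases p <;> simp [vC, Bm, Matrix.mulVec, dotProduct, Fin.sum_univ_two]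
    rw [this, key2]
    refine ⟨0, ![1, 0], fun i => ?_⟩
    fin_cases i <;> simp [Matrix.mulVec, dotProduct, Fin.sum_univ_two]
  · have : vC e 3 = (Am e).mulVec ![0, 1] := by
      ext p
      fin_cases p <;> simp [vC, Am, Matrix.mulVec, dotProduct, Fin.sum_univ_two]
    rw [this, key]
    refine ⟨![0, 1], 0, fun i => ?_⟩
    fin_cases i <;> simp
  · have : vC e 4 = (Bm e).mulVec ![0, 1] := by
      ext p
      fin_cases p <;> simp [vC, Bm, Matrix.mulVec, dotProduct, Fin.sum_univ_two]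
    rw [this, key2]
    refine ⟨0, ![0, 1], fun i => ?_⟩
    fin_cases i <;> simp [Matrix.mulVec, dotProduct, Fin.sum_univ_two]
  · have : vC e 5 = 0 := by ext p; exact Cc_five he (p_le p)
    rw [this, Matrix.mulVec_zero]
    exact zero_mem _

/-- Twice the inverse of the matrix of periods. -/
noncomputable def Mt (e : Fin 5 → ℂ) : Matrix (Fin 2) (Fin 2) ℂ := (2 : ℂ) • (Am e)⁻¹

theorem lat_two {e : Fin 5 → ℂ} (he : Near e) (hd : (Am e).det ≠ 0) {j : ℕ} (hj : j ≤ 5) :
    (Mt e).mulVec (vC e j) ∈ Lat (Tm e) := by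
  have h := lat_vC he hd hj
  have h2 : (Mt e).mulVec (vC e j) =
      (Am e)⁻¹.mulVec (vC e j) + (Am e)⁻¹.mulVec (vC e j) := by
    rw [Mt, Matrix.smul_mulVec, two_smul]
  rw [h2]
  exact add_mem h h

open Classical in
/-- The map from the curve to the torus. -/
noncomputable def phi (e : Fin 5 → ℂ) (p : ℂ × ℂ) : (Fin 2 → ℂ) ⧸ Lat (Tm e) :=
  if p.1 ∈ Dn e then QuotientAddGroup.mk ((Mt e).mulVec ((p.2 / rt e p.1) • vU e p.1))
  else QuotientAddGroup.mk ((Mt e).mulVec ((p.2 / rt' e p.1) • vD e p.1))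

theorem sign_cases {a b : ℂ} (h : a ^ 2 = b ^ 2) (hb : b ≠ 0) : a / b = 1 ∨ a / b = -1 := by
  rcases sq_eq_sq_iff_eq_or_eq_neg.1 h with h1 | h1
  · left; rw [h1, div_self hb]
  · right; rw [h1, neg_div, div_self hb]

theorem lat_sign {Λ : AddSubgroup (Fin 2 → ℂ)} {v : Fin 2 → ℂ} (hv : v ∈ Λ) {s : ℂ}
    (hs : s = 1 ∨ s = -1) : s • v ∈ Λ := by
  rcases hs with rfl | rfl
  · rwa [one_smul]
  · rw [neg_one_smul]; exact neg_mem hv

theorem phi_down {e : Fin 5 → ℂ} (he : Near e) (hd : (Am e).det ≠ 0) {p : ℂ × ℂ}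
    (hp : p ∈ curve e) (h : -p.1 ∈ Dn (-e)) :
    phi e p = QuotientAddGroup.mk ((Mt e).mulVec ((p.2 / rt' e p.1) • vD e p.1)) := by
  unfold phi
  split_ifs with h1
  · obtain ⟨j, hj, hx⟩ := exists_Str he h1 h
    have hne := rt_ne (Dn_ne h1)
    have hne' := rt'_ne (Dn_ne h1)
    have hs : p.2 / rt e p.1 = 1 ∨ p.2 / rt e p.1 = -1 := by
      apply sign_cases _ hne
      rw [rt_sq]; exact hp
    have h2 : p.2 / rt' e p.1 = sg j * (p.2 / rt e p.1) := by
      rw [rt'_Str hj hx]
      have h3 := sg_sq j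
      have h4 : sg j ≠ 0 := by intro h; rw [h] at h3; simp at h3
      field_simp
      linear_combination (-p.2) * h3
    have h3 : vU e p.1 = sg j • vD e p.1 + vC e j := by
      ext i
      exact up_Str he (p_le i) hj hx
    rw [QuotientAddGroup.eq_iff_sub_mem]
    have h4 : (Mt e).mulVec ((p.2 / rt e p.1) • vU e p.1) -
        (Mt e).mulVec ((p.2 / rt' e p.1) • vD e p.1) =
        (p.2 / rt e p.1) • (Mt e).mulVec (vC e j) := by
      rw [h2, h3, ← Matrix.mulVec_sub, ← Matrix.mulVec_smul]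
      congr 1
      rw [smul_add, smul_smul, mul_comm (sg j)]
      abel
    rw [h4]
    exact lat_sign (lat_two he hd hj) hs
  · rfl

theorem hasDerivAt_vU {e : Fin 5 → ℂ} (he : Near e) {x : ℂ} (hx : x ∈ Dn e) :
    HasDerivAt (vU e) ((rt e x)⁻¹ • ![1, x]) x := by
  rw [hasDerivAt_pi]
  intro p
  have h1 := (good_w he.sep (p_le p)).hasDerivAt he.sep hx
  have h2 : ((rt e x)⁻¹ • ![1, x]) p = w e p x := by
    unfold w
    fin_cases p <;> simp [mul_comm]
  rw [h2]
  exact h1

theorem hasDerivAt_vD {e : Fin 5 → ℂ} (he : Near e) {x : ℂ} (hx : -x ∈ Dn (-e)) :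
    HasDerivAt (vD e) ((rt' e x)⁻¹ • ![1, x]) x := by
  rw [hasDerivAt_pi]
  intro p
  have h1 := (pair_w he.sep (p_le p)).down_deriv he.sep hx
  have h2 : ((rt' e x)⁻¹ • ![1, x]) p = w' e p x := by
    unfold w'
    fin_cases p <;> simp [mul_comm]
  rw [h2]
  exact h1

theorem hasDerivAt_mulVec (M : Matrix (Fin 2) (Fin 2) ℂ) (c : ℂ) {f : ℂ → Fin 2 → ℂ}
    {f' : Fin 2 → ℂ} {x : ℂ} (h : HasDerivAt f f' x) :
    HasDerivAt (fun y => M.mulVec (c • f y)) (M.mulVec (c • f')) x := by
  rw [hasDerivAt_pi] at h ⊢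
  intro i
  simp only [Matrix.mulVec, dotProduct, Fin.sum_univ_two, Pi.smul_apply, smul_eq_mul]
  exact (((h 0).const_mul c).const_mul (M i 0)).add (((h 1).const_mul c).const_mul (M i 1))

theorem isOpen_neg_Dn (e : Fin 5 → ℂ) : IsOpen {x : ℂ | -x ∈ Dn (-e)} :=
  (isOpen_Dn (-e)).preimage continuous_neg

theorem neg_ne {e : Fin 5 → ℂ} {x : ℂ} (hx : -x ∈ Dn (-e)) (k : Fin 5) : x - e k ≠ 0 := by
  have := Dn_ne hx k
  intro h
  apply this
  rw [Pi.neg_apply]
  linear_combination -h

theorem continuousAt_rt {e : Fin 5 → ℂ} {x : ℂ} (hx : x ∈ Dn e) : ContinuousAt (rt e) x :=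
  (hasDerivAt_rt hx).continuousAt

theorem continuousAt_rt' {e : Fin 5 → ℂ} {x : ℂ} (hx : -x ∈ Dn (-e)) :
    ContinuousAt (rt' e) x := by
  unfold rt'
  exact continuousAt_const.mul (ContinuousAt.comp (f := Neg.neg) (continuousAt_rt hx)
    continuous_neg.continuousAt)

theorem continuousAt_mk {Λ : AddSubgroup (Fin 2 → ℂ)} {α : Type*} [TopologicalSpace α]
    {f : α → Fin 2 → ℂ} {a : α} (h : ContinuousAt f a) :
    ContinuousAt (fun x => (QuotientAddGroup.mk (f x) : (Fin 2 → ℂ) ⧸ Λ)) a :=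
  (continuous_quot_mk.continuousAt (x := f a)).comp h

theorem tendsto_sign {Λ : AddSubgroup (Fin 2 → ℂ)} {α : Type*} {l : Filter α}
    {M : Matrix (Fin 2) (Fin 2) ℂ} {σ : α → ℂ} {F : α → Fin 2 → ℂ} {F0 : Fin 2 → ℂ}
    (hσ : ∀ᶠ a in l, σ a = 1 ∨ σ a = -1) (hF : Tendsto F l (𝓝 F0)) (h0 : M.mulVec F0 ∈ Λ) :
    Tendsto (fun a => (QuotientAddGroup.mk (M.mulVec (σ a • F a)) : (Fin 2 → ℂ) ⧸ Λ)) l
      (𝓝 0) := by
  have h1 : Tendsto (fun a => M.mulVec (σ a • (F a - F0))) l (𝓝 0) := by
    have h2 : Tendsto (fun a => σ a • (F a - F0)) l (𝓝 0) := by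
      rw [tendsto_zero_iff_norm_tendsto_zero]
      have h3 : Tendsto (fun a => ‖F a - F0‖) l (𝓝 0) := by
        rw [← tendsto_zero_iff_norm_tendsto_zero]
        simpa using hF.sub_const F0
      refine h3.congr' ?_
      filter_upwards [hσ] with a ha
      rw [norm_smul]
      rcases ha with h | h <;> rw [h] <;> simp
    have h4 : Continuous fun v : Fin 2 → ℂ => M.mulVec v := by fun_prop
    have h5 := (h4.tendsto 0).comp h2
    rw [Matrix.mulVec_zero] at h5
    exact h5
  have h6 : Tendsto (fun a => (QuotientAddGroup.mk (M.mulVec (σ a • (F a - F0))) :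
      (Fin 2 → ℂ) ⧸ Λ)) l (𝓝 0) :=
    (continuous_quot_mk.tendsto (0 : Fin 2 → ℂ)).comp h1
  refine h6.congr' ?_
  filter_upwards [hσ] with a ha
  rw [QuotientAddGroup.eq_iff_sub_mem]
  have h7 : M.mulVec (σ a • (F a - F0)) - M.mulVec (σ a • F a) = -(σ a • M.mulVec F0) := by
    rw [← Matrix.mulVec_sub, ← Matrix.mulVec_smul, ← Matrix.mulVec_neg]
    congr 1
    rw [smul_sub]; abel
  rw [h7]
  exact neg_mem (lat_sign h0 ha)

theorem phi_branch {e : Fin 5 → ℂ} (k : Fin 5) (y : ℂ) (hy : (e k, y) ∈ curve e) :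
    phi e (e k, y) = 0 := by
  have hy0 : y = 0 := by
    have : y ^ 2 = ∏ l, (e k - e l) := hy
    rw [Finset.prod_eq_zero (Finset.mem_univ k) (sub_self _)] at this
    exact pow_eq_zero_iff (by norm_num) |>.1 this
  unfold phi
  rw [hy0]
  split_ifs with h
  · simp
  · simp

theorem phi_cont {e : Fin 5 → ℂ} (he : Near e) (hd : (Am e).det ≠ 0) :
    ContinuousOn (phi e) (curve e) := by
  intro p hp
  rcases cover he p.1 with ⟨k, hk⟩ | hx | hx
  · -- the branch points
    obtain ⟨x, y⟩ := p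
    simp only at hk
    subst hk
    have hval : phi e (e k, y) = 0 := phi_branch k y hp
    set S1 : Set (ℂ × ℂ) := {p | p ∈ curve e ∧ p.1 ∈ Dn e} with hS1
    set S2 : Set (ℂ × ℂ) := {p | p ∈ curve e ∧ -p.1 ∈ Dn (-e)} with hS2
    set S3 : Set (ℂ × ℂ) := {p | p ∈ curve e ∧ ∃ l, p.1 = e l} with hS3
    have hsub : curve e ⊆ S1 ∪ (S2 ∪ S3) := by
      intro q hq
      rcases cover he q.1 with h | h | h
      · exact Or.inr (Or.inr ⟨hq, h⟩)
      · exact Or.inl ⟨hq, h⟩
      · exact Or.inr (Or.inl ⟨hq, h⟩)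
    refine ContinuousWithinAt.mono ?_ hsub
    refine ContinuousWithinAt.union ?_ (ContinuousWithinAt.union ?_ ?_)
    · unfold ContinuousWithinAt
      rw [hval]
      have h1 : Tendsto (fun p : ℂ × ℂ => (QuotientAddGroup.mk ((Mt e).mulVec
          ((p.2 / rt e p.1) • vU e p.1)) : (Fin 2 → ℂ) ⧸ Lat (Tm e))) (𝓝[S1] (e k, y)) (𝓝 0) := by
        refine tendsto_sign (F0 := vU e (e k)) ?_ ?_ ?_
        · filter_upwards [self_mem_nhdsWithin] with q hq
          apply sign_cases _ (rt_ne (Dn_ne hq.2))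
          rw [rt_sq]; exact hq.1
        · rw [tendsto_pi_nhds]
          intro i
          refine ((good_w he.sep (p_le i)).tendsto_up he.rsep k).comp ?_
          refine tendsto_nhdsWithin_iff.2 ⟨?_, ?_⟩
          · exact (continuous_fst.tendsto (e k, y)).mono_left nhdsWithin_le_nhds
          · filter_upwards [self_mem_nhdsWithin] with q hq
            exact hq.2
        · have h2 : (Mt e).mulVec (vU e (e k)) =
              (Am e)⁻¹.mulVec (vC e k) + (Am e)⁻¹.mulVec (vC e (k + 1)) := by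
            rw [Mt, Matrix.smul_mulVec, ← Matrix.mulVec_smul, ← Matrix.mulVec_add]
            congr 1
            ext i
            exact two_up he (p_le i) k
          rw [h2]
          exact add_mem (lat_vC he hd (by omega)) (lat_vC he hd (by omega))
      refine h1.congr' ?_
      filter_upwards [self_mem_nhdsWithin] with q hq
      unfold phi
      rw [if_pos hq.2]
    · unfold ContinuousWithinAt
      rw [hval]
      have h1 : Tendsto (fun p : ℂ × ℂ => (QuotientAddGroup.mk ((Mt e).mulVec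
          ((p.2 / rt' e p.1) • vD e p.1)) : (Fin 2 → ℂ) ⧸ Lat (Tm e))) (𝓝[S2] (e k, y)) (𝓝 0) := by
        refine tendsto_sign (F0 := vD e (e k)) ?_ ?_ ?_
        · filter_upwards [self_mem_nhdsWithin] with q hq
          apply sign_cases _ (rt'_ne (neg_ne hq.2))
          rw [rt'_sq]; exact hq.1
        · rw [tendsto_pi_nhds]
          intro i
          have h4 := (pair_w he.sep (p_le i)).g'.tendsto_up he.rsep.neg k
          refine Tendsto.neg ?_
          refine h4.comp ?_
          refine tendsto_nhdsWithin_iff.2 ⟨?_, ?_⟩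
          · have h5 : Continuous fun q : ℂ × ℂ => -q.1 := by fun_prop
            exact (h5.tendsto (e k, y)).mono_left nhdsWithin_le_nhds
          · filter_upwards [self_mem_nhdsWithin] with q hq
            exact hq.2
        · have h2 : sg k • (Mt e).mulVec (vD e (e k)) =
              (Am e)⁻¹.mulVec (vC e (k + 1)) - (Am e)⁻¹.mulVec (vC e k) := by
            rw [Mt, Matrix.smul_mulVec, ← Matrix.mulVec_smul, ← Matrix.mulVec_smul,
              ← Matrix.mulVec_sub]
            congr 1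
            ext i
            have := two_down he (p_le i) k
            simp only [Pi.smul_apply, smul_eq_mul, Pi.sub_apply, vC, vD]
            rw [← this]; ring
          have h3 : (Mt e).mulVec (vD e (e k)) = sg k • ((Am e)⁻¹.mulVec (vC e (k + 1)) -
              (Am e)⁻¹.mulVec (vC e k)) := by
            rw [← h2, smul_smul, sg_sq, one_smul]
          rw [h3]
          refine lat_sign (sub_mem (lat_vC he hd (by omega)) (lat_vC he hd (by omega))) ?_
          have h4 := sg_sq k
          have h5 : (sg k - 1) * (sg k + 1) = 0 := by linear_combination h4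
          rcases mul_eq_zero.1 h5 with h6 | h6
          · left; linear_combination h6
          · right; linear_combination h6
      refine h1.congr' ?_
      filter_upwards [self_mem_nhdsWithin] with q hq
      exact (phi_down he hd hq.1 hq.2).symm
    · refine (continuousWithinAt_const (b := (0 : (Fin 2 → ℂ) ⧸ Lat (Tm e)))).congr ?_ hval
      rintro ⟨a, b⟩ ⟨hq, l, hl⟩
      simp only at hl
      subst hl
      exact phi_branch l b hq
  · -- on the plane slit downwards
    apply ContinuousAt.continuousWithinAt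
    have h1 : ContinuousAt (fun p : ℂ × ℂ => (QuotientAddGroup.mk ((Mt e).mulVec
        ((p.2 / rt e p.1) • vU e p.1)) : (Fin 2 → ℂ) ⧸ Lat (Tm e))) p := by
      apply continuousAt_mk
      have h2 : ContinuousAt (fun p : ℂ × ℂ => rt e p.1) p :=
        ContinuousAt.comp (f := Prod.fst) (continuousAt_rt hx) continuous_fst.continuousAt
      have h3 : ContinuousAt (fun p : ℂ × ℂ => vU e p.1) p :=
        ContinuousAt.comp (f := Prod.fst) (hasDerivAt_vU he hx).continuousAt
          continuous_fst.continuousAt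
      have h4 : Continuous fun v : Fin 2 → ℂ => (Mt e).mulVec v := by fun_prop
      refine ContinuousAt.comp (g := fun v : Fin 2 → ℂ => (Mt e).mulVec v) h4.continuousAt ?_
      exact (continuous_snd.continuousAt.div h2 (rt_ne (Dn_ne hx))).smul h3
    refine h1.congr ?_
    have h5 : {q : ℂ × ℂ | q.1 ∈ Dn e} ∈ 𝓝 p :=
      ((isOpen_Dn e).preimage continuous_fst).mem_nhds hx
    filter_upwards [h5] with q hq
    unfold phi
    rw [if_pos hq]
  · have h1 : ContinuousAt (fun p : ℂ × ℂ => (QuotientAddGroup.mk ((Mt e).mulVec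
        ((p.2 / rt' e p.1) • vD e p.1)) : (Fin 2 → ℂ) ⧸ Lat (Tm e))) p := by
      apply continuousAt_mk
      have h2 : ContinuousAt (fun p : ℂ × ℂ => rt' e p.1) p :=
        ContinuousAt.comp (f := Prod.fst) (continuousAt_rt' hx) continuous_fst.continuousAt
      have h3 : ContinuousAt (fun p : ℂ × ℂ => vD e p.1) p :=
        ContinuousAt.comp (f := Prod.fst) (hasDerivAt_vD he hx).continuousAt
          continuous_fst.continuousAt
      have h4 : Continuous fun v : Fin 2 → ℂ => (Mt e).mulVec v := by fun_prop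
      refine ContinuousAt.comp (g := fun v : Fin 2 → ℂ => (Mt e).mulVec v) h4.continuousAt ?_
      exact (continuous_snd.continuousAt.div h2 (rt'_ne (neg_ne hx))).smul h3
    have h5 : {q : ℂ × ℂ | -q.1 ∈ Dn (-e)} ∈ 𝓝 p :=
      ((isOpen_neg_Dn e).preimage continuous_fst).mem_nhds hx
    refine h1.continuousWithinAt.congr_of_eventuallyEq ?_ (phi_down he hd hp hx)
    filter_upwards [mem_nhdsWithin_of_mem_nhds h5, self_mem_nhdsWithin] with q hq hqc
    exact phi_down he hd hqc hq

theorem phi_hol {e : Fin 5 → ℂ} (he : Near e) (hd : (Am e).det ≠ 0) {p : ℂ × ℂ}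
    (hp : p ∈ curve e) (hy : p.2 ≠ 0) : ∃ (s : ℂ → ℂ) (L : ℂ → Fin 2 → ℂ), s p.1 = p.2 ∧
    ContinuousAt s p.1 ∧ ∀ᶠ x in 𝓝 p.1, s x ^ 2 = ∏ k, (x - e k) ∧
      phi e (x, s x) = QuotientAddGroup.mk (L x) ∧
      HasDerivAt L ((s x)⁻¹ • (Mt e).mulVec ![1, x]) x := by
  have hne : ∀ k, p.1 ≠ e k := by
    intro k hk
    apply hy
    have : p.2 ^ 2 = ∏ l, (p.1 - e l) := hp
    rw [Finset.prod_eq_zero (Finset.mem_univ k) (by rw [hk, sub_self])] at this
    exact pow_eq_zero_iff (by norm_num) |>.1 this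
  rcases cover he p.1 with ⟨k, hk⟩ | hx | hx
  · exact absurd hk (hne k)
  · have hrt := rt_ne (Dn_ne hx)
    set σ : ℂ := p.2 / rt e p.1 with hσ
    have hs : σ = 1 ∨ σ = -1 := by
      apply sign_cases _ hrt
      rw [rt_sq]; exact hp
    have hs2 : σ ^ 2 = 1 := by rcases hs with h | h <;> rw [h] <;> norm_num
    have hsne : σ ≠ 0 := by intro h; rw [h] at hs2; simp at hs2
    refine ⟨fun x => σ * rt e x, fun x => (Mt e).mulVec (σ • vU e x), ?_, ?_, ?_⟩
    · simp only [hσ]; field_simp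
    · exact continuousAt_const.mul (continuousAt_rt hx)
    · filter_upwards [(isOpen_Dn e).mem_nhds hx] with x hx'
      have hrx := rt_ne (Dn_ne hx')
      refine ⟨?_, ?_, ?_⟩
      · rw [mul_pow, hs2, one_mul, rt_sq]
      · unfold phi
        rw [if_pos hx']
        simp only
        rw [mul_div_assoc, div_self hrx, mul_one]
      · have h1 := hasDerivAt_mulVec (Mt e) σ (hasDerivAt_vU he hx')
        convert h1 using 1
        rw [smul_smul, Matrix.mulVec_smul]
        congr 1
        field_simp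
        rw [hs2]
  · have hrt := rt'_ne (neg_ne hx)
    set σ : ℂ := p.2 / rt' e p.1 with hσ
    have hs : σ = 1 ∨ σ = -1 := by
      apply sign_cases _ hrt
      rw [rt'_sq]; exact hp
    have hs2 : σ ^ 2 = 1 := by rcases hs with h | h <;> rw [h] <;> norm_num
    have hsne : σ ≠ 0 := by intro h; rw [h] at hs2; simp at hs2
    refine ⟨fun x => σ * rt' e x, fun x => (Mt e).mulVec (σ • vD e x), ?_, ?_, ?_⟩
    · simp only [hσ]; field_simp
    · exact continuousAt_const.mul (continuousAt_rt' hx)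
    · filter_upwards [(isOpen_neg_Dn e).mem_nhds hx] with x hx'
      have hrx := rt'_ne (neg_ne hx')
      have hsq : (σ * rt' e x) ^ 2 = ∏ k, (x - e k) := by
        rw [mul_pow, hs2, one_mul, rt'_sq]
      refine ⟨hsq, ?_, ?_⟩
      · rw [phi_down he hd (p := (x, σ * rt' e x)) hsq hx']
        simp only
        rw [mul_div_assoc, div_self hrx, mul_one]
      · have h1 := hasDerivAt_mulVec (Mt e) σ (hasDerivAt_vD he hx')
        convert h1 using 1
        rw [smul_smul, Matrix.mulVec_smul]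
        congr 1
        field_simp
        rw [hs2]

/-- The chain on the torus of the curve. -/
noncomputable def chain {e : Fin 5 → ℂ} (he : Near e) (hd : (Am e).det ≠ 0) (n : Fin 5 → ℤ)
    (hn : ∑ k, n k = 0) (c : ℂ) (hc : c ≠ 0) : Chain (Lat (Tm e)) where
  e := e
  inj := he.inj
  M := Mt e
  φ := phi e
  cont := phi_cont he hd
  hol := fun _ hp hy => phi_hol he hd hp hy
  n := n
  sum_n := hn
  c := c
  c_ne := hc
  bdry := by
    intro q
    have h1 : ∀ k, phi e (e k, 0) = 0 := by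
      intro k
      apply phi_branch
      show (0:ℂ) ^ 2 = ∏ l, (e k - e l)
      rw [Finset.prod_eq_zero (Finset.mem_univ k) (sub_self _)]; simp
    simp only [h1]
    by_cases hq : (0 : (Fin 2 → ℂ) ⧸ Lat (Tm e)) = q
    · simp only [hq, finsum_true]
      rw [finsum_eq_sum_of_fintype, hn]
    · simp only [hq, finsum_false, finsum_zero]

theorem reg_chain {e : Fin 5 → ℂ} (he : Near e) (hd : (Am e).det ≠ 0) (n : Fin 5 → ℤ)
    (hn : ∑ k, n k = 0) (c : ℂ) (hc : c ≠ 0) :
    Mt e * Rm e n c * (Mt e).conjTranspose ∈ Sp (Lat (Tm e)) :=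
  Submodule.subset_span ⟨chain he hd n hn c hc, reg_eq _⟩

end Pool.Agent.H840.AS
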