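import Mathlib

/-!
# The square root with the cut along the negative imaginary axis
-/

open Complex Filter Topology

namespace Pool.Agent.H840.AS

/-- The square root with the cut along the negative imaginary axis. -/
noncomputable def sq (z : ℂ) : ℂ := Complex.exp (Real.pi / 4 * I) * (-I * z) ^ ((2 : ℕ) : ℂ)⁻¹

/-- The complement of the closed negative imaginary half axis. -/
def Dom (z : ℂ) : Prop := z.re ≠ 0 ∨ 0 < z.im

theorem dom_iff (z : ℂ) : Dom z ↔ -I * z ∈ slitPlane := by
  rw [mem_slitPlane_iff]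
  simp only [Dom, neg_mul, neg_re, mul_re, I_re, zero_mul, I_im, one_mul, zero_sub, neg_neg,
    neg_im, mul_im, zero_add]
  constructor
  · rintro (h | h)
    · exact Or.inr (by simpa using h)
    · exact Or.inl (by simpa using h)
  · rintro (h | h)
    · exact Or.inr (by simpa using h)
    · exact Or.inl (by simpa using h)

theorem sq_sq (z : ℂ) : sq z ^ 2 = z := by
  unfold sq
  rw [mul_pow, ← Complex.exp_nat_mul]
  rw [Complex.cpow_nat_inv_pow _ (by norm_num)]
  have : ((2 : ℕ) : ℂ) * (Real.pi / 4 * I) = Real.pi / 2 * I := by push_cast; ring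
  rw [this, Complex.exp_pi_div_two_mul_I]
  rw [← mul_assoc]
  simp

theorem sq_mul_self (z : ℂ) : sq z * sq z = z := by rw [← _root_.sq, sq_sq]

theorem norm_sq (z : ℂ) : ‖sq z‖ = Real.sqrt ‖z‖ := by
  rw [← Real.sqrt_sq (norm_nonneg (sq z)), ← norm_pow, sq_sq]

theorem sq_ne_zero {z : ℂ} (hz : z ≠ 0) : sq z ≠ 0 := by
  intro h
  apply hz
  rw [← sq_sq z, h]; simp

theorem sq_zero : sq 0 = 0 := by
  have := sq_sq 0
  exact pow_eq_zero_iff (by norm_num) |>.1 this

theorem Dom.ne_zero {z : ℂ} (h : Dom z) : z ≠ 0 := by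
  rintro rfl
  rcases h with h | h <;> simp at h

theorem differentiableAt_sq {z : ℂ} (h : Dom z) : DifferentiableAt ℂ sq z := by
  rw [dom_iff] at h
  unfold sq
  apply DifferentiableAt.const_mul
  exact DifferentiableAt.cpow (by fun_prop) (by fun_prop) h

theorem hasDerivAt_sq {z : ℂ} (h : Dom z) : HasDerivAt sq (1 / (2 * sq z)) z := by
  have h1 := (differentiableAt_sq h).hasDerivAt
  have h2 : HasDerivAt (fun w => sq w ^ 2) (((2 : ℕ) : ℂ) * sq z ^ (2 - 1) * deriv sq z) z := h1.pow 2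
  have h3 : (fun w => sq w ^ 2) = fun w => w := by ext w; exact sq_sq w
  rw [h3] at h2
  have h4 := h2.unique (hasDerivAt_id' z)
  have hne := sq_ne_zero h.ne_zero
  have : deriv sq z = 1 / (2 * sq z) := by
    field_simp
    simp at h4
    linear_combination h4
  rw [← this]; exact h1

theorem continuousAt_sq {z : ℂ} (h : Dom z) : ContinuousAt sq z := (differentiableAt_sq h).continuousAt

theorem sq_neg_of_re_pos {z : ℂ} (h : 0 < z.re) : -I * sq (-z) = sq z := by
  unfold sq
  have hz : z ≠ 0 := by rintro rfl; simp at h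
  have hw : -I * z ≠ 0 := mul_ne_zero (by simp) hz
  have hw' : -I * -z ≠ 0 := mul_ne_zero (by simp) (neg_ne_zero.2 hz)
  rw [Complex.cpow_def_of_ne_zero hw, Complex.cpow_def_of_ne_zero hw']
  have him : (-I * z).im < 0 := by simpa using h
  have hlog : Complex.log (-I * -z) = Complex.log (-I * z) + Real.pi * I := by
    have e1 : -I * -z = -(-I * z) := by ring
    rw [e1, Complex.log, Complex.log, norm_neg, Complex.arg_neg_eq_arg_add_pi_of_im_neg him]
    push_cast; ring
  rw [hlog]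
  have : (Complex.log (-I * z) + Real.pi * I) * ((2 : ℕ) : ℂ)⁻¹ =
      Complex.log (-I * z) * ((2 : ℕ) : ℂ)⁻¹ + Real.pi / 2 * I := by push_cast; ring
  rw [this, Complex.exp_add, Complex.exp_pi_div_two_mul_I]
  linear_combination (-1 : ℂ) * (Complex.exp (Real.pi / 4 * I) *
    Complex.exp (Complex.log (-I * z) * ((2 : ℕ) : ℂ)⁻¹)) * I_sq

theorem sq_neg_of_re_neg {z : ℂ} (h : z.re < 0) : -I * sq (-z) = -sq z := by
  have h1 := sq_neg_of_re_pos (z := -z) (by simpa using h)
  rw [neg_neg] at h1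
  rw [← h1]
  linear_combination (sq z) * I_sq

theorem sq_ofReal {r : ℝ} (hr : 0 < r) : sq (r : ℂ) = (Real.sqrt r : ℂ) := by
  unfold sq
  have hw : -I * (r : ℂ) ≠ 0 := mul_ne_zero (by simp) (by exact_mod_cast hr.ne')
  rw [Complex.cpow_def_of_ne_zero hw]
  have e1 : -I * (r : ℂ) = (r : ℂ) * (-I) := by ring
  rw [e1, Complex.log_ofReal_mul hr (by simp), Complex.log_neg_I]
  have : Complex.exp (Real.pi / 4 * I) * Complex.exp (((Real.log r : ℝ) + -(Real.pi / 2) * I) *
      ((2 : ℕ) : ℂ)⁻¹) = Complex.exp (((Real.log r / 2 : ℝ) : ℂ)) := by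
    rw [← Complex.exp_add]
    congr 1
    push_cast; ring
  rw [this, ← Complex.ofReal_exp]
  congr 1
  rw [Real.sqrt_eq_rpow, Real.rpow_def_of_pos hr]
  congr 1; ring

theorem sq_ofReal_neg {r : ℝ} (hr : r < 0) : sq (r : ℂ) = I * (Real.sqrt (-r) : ℂ) := by
  have h1 := sq_neg_of_re_pos (z := ((-r : ℝ) : ℂ)) (by simpa using hr)
  rw [sq_ofReal (by linarith : (0:ℝ) < -r)] at h1
  rw [← h1]
  have : -((-r : ℝ) : ℂ) = (r : ℂ) := by push_cast; ring
  rw [this]
  linear_combination (sq (r : ℂ)) * I_sq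

end Pool.Agent.H840.AS
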