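import Pool.Agent.H840.AS.Defs
set_option autoImplicit false

/-!
# Statement: polarised lattices contain principally polarised ones
-/

open Complex

open scoped Matrix ComplexOrder

namespace Pool.Agent.H840.AS

/-- POL.  A subgroup `Λ` of `ℂ ^ 2` which spans `ℂ ^ 2` over `ℝ` with a Riemann form (a positive
definite Hermitian form whose imaginary part has integral values on `Λ`) contains the image of a
lattice `ℤ ^ 2 + τ ℤ ^ 2`, `τ` in the Siegel upper half space, under a complex linear isomorphism.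

Paper proof.  Let `E (u, v) = Im (star u ⬝ᵥ H v)`, an alternating `ℝ`-bilinear form which is
nondegenerate since `E (u, i u) = star u ⬝ᵥ H u > 0`.  (1) Choose `l1 ∈ Λ` not zero and `m1 ∈ Λ`
with `E (l1, m1) ≠ 0` (as `Λ` spans); `d1 = E (l1, m1)` is an integer.  (2) For `v ∈ Λ` the vector
`p v = d1 v - E (v, m1) l1 + E (v, l1) m1 ∈ Λ` is orthogonal to `l1` and `m1`.  The `p v` span a
real space of dimension `2` (kernel of `p` on `ℂ ^ 2` is the span of `l1, m1`), in particular
there is `l2 = p v ≠ 0`, and then `m2 = p w` with `E (l2, m2) ≠ 0`: otherwise `E (l2, d1 w) = 0` for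
all `w ∈ Λ` (`l2` is orthogonal to `l1`, `m1`), contradiction.  (3) Replace `l1` by `d2 l1` and `l2`
by `d1 l2`, where `d2 = E (l2, m2)` (old), so that `E (l1, m1) = E (l2, m2) = d1 d2`; replacing both
`m1, m2` by their negatives if necessary we may choose the sign of this number `d`.
(4) `l1, l2` are linearly independent over `ℂ`: if `l2 = z l1` (or conversely) then
`0 = E (l1, l2) = Im z * star l1 ⬝ᵥ H l1` so `z` is real and
`0 ≠ E (l2, m2) = z E (l1, m2) = 0`, contradiction.  Let `g` be the matrix with columns `l1, l2` and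
`τ = g⁻¹ (m1, m2)`.  Then `g` maps `Lat τ` into `Λ`.  (5) Let `G = gᴴ H g`, positive definite.  From
`E (l_i, l_j) = 0` it is real.  `E (l_i, m_j) = Im (G τ) i j = (G Im τ) i j = d δ_ij`, so
`Im τ = d G⁻¹`, positive definite if `d > 0` (choose the sign in (3)), and `Im (τᴴ G τ) = 0`
(from `E (m_i, m_j) = 0`) gives with `τ = X + i d G⁻¹`: `d (Xᵀ - X) = 0` up to sign. -/
def S_POL : Prop :=
  ∀ (Λ : AddSubgroup (Fin 2 → ℂ)) (H : Matrix (Fin 2) (Fin 2) ℂ), H.PosDef →
    Submodule.span ℝ (Λ : Set (Fin 2 → ℂ)) = ⊤ →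
    (∀ u ∈ Λ, ∀ v ∈ Λ, ∃ k : ℤ, (star u ⬝ᵥ H.mulVec v).im = k) →
    ∃ τ g : Matrix (Fin 2) (Fin 2) ℂ, τ.IsSymm ∧ (τ.map Complex.im).PosDef ∧ g.det ≠ 0 ∧
      ∀ v ∈ Lat τ, g.mulVec v ∈ Λ

end Pool.Agent.H840.AS
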