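import Pool.Agent.H840.AS.Bd

/-!
# The slit planes, the strips, and the periods as integrals over vertical lines
-/

open Complex Filter Topology MeasureTheory Set Metric

namespace Pool.Agent.H840.AS

/-- The plane without the vertical half lines below the points `e k`. -/
def Dn (e : Fin 5 → ℂ) : Set ℂ := {x | ∀ k, Dom (x - e k)}

/-- The real parts of the points `e k` are different. -/
def RSep (e : Fin 5 → ℂ) : Prop := ∀ k l, k ≠ l → (e k).re ≠ (e l).re

theorem RSep.neg {e : Fin 5 → ℂ} (h : RSep e) : RSep (-e) := by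
  intro k l hkl h2
  apply h k l hkl
  simpa using h2

theorem isOpen_Dom : IsOpen {z : ℂ | Dom z} := by
  have : {z : ℂ | Dom z} = {z | z.re ≠ 0} ∪ {z | 0 < z.im} := rfl
  rw [this]
  exact (isOpen_ne_fun continuous_re continuous_const).union
    (isOpen_lt continuous_const continuous_im)

theorem isOpen_Dn (e : Fin 5 → ℂ) : IsOpen (Dn e) := by
  have : Dn e = ⋂ k, (fun x => x - e k) ⁻¹' {z : ℂ | Dom z} := by
    ext x; simp [Dn]
  rw [this]
  exact isOpen_iInter_of_finite fun k => isOpen_Dom.preimage (by fun_prop)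

theorem Dn_up {e : Fin 5 → ℂ} : ∀ x ∈ Dn e, ∀ t : ℝ, 0 ≤ t → x + t * I ∈ Dn e := by
  intro x hx t ht k
  rcases hx k with h | h
  · left; simpa using h
  · right
    simp only [sub_im, add_im, mul_im, ofReal_re, I_im, mul_one, ofReal_im, I_re, mul_zero,
      add_zero] at h ⊢
    linarith

theorem Dn_above {e : Fin 5 → ℂ} (he : RSep e) (k : Fin 5) {t : ℝ} (ht : 0 < t) :
    e k + t * I ∈ Dn e := by
  intro l
  by_cases hl : l = k
  · subst hl
    right; simpa using ht
  · left
    have := he k l (Ne.symm hl)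
    simp only [sub_re, add_re, mul_re, ofReal_re, I_re, mul_zero, ofReal_im, I_im, mul_one,
      sub_self, add_zero]
    exact sub_ne_zero.2 this

theorem Dn_ne {e : Fin 5 → ℂ} {x : ℂ} (hx : x ∈ Dn e) (k : Fin 5) : x - e k ≠ 0 :=
  (hx k).ne_zero

/-- The class of functions for which the integrals are considered. -/
structure Good (e : Fin 5 → ℂ) (h : ℂ → ℂ) : Prop where
  diff : DifferentiableOn ℂ h (Dn e)
  bd : ∃ C : ℝ, 0 ≤ C ∧ ∀ x ∈ Dn e, ‖h x‖ ≤ C * Bnd e x

theorem Good.decay {e : Fin 5 → ℂ} (he : Sep e) {h : ℂ → ℂ} (hg : Good e h) :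
    ∃ C R : ℝ, ∀ x ∈ Dn e, R ≤ ‖x‖ → ‖h x‖ ≤ C * ‖x‖ ^ (-(3/2) : ℝ) := by
  obtain ⟨C, hC, h1⟩ := hg.bd
  obtain ⟨C', R, hC', h2⟩ := Bnd_le he
  refine ⟨C * C', R, fun x hx hR => (h1 x hx).trans ?_⟩
  rw [mul_assoc]
  exact mul_le_mul_of_nonneg_left (h2 x hR) hC

theorem Good.hasDerivAt {e : Fin 5 → ℂ} (he : Sep e) {h : ℂ → ℂ} (hg : Good e h) {x : ℂ}
    (hx : x ∈ Dn e) : HasDerivAt (Up h) (h x) x :=
  up_hasDerivAt (isOpen_Dn e) Dn_up hg.diff (hg.decay he) hx

theorem Good.integrable {e : Fin 5 → ℂ} (he : Sep e) {h : ℂ → ℂ} (hg : Good e h) {x : ℂ}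
    (hx : x ∈ Dn e) : IntegrableOn (fun t : ℝ => I * h (x + t * I)) (Ioi 0) :=
  up_integrable (isOpen_Dn e) Dn_up hg.diff.continuousOn (hg.decay he) hx

theorem Good.smul {e : Fin 5 → ℂ} {h : ℂ → ℂ} (hg : Good e h) (c : ℂ) :
    Good e (fun x => c * h x) := by
  refine ⟨hg.diff.const_mul c, ?_⟩
  obtain ⟨C, hC, h1⟩ := hg.bd
  refine ⟨‖c‖ * C, by positivity, fun x hx => ?_⟩
  rw [norm_mul, mul_assoc]
  exact mul_le_mul_of_nonneg_left (h1 x hx) (norm_nonneg _)

theorem Good.add {e : Fin 5 → ℂ} {h k : ℂ → ℂ} (hg : Good e h) (hk : Good e k) :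
    Good e (fun x => h x + k x) := by
  refine ⟨hg.diff.add hk.diff, ?_⟩
  obtain ⟨C, hC, h1⟩ := hg.bd
  obtain ⟨C', hC', h2⟩ := hk.bd
  refine ⟨C + C', by positivity, fun x hx => (norm_add_le _ _).trans ?_⟩
  rw [add_mul]
  exact add_le_add (h1 x hx) (h2 x hx)

theorem Good.up_bound {e : Fin 5 → ℂ} {h : ℂ → ℂ} (hg : Good e h) :
    ∃ C : ℝ, 0 ≤ C ∧ ∀ x ∈ Dn e, ‖Up h x‖ ≤ C := by
  obtain ⟨C, hC, h1⟩ := hg.bd
  refine ⟨C * (5 * ∫ t : ℝ, kap |t|), ?_, fun x hx => ?_⟩
  · have : 0 ≤ ∫ t : ℝ, kap |t| := integral_nonneg fun t => kap_nonneg (abs_nonneg _)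
    positivity
  · unfold Up
    rw [norm_neg, ← integral_Lb e x, ← integral_const_mul]
    have h2 : ‖∫ t in Ioi (0:ℝ), I * h (x + t * I)‖ ≤ ∫ t in Ioi (0:ℝ), C * Lb e x t := by
      apply norm_integral_le_of_norm_le ((integrable_Lb e x).const_mul C).integrableOn
      have h3 := ae_restrict_of_ae (s := Ioi (0:ℝ)) (Bnd_le_Lb e x)
      filter_upwards [h3, self_mem_ae_restrict measurableSet_Ioi] with t ht ht0
      rw [norm_mul, norm_I, one_mul]
      exact (h1 _ (Dn_up x hx t ht0.le)).trans (mul_le_mul_of_nonneg_left ht hC)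
    refine h2.trans (setIntegral_le_integral ((integrable_Lb e x).const_mul C) ?_)
    filter_upwards with t
    have : 0 ≤ Lb e x t := Finset.sum_nonneg fun k _ => kap_nonneg (abs_nonneg _)
    positivity

theorem Good.tendsto_up {e : Fin 5 → ℂ} (he : RSep e) {h : ℂ → ℂ} (hg : Good e h) (k : Fin 5) :
    Tendsto (Up h) (𝓝[Dn e] (e k)) (𝓝 (Up h (e k))) := by
  obtain ⟨C, hC, h1⟩ := hg.bd
  have hcont : ContinuousOn h (Dn e) := hg.diff.continuousOn
  have key : Tendsto (fun x => ∫ t, (Ioi (0:ℝ)).indicator (fun t : ℝ => I * h (x + t * I)) t)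
      (𝓝[Dn e] (e k))
      (𝓝 (∫ t, (Ioi (0:ℝ)).indicator (fun t : ℝ => I * h (e k + t * I)) t)) := by
    refine gdct (G := fun x t => C * Lb e x t) (g := fun t => C * Lb e (e k) t) ?_ ?_ ?_ ?_ ?_ ?_
      ?_ ?_
    · filter_upwards [self_mem_nhdsWithin] with x hx
      rw [aestronglyMeasurable_indicator_iff measurableSet_Ioi]
      refine ContinuousOn.aestronglyMeasurable ?_ measurableSet_Ioi
      exact continuousOn_const.mul ((ray_continuousOn Dn_up hcont hx).mono Ioi_subset_Ici_self)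
    · filter_upwards with x
      exact (integrable_Lb e x).const_mul C
    · exact (integrable_Lb e _).const_mul C
    · filter_upwards [self_mem_nhdsWithin] with x hx
      filter_upwards [Bnd_le_Lb e x] with t ht
      by_cases h0 : t ∈ Ioi (0:ℝ)
      · rw [indicator_of_mem h0, norm_mul, norm_I, one_mul]
        exact (h1 _ (Dn_up x hx t h0.le)).trans (mul_le_mul_of_nonneg_left ht hC)
      · rw [indicator_of_notMem h0, norm_zero]
        have : 0 ≤ Lb e x t := Finset.sum_nonneg fun k _ => kap_nonneg (abs_nonneg _)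
        positivity
    · filter_upwards [Bnd_le_Lb e (e k)] with t ht
      by_cases h0 : t ∈ Ioi (0:ℝ)
      · rw [indicator_of_mem h0, norm_mul, norm_I, one_mul]
        exact (h1 _ (Dn_above he k h0)).trans (mul_le_mul_of_nonneg_left ht hC)
      · rw [indicator_of_notMem h0, norm_zero]
        have : 0 ≤ Lb e (e k) t := Finset.sum_nonneg fun k _ => kap_nonneg (abs_nonneg _)
        positivity
    · filter_upwards with t
      by_cases h0 : t ∈ Ioi (0:ℝ)
      · simp only [indicator_of_mem h0]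
        refine Tendsto.const_mul I ?_
        have h2 : ContinuousAt h (e k + t * I) :=
          hcont.continuousAt ((isOpen_Dn e).mem_nhds (Dn_above he k h0))
        refine h2.tendsto.comp (tendsto_nhdsWithin_of_tendsto_nhds ?_)
        exact (continuous_id.add continuous_const).tendsto' _ _ rfl
      · simp only [indicator_of_notMem h0]
        exact tendsto_const_nhds
    · have h2 : ∀ l : Fin 5, ∀ᵐ t : ℝ, t + (e k - e l).im ≠ 0 := by
        intro l
        have : {t : ℝ | ¬ (t + (e k - e l).im ≠ 0)} = {-(e k - e l).im} := by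
          ext t; simp only [ne_eq, not_not, mem_ofPred_eq, mem_singleton_iff]
          constructor <;> intro h <;> linarith
        rw [ae_iff, this]
        exact measure_singleton _
      rw [← ae_all_iff] at h2
      filter_upwards [h2] with t ht
      refine Tendsto.const_mul C ?_
      unfold Lb
      refine tendsto_finsetSum _ fun l _ => ?_
      have h3 : ContinuousAt kap |t + (e k - e l).im| := continuousAt_kap (abs_pos.2 (ht l))
      refine h3.tendsto.comp (tendsto_nhdsWithin_of_tendsto_nhds ?_)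
      have h4 : Continuous fun x : ℂ => |t + (x - e l).im| := by fun_prop
      exact h4.tendsto (e k)
    · simp only [integral_const_mul, integral_Lb]
      exact tendsto_const_nhds
  simp only [integral_indicator measurableSet_Ioi] at key
  exact key.neg

/-- The integral over a vertical line. -/
noncomputable def Ln (h : ℂ → ℂ) (x : ℂ) : ℂ := ∫ t : ℝ, I * h (x + t * I)

/-- The primitive which vanishes at `- i ∞`. -/
noncomputable def Down (h : ℂ → ℂ) (x : ℂ) : ℂ := -Up (fun y => h (-y)) (-x)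

theorem Down_eq (h : ℂ → ℂ) (x : ℂ) : Down h x = ∫ t in Ioi (0:ℝ), I * h (x - t * I) := by
  unfold Down Up
  rw [neg_neg]
  congr 1
  ext t
  congr 2
  ring_nf

/-- The strip on the right of the first `j` of the points `e k` and on the left of the others. -/
def Str (e : Fin 5 → ℂ) (j : ℕ) : Set ℂ :=
  {x | ∀ k : Fin 5, ((k:ℕ) < j → (e k).re < x.re) ∧ (j ≤ (k:ℕ) → x.re < (e k).re)}

theorem Str_re_ne {e : Fin 5 → ℂ} {j : ℕ} {x : ℂ} (hx : x ∈ Str e j) (k : Fin 5) :
    (x - e k).re ≠ 0 := by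
  rw [sub_re]
  rcases lt_or_ge (k:ℕ) j with h | h
  · have := (hx k).1 h; linarith
  · have := (hx k).2 h; linarith

theorem Str_sub {e : Fin 5 → ℂ} {j : ℕ} : Str e j ⊆ Dn e := fun _ hx k =>
  Or.inl (Str_re_ne hx k)

theorem Str_sub' {e : Fin 5 → ℂ} {j : ℕ} {x : ℂ} (hx : x ∈ Str e j) : -x ∈ Dn (-e) := by
  intro k
  left
  have := Str_re_ne hx k
  intro h
  apply this
  simp only [Pi.neg_apply, sub_neg_eq_add, add_re, neg_re] at h
  rw [sub_re]; linarith

theorem Str_vert {e : Fin 5 → ℂ} {j : ℕ} {x : ℂ} (hx : x ∈ Str e j) (t : ℝ) :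
    x + t * I ∈ Str e j := by
  intro k
  simpa using hx k

theorem isOpen_Str (e : Fin 5 → ℂ) (j : ℕ) : IsOpen (Str e j) := by
  have : Str e j = ⋂ k : Fin 5, ({x : ℂ | (k:ℕ) < j → (e k).re < x.re} ∩
      {x : ℂ | j ≤ (k:ℕ) → x.re < (e k).re}) := by
    ext x; simp [Str]
  rw [this]
  refine isOpen_iInter_of_finite fun k => IsOpen.inter ?_ ?_
  · by_cases h : (k:ℕ) < j
    · simp only [h, true_imp_iff]
      exact isOpen_lt continuous_const continuous_re
    · simp only [h, false_imp_iff]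
      exact isOpen_univ
  · by_cases h : j ≤ (k:ℕ)
    · simp only [h, true_imp_iff]
      exact isOpen_lt continuous_re continuous_const
    · simp only [h, false_imp_iff]
      exact isOpen_univ

theorem convex_Str (e : Fin 5 → ℂ) (j : ℕ) : Convex ℝ (Str e j) := by
  intro x hx y hy a b ha hb hab k
  have h1 : (a • x + b • y).re = a * x.re + b * y.re := by simp
  rw [h1]
  constructor
  · intro h
    have h2 := (hx k).1 h
    have h3 := (hy k).1 h
    have h4 : (e k).re = a * (e k).re + b * (e k).re := by rw [← add_mul, hab, one_mul]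
    rcases ha.eq_or_lt with h5 | h5
    · rw [← h5] at hab h4 ⊢
      have : b = 1 := by linarith
      rw [this]; linarith
    · rw [h4]
      have h6 : a * (e k).re < a * x.re := by gcongr
      have h7 : b * (e k).re ≤ b * y.re := by gcongr
      linarith
  · intro h
    have h2 := (hx k).2 h
    have h3 := (hy k).2 h
    have h4 : (e k).re = a * (e k).re + b * (e k).re := by rw [← add_mul, hab, one_mul]
    rcases ha.eq_or_lt with h5 | h5
    · rw [← h5] at hab h4 ⊢
      have : b = 1 := by linarith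
      rw [this]; linarith
    · rw [h4]
      have h6 : a * x.re < a * (e k).re := by gcongr
      have h7 : b * y.re ≤ b * (e k).re := by gcongr
      linarith

/-- Two functions on the plane slit downwards and on the plane slit upwards. -/
structure Pair (e : Fin 5 → ℂ) (h h' : ℂ → ℂ) : Prop where
  g : Good e h
  g' : Good (-e) (fun y => h' (-y))

theorem Pair.down_deriv {e : Fin 5 → ℂ} (he : Sep e) {h h' : ℂ → ℂ} (p : Pair e h h') {x : ℂ}
    (hx : -x ∈ Dn (-e)) : HasDerivAt (Down h') (h' x) x := by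
  have h1 := p.g'.hasDerivAt he.neg hx
  have h2 := (h1.comp x (hasDerivAt_neg x)).neg
  have h3 : Down h' = -(Up (fun y => h' (-y)) ∘ Neg.neg) := by
    ext z; rfl
  rw [h3]
  have h4 : h' x = -((fun y => h' (-y)) (-x) * -1) := by simp
  rw [h4]
  exact h2

theorem Pair.const {e : Fin 5 → ℂ} (he : Sep e) {h h' : ℂ → ℂ} (p : Pair e h h') {j : ℕ} {s : ℂ}
    (hs : ∀ x ∈ Str e j, h x = s * h' x) {x y : ℂ} (hx : x ∈ Str e j) (hy : y ∈ Str e j) :
    Up h x - s * Down h' x = Up h y - s * Down h' y := by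
  have h1 : ∀ z ∈ Str e j, HasDerivAt (fun x => Up h x - s * Down h' x) 0 z := by
    intro z hz
    have h2 := (p.g.hasDerivAt he (Str_sub hz)).sub
      ((p.down_deriv he (Str_sub' hz)).const_mul s)
    rw [hs z hz, sub_self] at h2
    exact h2
  have h3 := (isOpen_Str e j).is_const_of_deriv_eq_zero (f := fun x => Up h x - s * Down h' x)
    (convex_Str e j).isPreconnected (fun z hz => (h1 z hz).differentiableAt.differentiableWithinAt)
    (fun z hz => (h1 z hz).deriv) hx hy
  exact h3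

theorem Pair.integrable {e : Fin 5 → ℂ} {h h' : ℂ → ℂ} (p : Pair e h h') {j : ℕ}
    {x : ℂ} (hx : x ∈ Str e j) : Integrable (fun t : ℝ => I * h (x + t * I)) := by
  obtain ⟨C, hC, h1⟩ := p.g.bd
  refine ((integrable_Lb e x).const_mul C).mono' ?_ ?_
  · refine Continuous.aestronglyMeasurable ?_
    refine continuous_const.mul ?_
    exact p.g.diff.continuousOn.comp_continuous (by fun_prop) fun t => Str_sub (Str_vert hx t)
  · filter_upwards [Bnd_le_Lb e x] with t ht
    rw [norm_mul, norm_I, one_mul]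
    exact (h1 _ (Str_sub (Str_vert hx t))).trans (mul_le_mul_of_nonneg_left ht hC)

theorem Pair.Ln_eq {e : Fin 5 → ℂ} {h h' : ℂ → ℂ} (p : Pair e h h') {j : ℕ} {s : ℂ}
    (hs : ∀ x ∈ Str e j, h x = s * h' x) {x : ℂ} (hx : x ∈ Str e j) :
    Up h x - s * Down h' x = -Ln h x := by
  have hi := p.integrable hx
  have h1 : Ln h x = (∫ t in Iic (0:ℝ), I * h (x + t * I)) +
      ∫ t in Ioi (0:ℝ), I * h (x + t * I) := by
    unfold Ln
    rw [← setIntegral_union (Iic_disjoint_Ioi le_rfl) measurableSet_Ioi hi.integrableOn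
      hi.integrableOn, Iic_union_Ioi, setIntegral_univ]
  have h2 : (∫ t in Iic (0:ℝ), I * h (x + t * I)) = s * Down h' x := by
    have h3 := integral_comp_neg_Ioi (0:ℝ) (fun t : ℝ => I * h (x + t * I))
    rw [neg_zero] at h3
    rw [← h3, Down_eq, ← integral_const_mul]
    refine setIntegral_congr_fun measurableSet_Ioi fun t _ => ?_
    have h4 := hs _ (Str_vert hx (-t))
    have h5 : x + ((-t : ℝ) : ℂ) * I = x - t * I := by push_cast; ring
    simp only [h5] at h4 ⊢
    rw [h4]; ring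
  rw [h1, h2]
  unfold Up
  ring

theorem ray_low (a : ℂ) (t : ℝ) : |a.re| ≤ ‖a + t * I‖ := by
  have : (a + t * I).re = a.re := by simp
  rw [← this]
  exact abs_re_le_norm _

/-- The line integrals tend to zero if the line moves to infinity. -/
theorem Pair.Ln_tendsto {e : Fin 5 → ℂ} (he : Sep e) {h h' : ℂ → ℂ} (p : Pair e h h') {j : ℕ}
    {l : Filter ℝ} [l.IsCountablyGenerated] (hl : Tendsto (fun a : ℝ => |a|) l atTop)
    (hS : ∀ᶠ a : ℝ in l, (a : ℂ) ∈ Str e j) :
    Tendsto (fun a : ℝ => Ln h a) l (𝓝 0) := by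
  obtain ⟨C, R, h1⟩ := p.g.decay he
  have h0 : (0:ℂ) = ∫ t : ℝ, (0:ℂ) := by simp
  rw [h0]
  unfold Ln
  refine tendsto_integral_filter_of_dominated_convergence
    (fun t => |C| * (3 * (1 + |t|) ^ (-(3/2) : ℝ))) ?_ ?_ ?_ ?_
  · filter_upwards [hS] with a ha
    exact (p.integrable ha).aestronglyMeasurable
  · filter_upwards [hS, hl.eventually_ge_atTop R, hl.eventually_ge_atTop 1] with a ha haR ha1
    filter_upwards with t
    rw [norm_mul, norm_I, one_mul]
    have h2 : |a| ≤ ‖(a:ℂ) + t * I‖ := by simpa using ray_low (a:ℂ) t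
    have h3 : |t| ≤ ‖(a:ℂ) + t * I‖ := by
      have : ((a:ℂ) + t * I).im = t := by simp
      nth_rewrite 1 [← this]
      exact abs_im_le_norm _
    have h4 : (1 + |t|) / 2 ≤ ‖(a:ℂ) + t * I‖ := by linarith
    refine (h1 _ (Str_sub (Str_vert ha t)) (haR.trans h2)).trans ?_
    have h5 : ‖(a:ℂ) + t * I‖ ^ (-(3/2) : ℝ) ≤ ((1 + |t|) / 2) ^ (-(3/2) : ℝ) :=
      Real.rpow_le_rpow_of_nonpos (by positivity) h4 (by norm_num)
    have h6 : ((1 + |t|) / 2) ^ (-(3/2) : ℝ) ≤ 3 * (1 + |t|) ^ (-(3/2) : ℝ) := by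
      rw [Real.div_rpow (by positivity) (by norm_num), div_eq_mul_inv, mul_comm]
      have h7 : ((2:ℝ) ^ (-(3/2) : ℝ))⁻¹ ≤ 3 := by
        rw [Real.rpow_neg (by norm_num), inv_inv]
        have h8 : ((2:ℝ) ^ ((3/2) : ℝ)) ^ 2 = 8 := by
          rw [← Real.rpow_natCast, ← Real.rpow_mul (by norm_num)]
          norm_num
        have h9 : 0 ≤ (2:ℝ) ^ ((3/2) : ℝ) := by positivity
        nlinarith
      gcongr
    calc C * ‖(a:ℂ) + t * I‖ ^ (-(3/2) : ℝ) ≤ |C| * ‖(a:ℂ) + t * I‖ ^ (-(3/2) : ℝ) := by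
          gcongr; exact le_abs_self _
      _ ≤ |C| * (3 * (1 + |t|) ^ (-(3/2) : ℝ)) := by
          gcongr; exact h5.trans h6
  · apply Integrable.const_mul
    apply Integrable.const_mul
    apply integrable_of_even
    · intro t; rw [abs_neg]
    · have h2 : IntegrableOn (fun t : ℝ => (t + 1) ^ (-(3/2) : ℝ)) (Ioi 0) :=
        integrableOn_add_rpow_Ioi_of_lt (by norm_num) (by norm_num)
      refine h2.congr_fun (fun t ht => ?_) measurableSet_Ioi
      simp only
      rw [abs_of_pos ht, add_comm]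
  · filter_upwards with t
    rw [tendsto_zero_iff_norm_tendsto_zero]
    have h3 : Tendsto (fun a : ℝ => |C| * |a| ^ (-(3/2) : ℝ)) l (𝓝 0) := by
      have := ((tendsto_rpow_neg_atTop (y := (3/2:ℝ)) (by norm_num)).comp hl).const_mul |C|
      simpa using this
    refine squeeze_zero' (Eventually.of_forall fun a => norm_nonneg _) ?_ h3
    filter_upwards [hS, hl.eventually_ge_atTop R, hl.eventually_ge_atTop 1] with a ha haR ha1
    rw [norm_mul, norm_I, one_mul]
    have h2 : |a| ≤ ‖(a:ℂ) + t * I‖ := by simpa using ray_low (a:ℂ) t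
    refine (h1 _ (Str_sub (Str_vert ha t)) (haR.trans h2)).trans ?_
    calc C * ‖(a:ℂ) + t * I‖ ^ (-(3/2) : ℝ) ≤ |C| * ‖(a:ℂ) + t * I‖ ^ (-(3/2) : ℝ) := by
          gcongr; exact le_abs_self _
      _ ≤ |C| * |a| ^ (-(3/2) : ℝ) := by
          apply mul_le_mul_of_nonneg_left _ (abs_nonneg _)
          exact Real.rpow_le_rpow_of_nonpos (by linarith) h2 (by norm_num)

end Pool.Agent.H840.AS
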