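import Pool.Agent.H840.AS.Val
set_option autoImplicit false

/-!
# The period matrix is symmetric
-/

open Complex Filter Topology MeasureTheory Set Metric

namespace Pool.Agent.H840.AS

theorem det_Am (e : Fin 5 → ℂ) : (Am e).det =
    (Cc e 0 1 - Cc e 0 3) * Cc e 1 3 - Cc e 0 3 * (Cc e 1 1 - Cc e 1 3) := by
  rw [Am, Matrix.det_fin_two_of]

theorem inv_Am (e : Fin 5 → ℂ) : (Am e)⁻¹ = (Am e).det⁻¹ •
    !![Cc e 1 3, -Cc e 0 3; -(Cc e 1 1 - Cc e 1 3), Cc e 0 1 - Cc e 0 3] := by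
  rw [Matrix.inv_def, Ring.inverse_eq_inv']
  congr 1
  rw [Am, Matrix.adjugate_fin_two_of]

theorem Tm_eq (e : Fin 5 → ℂ) : Tm e = (Am e).det⁻¹ •
    !![Cc e 1 3 * Cc e 0 2 - Cc e 0 3 * Cc e 1 2, Cc e 1 3 * Cc e 0 4 - Cc e 0 3 * Cc e 1 4;
      -(Cc e 1 1 - Cc e 1 3) * Cc e 0 2 + (Cc e 0 1 - Cc e 0 3) * Cc e 1 2,
      -(Cc e 1 1 - Cc e 1 3) * Cc e 0 4 + (Cc e 0 1 - Cc e 0 3) * Cc e 1 4] := by
  rw [Tm, inv_Am, Matrix.smul_mul]
  congr 1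
  rw [Bm]
  ext i j
  fin_cases i <;> fin_cases j <;> simp [Matrix.mul_apply, Fin.sum_univ_two] <;> ring

theorem Tm_symm {e : Fin 5 → ℂ} (he : Near e) : (Tm e).IsSymm := by
  have h := bilinear he
  rw [Tm_eq]
  apply Matrix.IsSymm.smul
  ext i j
  fin_cases i <;> fin_cases j <;> simp
  · linear_combination -h
  · linear_combination h

theorem Am_mul_Tm {e : Fin 5 → ℂ} (hd : (Am e).det ≠ 0) : Am e * Tm e = Bm e := by
  rw [Tm, ← Matrix.mul_assoc, Matrix.mul_nonsing_inv _ (isUnit_iff_ne_zero.2 hd), Matrix.one_mul]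

end Pool.Agent.H840.AS
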