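import Pool.Agent.H840.AS.Sq
import Pool.Agent.H840.AS.Gdct

/-!
# Primitives obtained by integration along upward vertical rays
-/

open Complex Filter Topology MeasureTheory Set Metric

namespace Pool.Agent.H840.AS

/-- The primitive of `h` which vanishes at `+ i ∞`. -/
noncomputable def Up (h : ℂ → ℂ) (x : ℂ) : ℂ := -∫ t in Set.Ioi (0:ℝ), I * h (x + t * I)

theorem ray_bound {D : Set ℂ} (hD : IsOpen D) (hup : ∀ x ∈ D, ∀ t : ℝ, 0 ≤ t → x + t * I ∈ D)
    {h : ℂ → ℂ} (hd : ContinuousOn h D)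
    (hb : ∃ C R : ℝ, ∀ x ∈ D, R ≤ ‖x‖ → ‖h x‖ ≤ C * ‖x‖ ^ (-(3/2) : ℝ)) {x : ℂ} (hx : x ∈ D) :
    ∃ r > 0, closedBall x (2 * r) ⊆ D ∧ ∃ C1 : ℝ, 0 ≤ C1 ∧ ∀ t : ℝ, 0 ≤ t → ∀ z ∈ closedBall x (2 * r),
      ‖h (z + t * I)‖ ≤ C1 * (t + 1) ^ (-(3/2) : ℝ) := by
  obtain ⟨C, R, hb⟩ := hb
  obtain ⟨ε, hε, hball⟩ := Metric.isOpen_iff.1 hD x hx
  refine ⟨ε / 4, by positivity, ?_, ?_⟩
  · intro z hz
    apply hball
    rw [mem_closedBall] at hz
    rw [mem_ball]; linarith
  have hsub : closedBall x (2 * (ε / 4)) ⊆ D := by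
    intro z hz
    apply hball
    rw [mem_closedBall] at hz
    rw [mem_ball]; linarith
  set K := closedBall x (2 * (ε / 4)) with hK
  set N : ℝ := ‖x‖ + 2 * (ε / 4) with hN
  have hN0 : 0 ≤ N := by positivity
  set T : ℝ := max (4 * N + 1) (max (R + N) 0) with hT
  have hT0 : 0 ≤ T := (le_max_right _ _).trans (le_max_right _ _)
  have hcomp : IsCompact (K ×ˢ Set.Icc (0:ℝ) T) := (isCompact_closedBall _ _).prod isCompact_Icc
  have hcont : ContinuousOn (fun p : ℂ × ℝ => h (p.1 + p.2 * I)) (K ×ˢ Set.Icc (0:ℝ) T) := by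
    refine hd.comp (by fun_prop) ?_
    rintro ⟨z, t⟩ ⟨hz, ht⟩
    exact hup z (hsub hz) t ht.1
  obtain ⟨M, hM⟩ := hcomp.exists_bound_of_continuousOn hcont
  have hM0 : 0 ≤ M := by
    refine (norm_nonneg _).trans (hM ⟨x, 0⟩ ⟨?_, ?_, hT0⟩)
    · exact mem_closedBall_self (by positivity)
    · exact le_refl _
  refine ⟨M * (T + 1) ^ ((3/2) : ℝ) + |C| * 8, by positivity, ?_⟩
  intro t ht z hz
  have hp : 0 < (t + 1) ^ (-(3/2) : ℝ) := by positivity
  rcases le_total t T with htT | htT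
  · have h1 := hM ⟨z, t⟩ ⟨hz, ht, htT⟩
    simp only at h1
    have h2 : 1 ≤ (T + 1) ^ ((3/2) : ℝ) * (t + 1) ^ (-(3/2) : ℝ) := by
      have h3 : (t + 1) ^ ((3/2) : ℝ) ≤ (T + 1) ^ ((3/2) : ℝ) :=
        Real.rpow_le_rpow (by linarith) (by linarith) (by norm_num)
      have h4 : (t + 1) ^ ((3/2) : ℝ) * (t + 1) ^ (-(3/2) : ℝ) = 1 := by
        rw [← Real.rpow_add (by linarith)]; norm_num
      calc (1:ℝ) = (t + 1) ^ ((3/2) : ℝ) * (t + 1) ^ (-(3/2) : ℝ) := h4.symm
        _ ≤ _ := by gcongr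
    calc ‖h (z + t * I)‖ ≤ M := h1
      _ = M * 1 := (mul_one _).symm
      _ ≤ M * ((T + 1) ^ ((3/2) : ℝ) * (t + 1) ^ (-(3/2) : ℝ)) := by gcongr
      _ ≤ (M * (T + 1) ^ ((3/2) : ℝ) + |C| * 8) * (t + 1) ^ (-(3/2) : ℝ) := by
        rw [add_mul, mul_assoc]
        have : 0 ≤ |C| * 8 * (t + 1) ^ (-(3/2) : ℝ) := by positivity
        linarith
  · have hzN : ‖z‖ ≤ N := by
      have : ‖z‖ ≤ ‖x‖ + ‖z - x‖ := by
        calc ‖z‖ = ‖x + (z - x)‖ := by congr 1; ring
          _ ≤ _ := norm_add_le _ _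
      rw [mem_closedBall, dist_eq_norm] at hz
      linarith
    have hlow : t - N ≤ ‖z + t * I‖ := by
      have h1 : ‖(t:ℂ) * I‖ ≤ ‖z + t * I‖ + ‖z‖ := by
        calc ‖(t:ℂ) * I‖ = ‖(z + t * I) - z‖ := by congr 1; ring
          _ ≤ _ := norm_sub_le _ _
      have h2 : ‖(t:ℂ) * I‖ = t := by
        rw [norm_mul, norm_I, mul_one, Complex.norm_real, Real.norm_eq_abs, abs_of_nonneg ht]
      linarith
    have ht1 : 4 * N + 1 ≤ t := (le_max_left _ _).trans htT
    have ht2 : R + N ≤ t := ((le_max_left _ _).trans (le_max_right _ _)).trans htT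
    have h5 := hb (z + t * I) (hup z (hsub hz) t ht) (by linarith)
    have h6 : (t + 1) / 4 ≤ ‖z + t * I‖ := by linarith
    have h7 : ‖z + t * I‖ ^ (-(3/2) : ℝ) ≤ ((t + 1) / 4) ^ (-(3/2) : ℝ) :=
      Real.rpow_le_rpow_of_nonpos (by linarith) h6 (by norm_num)
    have h8 : ((t + 1) / 4) ^ (-(3/2) : ℝ) = 8 * (t + 1) ^ (-(3/2) : ℝ) := by
      rw [Real.div_rpow (by linarith) (by norm_num)]
      have : (4:ℝ) ^ (-(3/2) : ℝ) = 1 / 8 := by
        rw [show (4:ℝ) = 2 ^ (2:ℝ) by norm_num, ← Real.rpow_mul (by norm_num)]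
        rw [show (2:ℝ) * -(3/2) = -3 by norm_num, Real.rpow_neg (by norm_num)]
        norm_num
      rw [this]; field_simp
    calc ‖h (z + t * I)‖ ≤ C * ‖z + t * I‖ ^ (-(3/2) : ℝ) := h5
      _ ≤ |C| * ‖z + t * I‖ ^ (-(3/2) : ℝ) := by gcongr; exact le_abs_self _
      _ ≤ |C| * (8 * (t + 1) ^ (-(3/2) : ℝ)) := by rw [← h8]; gcongr
      _ ≤ (M * (T + 1) ^ ((3/2) : ℝ) + |C| * 8) * (t + 1) ^ (-(3/2) : ℝ) := by
        rw [add_mul, mul_assoc |C|]
        have : 0 ≤ M * (T + 1) ^ ((3/2) : ℝ) * (t + 1) ^ (-(3/2) : ℝ) := by positivity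
        linarith

theorem integrable_bd (C : ℝ) :
    IntegrableOn (fun t : ℝ => C * (t + 1) ^ (-(3/2) : ℝ)) (Set.Ioi 0) := by
  apply Integrable.const_mul
  exact integrableOn_add_rpow_Ioi_of_lt (by norm_num) (by norm_num)

theorem tendsto_bd (C : ℝ) :
    Tendsto (fun t : ℝ => C * (t + 1) ^ (-(3/2) : ℝ)) atTop (𝓝 0) := by
  have h1 : Tendsto (fun t : ℝ => (t + 1) ^ (-(3/2) : ℝ)) atTop (𝓝 0) := by
    have := (tendsto_rpow_neg_atTop (y := (3/2:ℝ)) (by norm_num)).comp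
      (tendsto_atTop_add_const_right atTop (1:ℝ) tendsto_id)
    exact this
  simpa using h1.const_mul C

theorem ray_continuousOn {D : Set ℂ} (hup : ∀ x ∈ D, ∀ t : ℝ, 0 ≤ t → x + t * I ∈ D)
    {h : ℂ → ℂ} (hd : ContinuousOn h D) {x : ℂ} (hx : x ∈ D) :
    ContinuousOn (fun t : ℝ => h (x + t * I)) (Set.Ici 0) := by
  refine hd.comp (by fun_prop) ?_
  intro t ht
  exact hup x hx t ht

theorem up_integrable {D : Set ℂ} (hD : IsOpen D)
    (hup : ∀ x ∈ D, ∀ t : ℝ, 0 ≤ t → x + t * I ∈ D)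
    {h : ℂ → ℂ} (hd : ContinuousOn h D)
    (hb : ∃ C R : ℝ, ∀ x ∈ D, R ≤ ‖x‖ → ‖h x‖ ≤ C * ‖x‖ ^ (-(3/2) : ℝ)) {x : ℂ} (hx : x ∈ D) :
    IntegrableOn (fun t : ℝ => I * h (x + t * I)) (Set.Ioi 0) := by
  obtain ⟨r, hr, -, C1, -, hC1⟩ := ray_bound hD hup hd hb hx
  refine (integrable_bd C1).mono' ?_ ?_
  · refine ContinuousOn.aestronglyMeasurable ?_ measurableSet_Ioi
    exact continuousOn_const.mul ((ray_continuousOn hup hd hx).mono Ioi_subset_Ici_self)
  · filter_upwards [self_mem_ae_restrict measurableSet_Ioi] with t ht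
    rw [norm_mul, norm_I, one_mul]
    exact hC1 t ht.le x (mem_closedBall_self (by positivity))

theorem up_hasDerivAt {D : Set ℂ} (hD : IsOpen D)
    (hup : ∀ x ∈ D, ∀ t : ℝ, 0 ≤ t → x + t * I ∈ D)
    {h : ℂ → ℂ} (hd : DifferentiableOn ℂ h D)
    (hb : ∃ C R : ℝ, ∀ x ∈ D, R ≤ ‖x‖ → ‖h x‖ ≤ C * ‖x‖ ^ (-(3/2) : ℝ)) {x : ℂ} (hx : x ∈ D) :
    HasDerivAt (Up h) (h x) x := by
  obtain ⟨r, hr, hsub, C1, hC0, hC1⟩ := ray_bound hD hup hd.continuousOn hb hx
  have hd' : DifferentiableOn ℂ (deriv h) D := hd.deriv hD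
  -- the bound for the derivative
  have hder : ∀ t : ℝ, 0 ≤ t → ∀ y ∈ ball x r, ‖deriv h (y + t * I)‖ ≤
      C1 / r * (t + 1) ^ (-(3/2) : ℝ) := by
    intro t ht y hy
    have hcl : ∀ z ∈ closedBall (y + t * I) r, z - t * I ∈ closedBall x (2 * r) := by
      intro z hz
      rw [mem_closedBall, dist_eq_norm] at hz ⊢
      rw [mem_ball, dist_eq_norm] at hy
      calc ‖z - t * I - x‖ = ‖(z - (y + t * I)) + (y - x)‖ := by congr 1; ring
        _ ≤ ‖z - (y + t * I)‖ + ‖y - x‖ := norm_add_le _ _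
        _ ≤ 2 * r := by linarith
    have hin : ∀ z ∈ closedBall (y + t * I) r, z ∈ D := by
      intro z hz
      have := hup _ (hsub (hcl z hz)) t ht
      simpa using this
    have h1 : DiffContOnCl ℂ h (ball (y + t * I) r) := by
      apply DifferentiableOn.diffContOnCl
      rw [closure_ball _ hr.ne']
      exact hd.mono hin
    have h2 := Complex.norm_deriv_le_of_forall_mem_sphere_norm_le hr h1
      (C := C1 * (t + 1) ^ (-(3/2) : ℝ)) (by
        intro z hz
        have h3 := hC1 t ht (z - t * I) (hcl z (sphere_subset_closedBall hz))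
        simpa using h3)
    calc ‖deriv h (y + t * I)‖ ≤ C1 * (t + 1) ^ (-(3/2) : ℝ) / r := h2
      _ = _ := by ring
  have hballD : ∀ y ∈ ball x r, y ∈ D := by
    intro y hy
    apply hsub
    rw [mem_ball] at hy; rw [mem_closedBall]; linarith
  have key := hasDerivAt_integral_of_dominated_loc_of_deriv_le (μ := volume.restrict (Ioi (0:ℝ)))
    (F := fun y (t : ℝ) => I * h (y + t * I)) (F' := fun y (t : ℝ) => I * deriv h (y + t * I))
    (x₀ := x) (s := ball x r) (bound := fun t => C1 / r * (t + 1) ^ (-(3/2) : ℝ))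
    (ball_mem_nhds x hr) ?_ ?_ ?_ ?_ ?_ ?_
  · have h3 := key.2.neg
    have h4 : (∫ t in Ioi (0:ℝ), I * deriv h (x + t * I)) = 0 - h (x + (0:ℝ) * I) := by
      refine integral_Ioi_of_hasDerivAt_of_tendsto' (f := fun t : ℝ => h (x + t * I)) ?_ ?_ ?_
      · intro t ht
        have h5 : HasDerivAt h (deriv h (x + t * I)) (x + t * I) :=
          ((hd _ (hup x hx t ht)).differentiableAt (hD.mem_nhds (hup x hx t ht))).hasDerivAt
        have h6 : HasDerivAt (fun t : ℝ => x + (t:ℂ) * I) I t := by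
          have := ((Complex.ofRealCLM.hasDerivAt (x := t)).mul_const I).const_add x
          simpa using this
        have := h5.comp t h6
        rw [mul_comm]
        exact this
      · refine (integrable_bd (C1 / r)).mono' ?_ ?_
        · refine ContinuousOn.aestronglyMeasurable ?_ measurableSet_Ioi
          exact continuousOn_const.mul
            ((ray_continuousOn hup hd'.continuousOn hx).mono Ioi_subset_Ici_self)
        · filter_upwards [self_mem_ae_restrict measurableSet_Ioi] with t ht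
          rw [norm_mul, norm_I, one_mul]
          exact hder t ht.le x (mem_ball_self hr)
      · refine squeeze_zero_norm' (a := fun t => C1 * (t + 1) ^ (-(3/2) : ℝ)) ?_ (tendsto_bd C1)
        filter_upwards [eventually_ge_atTop 0] with t ht
        exact hC1 t ht x (mem_closedBall_self (by positivity))
    have h7 : -(∫ t in Ioi (0:ℝ), I * deriv h (x + t * I)) = h x := by
      rw [h4]; simp
    rw [h7] at h3
    exact h3
  · filter_upwards [ball_mem_nhds x hr] with y hy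
    refine ContinuousOn.aestronglyMeasurable ?_ measurableSet_Ioi
    exact continuousOn_const.mul
      ((ray_continuousOn hup hd.continuousOn (hballD y hy)).mono Ioi_subset_Ici_self)
  · exact up_integrable hD hup hd.continuousOn hb hx
  · refine ContinuousOn.aestronglyMeasurable ?_ measurableSet_Ioi
    exact continuousOn_const.mul
      ((ray_continuousOn hup hd'.continuousOn hx).mono Ioi_subset_Ici_self)
  · filter_upwards [self_mem_ae_restrict measurableSet_Ioi] with t ht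
    intro y hy
    rw [norm_mul, norm_I, one_mul]
    exact hder t ht.le y hy
  · exact integrable_bd _
  · filter_upwards [self_mem_ae_restrict measurableSet_Ioi] with t ht
    intro y hy
    have hyt := hup y (hballD y hy) t ht.le
    have h5 : HasDerivAt h (deriv h (y + t * I)) (y + t * I) :=
      ((hd _ hyt).differentiableAt (hD.mem_nhds hyt)).hasDerivAt
    have h6 : HasDerivAt (fun y : ℂ => y + (t:ℂ) * I) 1 y := (hasDerivAt_id' y).add_const _
    have := (h5.comp y h6).const_mul I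
    simpa using this

end Pool.Agent.H840.AS
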