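import Pool.Agent.H840.AS.Per
set_option autoImplicit false

/-!
# Values of the primitives at the branch points, and the bilinear relation
-/

open Complex Filter Topology MeasureTheory Set Metric

namespace Pool.Agent.H840.AS

/-- `e k` is a limit of points of the strips `k` and `k + 1`. -/
theorem exists_path {e : Fin 5 → ℂ} (he : Near e) (k : Fin 5) {j : ℕ}
    (hj : j = k ∨ j = (k:ℕ) + 1) : ∃ u : ℕ → ℂ, Tendsto u atTop (𝓝 (e k)) ∧ ∀ n, u n ∈ Str e j := by
  have key : ∀ s : ℝ, (s = 1 ∧ j = (k:ℕ) + 1) ∨ (s = -1 ∧ j = k) → ∀ n : ℕ,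
      e k + ((s * (1 / (n + 4 : ℝ)) : ℝ) : ℂ) ∈ Str e j := by
    intro s hs n l
    have h0 : (1 / ((n:ℝ) + 4)) ≤ 1 / 4 := by
      apply one_div_le_one_div_of_le (by norm_num)
      have : (0:ℝ) ≤ n := by positivity
      linarith
    have h1 : 0 < 1 / ((n:ℝ) + 4) := by positivity
    rw [add_re, ofReal_re]
    rcases hs with ⟨rfl, rfl⟩ | ⟨rfl, rfl⟩
    · constructor
      · intro hl
        rcases (Nat.lt_succ_iff.1 hl).eq_or_lt with h2 | h2
        · have : l = k := Fin.ext h2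
          rw [this]; linarith
        · have := he.gap (k := l) (l := k) h2
          linarith
      · intro hl
        have := he.gap (k := k) (l := l) (by exact hl)
        linarith
    · constructor
      · intro hl
        have := he.gap (k := l) (l := k) hl
        linarith
      · intro hl
        rcases hl.eq_or_lt with h2 | h2
        · have : l = k := Fin.ext h2.symm
          rw [this]; linarith
        · have := he.gap (k := k) (l := l) h2
          linarith
  have hlim : Tendsto (fun n : ℕ => (1 / ((n:ℝ) + 4))) atTop (𝓝 0) := by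
    have h1 : Tendsto (fun n : ℕ => ((n:ℝ) + 4)) atTop atTop :=
      tendsto_atTop_add_const_right _ _ tendsto_natCast_atTop_atTop
    exact h1.inv_tendsto_atTop.congr fun n => (one_div _).symm
  have hlim2 : ∀ s : ℝ, Tendsto (fun n : ℕ => e k + ((s * (1 / (n + 4 : ℝ)) : ℝ) : ℂ)) atTop
      (𝓝 (e k)) := by
    intro s
    have h2 : Tendsto (fun n : ℕ => ((s * (1 / (n + 4 : ℝ)) : ℝ) : ℂ)) atTop (𝓝 ((s * 0 : ℝ) : ℂ)) :=
      (continuous_ofReal.tendsto _).comp (hlim.const_mul s)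
    simpa using h2.const_add (e k)
  rcases hj with h | h
  · exact ⟨_, hlim2 (-1), key (-1) (Or.inr ⟨rfl, h⟩)⟩
  · exact ⟨_, hlim2 1, key 1 (Or.inl ⟨rfl, h⟩)⟩

/-- The relation at the branch points. -/
theorem Pair.at_branch {e : Fin 5 → ℂ} (he : Near e) {h h' : ℂ → ℂ} (p : Pair e h h') {j : ℕ}
    {s : ℂ} (hs : ∀ x ∈ Str e j, h x = s * h' x) (k : Fin 5) (hj : j = k ∨ j = (k:ℕ) + 1) :
    Up h (e k) - s * Down h' (e k) = -Ln h (ln j) := by
  obtain ⟨u, hu, huS⟩ := exists_path he k hj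
  have h1 : ∀ n, Up h (u n) - s * Down h' (u n) = -Ln h (ln j) := by
    intro n
    rw [← p.Ln_eq hs (he.ln_mem j)]
    exact p.const he.sep hs (huS n) (he.ln_mem j)
  have h2 : Tendsto (fun n => Up h (u n)) atTop (𝓝 (Up h (e k))) := by
    refine (p.g.tendsto_up he.rsep k).comp ?_
    exact tendsto_nhdsWithin_iff.2 ⟨hu, Eventually.of_forall fun n => Str_sub (huS n)⟩
  have h3 : Tendsto (fun n => Down h' (u n)) atTop (𝓝 (Down h' (e k))) := by
    unfold Down
    refine Tendsto.neg ?_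
    have h4 := p.g'.tendsto_up he.rsep.neg k
    refine h4.comp ?_
    refine tendsto_nhdsWithin_iff.2 ⟨?_, Eventually.of_forall fun n => Str_sub' (huS n)⟩
    exact hu.neg
  have h5 := h2.sub (h3.const_mul s)
  refine tendsto_nhds_unique h5 ?_
  rw [tendsto_congr h1]
  exact tendsto_const_nhds

/-- The line integrals on the left and on the right of all branch points are zero. -/
theorem Pair.ln_zero {e : Fin 5 → ℂ} (he : Near e) {h h' : ℂ → ℂ} (p : Pair e h h') {s : ℂ}
    {j : ℕ} (hj : j = 0 ∨ j = 5) (hs : ∀ x ∈ Str e j, h x = s * h' x) : Ln h (ln j) = 0 := by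
  have hb : ∀ k, |(e k).re| ≤ 3 := fun k => (abs_re_le_norm _).trans (he.sep.bd k)
  have hconst : ∀ x ∈ Str e j, Ln h x = Ln h (ln j) := by
    intro x hx
    have h1 := p.Ln_eq hs hx
    have h2 := p.Ln_eq hs (he.ln_mem j)
    have h3 := p.const he.sep hs hx (he.ln_mem j)
    rw [h1, h2] at h3
    exact neg_injective h3
  rcases hj with rfl | rfl
  · have hS : ∀ᶠ a : ℝ in atBot, (a : ℂ) ∈ Str e 0 := by
      filter_upwards [eventually_lt_atBot (-3)] with a ha k
      rw [ofReal_re]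
      exact ⟨fun h => absurd h (Nat.not_lt_zero _), fun _ => by
        have := (abs_le.1 (hb k)).1; linarith⟩
    have h1 := p.Ln_tendsto he.sep (l := atBot) (j := 0) tendsto_abs_atBot_atTop hS
    refine (tendsto_nhds_unique (h1.congr' ?_) tendsto_const_nhds).symm
    filter_upwards [hS] with a ha
    exact hconst _ ha
  · have hS : ∀ᶠ a : ℝ in atTop, (a : ℂ) ∈ Str e 5 := by
      filter_upwards [eventually_gt_atTop 3] with a ha k
      rw [ofReal_re]
      exact ⟨fun _ => by have := (abs_le.1 (hb k)).2; linarith, fun h => by omega⟩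
    have h1 := p.Ln_tendsto he.sep (l := atTop) (j := 5) tendsto_abs_atTop_atTop hS
    refine (tendsto_nhds_unique (h1.congr' ?_) tendsto_const_nhds).symm
    filter_upwards [hS] with a ha
    exact hconst _ ha

theorem Cc_zero {e : Fin 5 → ℂ} (he : Near e) {p : ℕ} (hp : p ≤ 1) : Cc e p 0 = 0 := by
  unfold Cc
  rw [(pair_w he.sep hp).ln_zero he (Or.inl rfl) fun x hx => w_Str (by norm_num) p hx, neg_zero]

theorem Cc_five {e : Fin 5 → ℂ} (he : Near e) {p : ℕ} (hp : p ≤ 1) : Cc e p 5 = 0 := by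
  unfold Cc
  rw [(pair_w he.sep hp).ln_zero he (Or.inr rfl) fun x hx => w_Str (by norm_num) p hx, neg_zero]

theorem up_Str {e : Fin 5 → ℂ} (he : Near e) {p : ℕ} (hp : p ≤ 1) {j : ℕ} (hj : j ≤ 5) {x : ℂ}
    (hx : x ∈ Str e j) : Up (w e p) x = sg j * Down (w' e p) x + Cc e p j := by
  have h1 := (pair_w he.sep hp).const he.sep (fun x hx => w_Str hj p hx) hx (he.ln_mem j)
  rw [(pair_w he.sep hp).Ln_eq (fun x hx => w_Str hj p hx) (he.ln_mem j)] at h1
  unfold Cc
  linear_combination h1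

theorem up_branch {e : Fin 5 → ℂ} (he : Near e) {p : ℕ} (hp : p ≤ 1) (k : Fin 5) {j : ℕ}
    (hj : j = k ∨ j = (k:ℕ) + 1) : Up (w e p) (e k) - sg j * Down (w' e p) (e k) = Cc e p j := by
  have h5 : j ≤ 5 := by omega
  exact (pair_w he.sep hp).at_branch he (fun x hx => w_Str h5 p hx) k hj

theorem two_up {e : Fin 5 → ℂ} (he : Near e) {p : ℕ} (hp : p ≤ 1) (k : Fin 5) :
    2 * Up (w e p) (e k) = Cc e p k + Cc e p (k + 1) := by
  rw [← up_branch he hp k (Or.inl rfl), ← up_branch he hp k (Or.inr rfl), sg_succ]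
  ring

theorem two_down {e : Fin 5 → ℂ} (he : Near e) {p : ℕ} (hp : p ≤ 1) (k : Fin 5) :
    2 * (sg k * Down (w' e p) (e k)) = Cc e p (k + 1) - Cc e p k := by
  rw [← up_branch he hp k (Or.inl rfl), ← up_branch he hp k (Or.inr rfl), sg_succ]
  ring

theorem Good.mul_up {e : Fin 5 → ℂ} (he : Sep e) {h k : ℂ → ℂ} (hg : Good e h) (hk : Good e k) :
    Good e (fun x => Up h x * k x) := by
  refine ⟨?_, ?_⟩
  · refine DifferentiableOn.mul (fun x hx => ?_) hk.diff
    exact (hg.hasDerivAt he hx).differentiableAt.differentiableWithinAt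
  · obtain ⟨C, hC, h1⟩ := hg.up_bound
    obtain ⟨C', hC', h2⟩ := hk.bd
    refine ⟨C * C', by positivity, fun x hx => ?_⟩
    rw [norm_mul, mul_assoc]
    exact mul_le_mul (h1 x hx) (h2 x hx) (norm_nonneg _) hC

theorem Pair.mul_up {e : Fin 5 → ℂ} (he : Sep e) {h h' k k' : ℂ → ℂ} (p : Pair e h h')
    (q : Pair e k k') : Pair e (fun x => Up h x * k x) (fun x => Down h' x * k' x) := by
  refine ⟨p.g.mul_up he q.g, ?_⟩
  have h1 := (p.g'.mul_up he.neg q.g').smul (-1)
  refine ⟨h1.diff.congr fun x hx => ?_, ?_⟩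
  · simp only [Down, neg_neg]; ring
  · obtain ⟨C, hC, h2⟩ := h1.bd
    refine ⟨C, hC, fun x hx => ?_⟩
    refine le_of_eq_of_le ?_ (h2 x hx)
    simp only [Down, neg_neg]; congr 1; ring

/-- The bilinear relation. -/
theorem bilinear {e : Fin 5 → ℂ} (he : Near e) :
    Cc e 0 2 * Cc e 1 1 - Cc e 0 1 * Cc e 1 2 + (Cc e 0 3 * Cc e 1 2 - Cc e 0 2 * Cc e 1 3) +
      (Cc e 0 4 * Cc e 1 3 - Cc e 0 3 * Cc e 1 4) = 0 := by
  have p0 := pair_w he.sep (p := 0) (by norm_num)
  have p1 := pair_w he.sep (p := 1) (by norm_num)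
  have pp := p0.mul_up he.sep p1
  -- the pair with the constant subtracted
  have pj : ∀ j : ℕ, Pair e (fun x => Up (w e 0) x * w e 1 x + (-Cc e 0 j) * w e 1 x)
      (fun x => Down (w' e 0) x * w' e 1 x) := fun j =>
    ⟨pp.g.add (p1.g.smul (-Cc e 0 j)), pp.g'⟩
  have hs : ∀ j : ℕ, j ≤ 5 → ∀ x ∈ Str e j,
      (fun x => Up (w e 0) x * w e 1 x + (-Cc e 0 j) * w e 1 x) x =
        1 * (fun x => Down (w' e 0) x * w' e 1 x) x := by
    intro j hj x hx
    simp only
    rw [up_Str he (by norm_num) hj hx, w_Str hj 1 hx]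
    linear_combination (Down (w' e 0) x * w' e 1 x) * sg_sq j
  set H : ℂ → ℂ := fun x => Up (w e 0) x * w e 1 x with hH
  set H' : ℂ → ℂ := fun x => Down (w' e 0) x * w' e 1 x with hH'
  have hup : ∀ j : ℕ, ∀ k : Fin 5, Up (fun x => H x + (-Cc e 0 j) * w e 1 x) (e k) =
      Up H (e k) - Cc e 0 j * Up (w e 1) (e k) := by
    intro j k
    have hint : ∀ {h : ℂ → ℂ}, Good e h →
        IntegrableOn (fun t : ℝ => I * h (e k + t * I)) (Ioi 0) := by
      intro h hg
      obtain ⟨C, hC, h1⟩ := hg.bd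
      refine (((integrable_Lb e (e k)).const_mul C).integrableOn).mono' ?_ ?_
      · refine ContinuousOn.aestronglyMeasurable ?_ measurableSet_Ioi
        refine continuousOn_const.mul ?_
        exact hg.diff.continuousOn.comp (by fun_prop) fun t ht => Dn_above he.rsep k ht
      · have h3 := ae_restrict_of_ae (s := Ioi (0:ℝ)) (Bnd_le_Lb e (e k))
        filter_upwards [h3, self_mem_ae_restrict measurableSet_Ioi] with t ht ht0
        rw [norm_mul, norm_I, one_mul]
        exact (h1 _ (Dn_above he.rsep k ht0)).trans (mul_le_mul_of_nonneg_left ht hC)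
    unfold Up
    have h1 : ∀ t : ℝ, I * (H (e k + t * I) + (-Cc e 0 j) * w e 1 (e k + t * I)) =
        I * H (e k + t * I) + (-Cc e 0 j) * (I * w e 1 (e k + t * I)) := fun t => by ring
    simp only [h1]
    rw [integral_add (hint pp.g) ((hint p1.g).const_mul _), integral_const_mul (-Cc e 0 j)]
    ring
  set Dj : ℕ → ℂ := fun j => -Ln (fun x => H x + (-Cc e 0 j) * w e 1 x) (ln j) with hDj
  have hrel : ∀ (k : Fin 5) (j : ℕ), (j = k ∨ j = (k:ℕ) + 1) →
      Up H (e k) - Cc e 0 j * Up (w e 1) (e k) - Down H' (e k) = Dj j := by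
    intro k j hj
    have h5 : j ≤ 5 := by omega
    have := (pj j).at_branch he (hs j h5) k hj
    rw [hup, one_mul] at this
    exact this
  have hD0 : Dj 0 = 0 := by
    have h1 : Ln (fun x => H x + (-Cc e 0 0) * w e 1 x) (ln 0) = 0 :=
      (pj 0).ln_zero he (Or.inl rfl) (hs 0 (by norm_num))
    rw [hDj]
    simp only
    rw [h1, neg_zero]
  have hD5 : Dj 5 = 0 := by
    have h1 : Ln (fun x => H x + (-Cc e 0 5) * w e 1 x) (ln 5) = 0 :=
      (pj 5).ln_zero he (Or.inr rfl) (hs 5 (by norm_num))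
    rw [hDj]
    simp only
    rw [h1, neg_zero]
  have hstep : ∀ k : Fin 5, 2 * (Dj (k + 1) - Dj k) =
      -(Cc e 0 (k + 1) - Cc e 0 k) * (Cc e 1 k + Cc e 1 (k + 1)) := by
    intro k
    rw [← two_up he (p := 1) (by norm_num) k, ← hrel k k (Or.inl rfl),
      ← hrel k (k + 1) (Or.inr rfl)]
    ring
  have e0 := hstep 0
  have e1 := hstep 1
  have e2 := hstep 2
  have e3 := hstep 3
  have e4 := hstep 4
  have c0 := Cc_zero he (p := 0) (by norm_num)
  have c0' := Cc_zero he (p := 1) (by norm_num)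
  have c5 := Cc_five he (p := 0) (by norm_num)
  have c5' := Cc_five he (p := 1) (by norm_num)
  simp only [Fin.val_zero, Fin.val_one, Fin.val_two, zero_add, Nat.reduceAdd,
    show ((3 : Fin 5) : ℕ) = 3 from rfl, show ((4 : Fin 5) : ℕ) = 4 from rfl] at e0 e1 e2 e3 e4
  rw [hD0] at e0
  rw [hD5] at e4
  rw [c0, c0'] at e0
  rw [c5, c5'] at e4
  linear_combination (e0 + e1 + e2 + e3 + e4)

end Pool.Agent.H840.AS
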